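import Pool.Agent.Lib.MP_099303_lc.UpA

/-! The potential table of the algorithm and the resulting bound. -/

namespace Pool.Agent.Lib.MP_099303_lc.Up

open scoped ENNReal

/-- actions: stop, move to a node, or evaluate the subtree at a path and continue -/
inductive Act
  | halt : Act
  | go : ℕ → List (Fin 8) → Act
  | cp : List ℕ → ℕ → List (Fin 8) → ℕ → List (Fin 8) → ℕ → List (Fin 8) → Act

/-- nodes of the controller -/
structure Nd where
  s : S (Fin 5)
  op : Option (List ℕ × Fin 5)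
  act : Act
  m : ℕ
  w : List ℕ

def tab : List Nd := [
  ⟨.K false, none, .halt, 1,
    [0]⟩,
  ⟨.K true, none, .halt, 1,
    [0]⟩,
  ⟨.N (.U 0) (.K false) (.K true), none, .cp [0] 17 [0] 0 [] 1 [], 2,
    [377438394, 377438394]⟩,
  ⟨.N (.U 0) (.K false) (.N (.U 1) (.U 2) (.K false)), none, .cp [2] 18 [1, 2] 0 [] 2 [0], 8,
    [154401003, 154401003, 232119420, 232119420, 190290875, 190290875, 662702442, 662702442]⟩,
  ⟨.N (.K false) (.K true) (.N (.U 0) (.U 1) (.K false)), none, .cp [2] 18 [0, 1] 0 [] 1 [], 4,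
    [154401003, 232119420, 190290875, 285264048]⟩,
  ⟨.N (.U 0) (.K true) (.N (.U 1) (.U 2) (.K false)), none, .cp [0] 17 [0] 4 [1, 2] 1 [], 8,
    [531839397, 377438394, 609557814, 377438394, 567729269, 377438394, 662702442, 377438394]⟩,
  ⟨.N (.U 0) (.N (.U 1) (.U 2) (.K false)) (.N (.U 3) (.U 4) (.K false)), none, .cp [1] 18 [1, 2] 3 [0, 3, 4] 5 [0, 3, 4], 32,
    [308802006, 308802006, 386520423, 386520423, 344691878, 344691878, 817103445, 662702442,
     386520423, 386520423, 464238840, 464238840, 422410295, 422410295, 894821862, 662702442,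
     344691878, 344691878, 422410295, 422410295, 380581750, 380581750, 852993317, 662702442,
     817103445, 817103445, 894821862, 894821862, 852993317, 852993317, 947966490, 662702442]⟩,
  ⟨.N (.K false) (.K true) (.N (.U 0) (.U 1) (.K true)), none, .cp [2] 19 [0, 1] 0 [] 1 [], 4,
    [285264048, 190290875, 232119420, 154401003]⟩,
  ⟨.N (.K false) (.N (.U 0) (.U 1) (.K false)) (.N (.U 2) (.U 3) (.K true)), none, .cp [1] 18 [0, 1] 0 [] 7 [2, 3], 16,
    [154401003, 232119420, 190290875, 570528096, 154401003, 232119420, 190290875, 475554923,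
     154401003, 232119420, 190290875, 517383468, 154401003, 232119420, 190290875, 439665051]⟩,
  ⟨.N (.K true) (.N (.U 0) (.U 1) (.K false)) (.N (.U 2) (.U 3) (.K true)), none, .cp [2] 19 [2, 3] 4 [0, 1] 1 [], 16,
    [439665051, 517383468, 475554923, 570528096, 190290875, 190290875, 190290875, 190290875,
     232119420, 232119420, 232119420, 232119420, 154401003, 154401003, 154401003, 154401003]⟩,
  ⟨.N (.U 0) (.N (.U 1) (.U 2) (.K false)) (.N (.U 3) (.U 4) (.K true)), none, .cp [0] 17 [0] 8 [1, 2, 3, 4] 9 [1, 2, 3, 4], 32,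
    [531839397, 817103445, 609557814, 894821862, 567729269, 852993317, 947966490, 947966490,
     531839397, 567729269, 609557814, 567729269, 567729269, 567729269, 852993317, 567729269,
     531839397, 609557814, 609557814, 609557814, 567729269, 609557814, 894821862, 609557814,
     531839397, 531839397, 609557814, 531839397, 567729269, 531839397, 817103445, 531839397]⟩,
  ⟨.N (.U 0) (.U 1) (.N (.U 2) (.U 3) (.K false)), some ([0], 0), .cp [0, 0] 17 [5] 6 [1, 6, 7, 2, 3] 10 [1, 2, 3, 6, 7], 16,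
    [563476974, 769387154, 658564990, 755789583, 641195391, 847105571, 736283407, 755789583,
     599366846, 805277026, 694454862, 755789583, 1041053631, 1041053631, 1041053631,
     755789583]⟩,
  ⟨.N (.U 0) (.K false) (.N (.U 1) (.U 2) (.K true)), none, .cp [0] 17 [0] 0 [] 7 [1, 2], 8,
    [377438394, 662702442, 377438394, 567729269, 377438394, 609557814, 377438394, 531839397]⟩,
  ⟨.N (.U 0) (.K true) (.N (.U 1) (.U 2) (.K true)), none, .cp [2] 19 [1, 2] 2 [0] 1 [], 8,
    [662702442, 662702442, 190290875, 190290875, 232119420, 232119420, 154401003, 154401003]⟩,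
  ⟨.N (.U 0) (.N (.U 1) (.U 2) (.K true)) (.N (.U 3) (.U 4) (.K true)), none, .cp [1] 19 [1, 2] 12 [0, 3, 4] 13 [0, 3, 4], 32,
    [662702442, 947966490, 852993317, 852993317, 894821862, 894821862, 817103445, 817103445,
     662702442, 852993317, 380581750, 380581750, 422410295, 422410295, 344691878, 344691878,
     662702442, 894821862, 422410295, 422410295, 464238840, 464238840, 386520423, 386520423,
     662702442, 817103445, 344691878, 344691878, 386520423, 386520423, 308802006, 308802006]⟩,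
  ⟨.N (.U 0) (.U 1) (.N (.U 2) (.U 3) (.K true)), some ([0], 0), .cp [0, 0] 17 [5] 10 [1, 6, 7, 2, 3] 14 [1, 6, 7, 2, 3], 16,
    [755789583, 1041053631, 1041053631, 1041053631, 755789583, 694454862, 805277026, 599366846,
     755789583, 736283407, 847105571, 641195391, 755789583, 658564990, 769387154, 563476974]⟩,
  ⟨.N (.U 0) (.U 1) (.U 2), some ([0], 0), .cp [0, 0] 17 [5] 11 [1, 2, 6, 7] 15 [1, 2, 6, 7], 8,
    [807910348, 993337340, 1040271817, 966390375, 966390375, 1040271817, 993337340, 807910348]⟩,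
  ⟨.U 0, some ([], 0), .go 16 [5, 6, 7], 2,
    [1000000000, 1000000000]⟩,
  ⟨.N (.U 0) (.U 1) (.K false), some ([0], 0), .cp [0, 0] 17 [5] 3 [1, 6, 7] 12 [1, 6, 7], 4,
    [409076038, 614986243, 504164065, 755789692]⟩,
  ⟨.N (.U 0) (.U 1) (.K true), some ([0], 0), .cp [0, 0] 17 [5] 5 [1, 6, 7] 13 [1, 6, 7], 4,
    [755789692, 504164065, 614986243, 409076038]⟩]

def nd (k : ℕ) : Nd := tab.getD k ⟨.K false, none, .halt, 1, []⟩

def W (k : ℕ) (g : Fin 5 → Bool) : ℕ :=
  (nd k).w.getD (((g 0).toNat + 2 * (g 1).toNat + 4 * (g 2).toNat + 8 * (g 3).toNat +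
    16 * (g 4).toNat) % (nd k).m) 0

def lb (L : List (Fin 8)) (i : Fin 5) : Fin 8 := L.getD i 0

def up (i : Fin 5) : Fin 8 := i.castLE (by decide)

def rot (i : Fin 8) : Fin 8 := if i = 5 then 6 else if i = 6 then 7 else if i = 7 then 5 else i

def okA (k : ℕ) (s : S (Fin 8)) : Act → Prop
  | .halt => False
  | .go k' L => k' < k ∧ norm s = (nd k').s.map (lb L)
  | .cp p t Lt k0 L0 k1 L1 => (p.length = 1 ∨ p.length = 2) ∧ okp p s = true ∧ k0 < k ∧ k1 < k ∧
      t < 20 ∧ sub p s = (nd t).s.map (lb Lt) ∧ norm (put p s (.K false)) = (nd k0).s.map (lb L0) ∧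
      norm (put p s (.K true)) = (nd k1).s.map (lb L1)

def ev (g : Fin 8 → Bool) : Act → ℕ
  | .halt => 0
  | .go k' L => 2649439 ^ 2 * W k' fun i => g (lb L i)
  | .cp p t Lt k0 L0 k1 L1 => 1000000 ^ p.length * 2649439 ^ (2 - p.length) *
      (W t fun i => g (lb Lt i)) + 2649439 ^ 2 *
      bif val (fun i => g (lb Lt i)) (nd t).s then W k1 fun i => g (lb L1 i)
      else W k0 fun i => g (lb L0 i)

def okW (k : ℕ) (g : Fin 8 → Bool) : Option (List ℕ × Fin 5) → Prop
  | none => ev g (nd k).act ≤ 2649439 ^ 2 * W k fun i => g (up i)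
  | some q => g (up q.2) = maj (g 5) (g 6) (g 7) → ev g (nd k).act +
      ev (fun i => g (rot i)) (nd k).act + ev (fun i => g (rot (rot i))) (nd k).act ≤
      3 * (2649439 ^ 2 * W k fun i => g (up i))

def okS (k : ℕ) : Option (List ℕ × Fin 5) → Prop
  | none => okA k ((nd k).s.map up) (nd k).act
  | some q => q.1.length ≤ 1 ∧ okp q.1 ((nd k).s.map up) = true ∧
      sub q.1 ((nd k).s.map up) = .U (up q.2) ∧
      okA k (put q.1 ((nd k).s.map up) (.N (.U 5) (.U 6) (.U 7))) (nd k).act

instance (k s a) : Decidable (okA k s a) := by cases a <;> unfold okA <;> infer_instance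
instance (k g o) : Decidable (okW k g o) := by cases o <;> unfold okW <;> infer_instance
instance (k o) : Decidable (okS k o) := by cases o <;> unfold okS <;> infer_instance

def mk8 (a b c d e f g h : Bool) (i : Fin 8) : Bool := [a, b, c, d, e, f, g, h].getD i false

lemma chkS : ∀ k < 20, 2 ≤ k → okS k (nd k).op := by decide +kernel

lemma chkW' : ∀ k < 20, 2 ≤ k → ∀ a b c d e f g h, okW k (mk8 a b c d e f g h) (nd k).op ∧
    1 ≤ W k (fun i => mk8 a b c d e f g h (up i)) ∧
    W k (fun i => mk8 a b c d e f g h (up i)) ≤ 2000000000 := by decide +kernel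

lemma chkW {k : ℕ} (h : k < 20) (h2 : 2 ≤ k) (g : Fin 8 → Bool) : okW k g (nd k).op ∧
    1 ≤ W k (fun i => g (up i)) ∧ W k (fun i => g (up i)) ≤ 2000000000 := by
  have e : g = mk8 (g 0) (g 1) (g 2) (g 3) (g 4) (g 5) (g 6) (g 7) := by
    funext i
    fin_cases i <;> rfl
  rw [e]
  exact chkW' k h h2 _ _ _ _ _ _ _ _

/-- a subtree given by its height and its leaves -/
structure Sub (ι : Type) where
  h : ℕ
  e : Fin (3 ^ h) → ι

variable {ι : Type}

def Sub.vl (T : Sub ι) (x : ι → Bool) : Bool := iterMaj T.h fun j => x (T.e j)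

def Sub.ch : Sub ι → Fin 3 → Sub ι
  | ⟨0, e⟩, _ => ⟨0, e⟩
  | ⟨h + 1, e⟩, j => ⟨h, fun i => e (blk h j i)⟩

lemma Sub.ch_spec {T : Sub ι} {h : ℕ} (hT : T.h = h + 1) : (∀ j, (T.ch j).h = h) ∧
    ∀ x, T.vl x = maj ((T.ch 0).vl x) ((T.ch 1).vl x) ((T.ch 2).vl x) := by
  obtain ⟨_, e⟩ := T
  obtain rfl : _ = h + 1 := hT
  exact ⟨fun _ => rfl, fun _ => rfl⟩

lemma ach_triv {α : Type} (t : α → Sub ι) (s : S α) : ∀ h, Ht (fun i => (t i).h) s h →
    Ach (fun x => val (fun i => (t i).vl x) s) fun _ => 3 ^ h := by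
  induction s with
  | U i => rintro _ rfl; exact ach_iter _ _
  | K b => exact fun h _ => (ach_const b).mono (fun _ => rfl) fun _ => by positivity
  | N a b c ha hb hc =>
    rintro _ ⟨h, rfl, h1, h2, h3⟩
    exact ((ha h h1).maj3 (hb h h2) (hc h h3)).mono (fun _ => rfl) fun _ => (pow_succ _ _).ge

/-- the claim for one node at one height -/
def Cl (ι : Type) (h k : ℕ) : Prop := ∀ t : Fin 5 → Sub ι, Ht (fun i => (t i).h) (nd k).s h →
  Ach (fun x => val (fun i => (t i).vl x) (nd k).s)
    fun x => 3 * 2.649439 ^ h * W k fun i => (t i).vl x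

lemma Cl.jump {h k : ℕ} (H : Cl ι h k) {L : List (Fin 8)} {s : S (Fin 8)}
    (e : norm s = (nd k).s.map (lb L)) (t : Fin 8 → Sub ι) (ht : Ht (fun i => (t i).h) s h) :
    Ach (fun x => val (fun i => (t i).vl x) s)
      fun x => 3 * 2.649439 ^ h * W k fun i => (t (lb L i)).vl x :=
  (H (fun i => t (lb L i)) ((ht_map (H := fun i => (t i).h) (lb L) _ _).1 (e ▸ ht_norm s h ht))).mono
    (fun x => by rw [← val_norm s, e, val_map]) fun _ => le_rfl

lemma act_ach {h k : ℕ} (H1 : ∀ h' < h, ∀ k' < 20, Cl ι h' k') (H2 : ∀ k' < k, Cl ι h k')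
    {s : S (Fin 8)} {a : Act} (ok : okA k s a) (t : Fin 8 → Sub ι)
    (ht : Ht (fun i => (t i).h) s h) : Ach (fun x => val (fun i => (t i).vl x) s)
      fun x => 3 * 2.649439 ^ h * (ev (fun i => (t i).vl x) a / 2649439 ^ 2) := by
  cases a with
  | halt => exact ok.elim
  | go k' L =>
    refine ((H2 k' ok.1).jump ok.2 t ht).mono (fun _ => rfl) fun x => le_of_eq ?_
    simp only [ev]
    push_cast
    ring
  | cp p u Lt k0 L0 k1 L1 =>
    obtain ⟨o1, o2, o3, o4, o5, o6, o7, o8⟩ := ok
    obtain ⟨h', rfl, e1, -⟩ := ht_sub (y := s) p s h o2 ht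
    have e2 : ∀ b, Ht (fun i => (t i).h) (put p s (.K b)) (h' + p.length) := fun b => by
      obtain ⟨_, -, -, e⟩ := ht_sub (y := .K b) p s _ o2 ht
      exact e trivial
    have a1 := H1 h' (by omega) u o5 (fun i => t (lb Lt i)) 
      ((ht_map (H := fun i => (t i).h) (lb Lt) _ _).1 (o6 ▸ e1))
    refine (a1.seq (G := fun b x => val (fun i => (t i).vl x) (put p s (.K b)))
      (C := fun b x => 3 * 2.649439 ^ (h' + p.length) * ((bif b then W k1 fun i => (t (lb L1 i)).vl x
        else W k0 fun i => (t (lb L0 i)).vl x : ℕ) : ℝ)) fun b => ?_).mono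
      (fun x => val_put p s (by rw [o6, val_map]; rfl)) fun x => le_of_eq ?_
    · cases b
      exacts [(H2 k0 o3).jump o7 t (e2 _), (H2 k1 o4).jump o8 t (e2 _)]
    · simp only [ev]
      rcases o1 with e | e <;> rw [e] <;> push_cast <;> ring

lemma up_lt : ∀ i, (up i : ℕ) < 5 := by decide

lemma rot_up : ∀ i, rot (up i) = up i := by decide

lemma cl_step {h k : ℕ} (hk : k < 20) (H1 : ∀ h' < h, ∀ k' < 20, Cl ι h' k')
    (H2 : ∀ k' < k, Cl ι h k') : Cl ι h k := by
  intro t ht
  by_cases h2 : k < 2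
  · interval_cases k <;> exact (ach_const _).mono (fun _ => rfl) fun _ => by positivity
  let t8 : Fin 8 → Sub ι := fun i => if h : (i : ℕ) < 5 then t ⟨i, h⟩ else t 0
  have e8 : ∀ i, t8 (up i) = t i := fun i => dif_pos (up_lt i)
  by_cases h3 : h ≤ 1
  · refine (ach_triv t _ h ht).mono (fun _ => rfl) fun x => ?_
    have h4 := (chkW hk (not_lt.1 h2) fun i => (t8 i).vl x).2.1
    simp only [e8] at h4
    have h5 : (1 : ℝ) ≤ (W k fun i => (t i).vl x : ℕ) := by exact_mod_cast h4
    interval_cases h <;> norm_num <;> linarith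
  have oS := chkS k hk (not_lt.1 h2)
  have oW := fun g => (chkW hk (not_lt.1 h2) g).1
  generalize (nd k).op = o at oS oW
  rcases o with _ | ⟨p, j⟩
  · refine (act_ach H1 H2 oS t8 ((ht_map _ _ _).2 (by simpa only [e8] using ht))).mono
      (fun x => by simp only [val_map, e8]) fun x => mul_le_mul_of_nonneg_left ?_ (by positivity)
    have h4 := oW fun i => (t8 i).vl x
    simp only [okW, e8] at h4
    rw [div_le_iff₀' (by positivity)]
    exact_mod_cast h4
  · obtain ⟨o1, o2, o3, o4⟩ := oS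
    dsimp only at o1 o2 o3 o4
    obtain ⟨h', e0, e1, -⟩ := ht_sub (y := .K true) p _ h o2
      ((ht_map (H := fun i => (t8 i).h) _ _ _).2 (by simpa only [e8] using ht))
    rw [o3] at e1
    obtain ⟨d, rfl⟩ : ∃ d, h' = d + 1 := ⟨h' - 1, by omega⟩
    obtain ⟨c1, c2⟩ := Sub.ch_spec (T := t j) (h := d) (by simpa only [Ht, e8] using e1)
    have key : ∀ T : Fin 8 → Sub ι, (∀ i, T (up i) = t i) → (T 5).h = d → (T 6).h = d →
        (T 7).h = d → (∀ x, (t j).vl x = maj ((T 5).vl x) ((T 6).vl x) ((T 7).vl x)) →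
        Ach (fun x => val (fun i => (t i).vl x) (nd k).s)
        fun x => 3 * 2.649439 ^ h * (ev (fun i => (T i).vl x) (nd k).act / 2649439 ^ 2) := by
      intro T f0 f5 f6 f7 fv
      obtain ⟨h'', f1, -, f2⟩ := ht_sub (y := .N (.U 5) (.U 6) (.U 7)) p _ h o2
        ((ht_map (H := fun i => (T i).h) _ _ _).2 (by simpa only [f0] using ht))
      refine (act_ach H1 H2 o4 T (f2 ⟨d, by omega, f5, f6, f7⟩)).mono (fun x => ?_) fun _ => le_rfl
      rw [val_put p _ (by rw [o3]; simp only [val, f0, fv]), val_map]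
      simp only [f0]
    let T : Fin 8 → Sub ι := fun i => if i = 5 then (t j).ch 0 else if i = 6 then (t j).ch 1
      else if i = 7 then (t j).ch 2 else t8 i
    have f0 : ∀ i, T (up i) = t i := fun i => by rw [← e8]; fin_cases i <;> rfl
    have m1 : ∀ a b c, maj a b c = maj b c a := by decide
    refine ((key T f0 (c1 0) (c1 1) (c1 2) c2).mix
      (key (fun i => T (rot i)) (fun i => by rw [rot_up, f0]) (c1 1) (c1 2) (c1 0)
        fun x => (c2 x).trans (m1 _ _ _))
      (key (fun i => T (rot (rot i))) (fun i => by rw [rot_up, rot_up, f0]) (c1 2) (c1 0) (c1 1)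
        fun x => (c2 x).trans (m1 _ _ _).symm)).mono (fun _ => rfl) fun x => ?_
    have h4 := oW (fun i => (T i).vl x) (by simp only [f0]; exact c2 x)
    simp only [f0] at h4
    have h5 : ((ev (fun i => (T i).vl x) (nd k).act : ℝ) + ev (fun i => (T (rot i)).vl x) (nd k).act +
        ev (fun i => (T (rot (rot i))).vl x) (nd k).act) / 2649439 ^ 2 / 3 ≤
        (W k fun i => (t i).vl x : ℕ) := by
      rw [div_le_iff₀' (by positivity), div_le_iff₀' (by positivity), mul_left_comm]
      exact_mod_cast h4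
    refine le_of_eq_of_le ?_ (mul_le_mul_of_nonneg_left h5 (by positivity))
    ring

lemma cl_all (h : ℕ) : ∀ k < 20, Cl ι h k := by
  induction h using Nat.strong_induction_on with
  | _ h H1 =>
    intro k
    induction k using Nat.strong_induction_on with
    | _ k H2 => exact fun hk => cl_step hk H1 fun k' hk' => H2 k' hk' (hk'.trans hk)

lemma R_le (k : ℕ) : R (iterMaj k) ≤ ENNReal.ofReal (3 * 2.649439 ^ k * 2000000000) := by
  refine Ach.R_le ((cl_all k 17 (by norm_num) (fun _ => ⟨k, id⟩) rfl).mono (fun _ => rfl)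
    fun x => mul_le_mul_of_nonneg_left ?_ (by positivity))
  exact_mod_cast (chkW (k := 17) (by norm_num) (by norm_num) fun _ => iterMaj k x).2.2

theorem cStar_le : cStar ≤ 2.649439 := by
  refine le_of_forall_gt_imp_ge_of_dense fun c hc => csInf_le ⟨0, fun _ h => h.1.le⟩
    ⟨by linarith, ?_⟩
  have h1 : (1 : ℝ) < c / 2.649439 := by rw [lt_div_iff₀ (by norm_num)]; linarith
  filter_upwards [(tendsto_pow_atTop_atTop_of_one_lt h1).eventually_ge_atTop 6000000000] with k hk
  refine (R_le k).trans (ENNReal.ofReal_le_ofReal ?_)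
  rw [div_pow, le_div_iff₀ (by positivity)] at hk
  linarith

end Pool.Agent.Lib.MP_099303_lc.Up
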