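import Pool.Agent.Lib.MP_099303_lc.Red

namespace Pool.Agent.Lib.MP_099303_lc

open Finset

noncomputable section

def force (n : ℕ) (k : ℕ → ℕ) : ℕ := Nat.rec (k (nat_lit 0)) (fun m _ => k (Nat.succ m)) n

lemma force_eq (n k) : force n k = k n := by cases n <;> rfl

def nmin (a b : ℕ) : ℕ := Nat.sub a (Nat.sub a b)
def nmax (a b : ℕ) : ℕ := Nat.add a (Nat.sub b a)
def lvN (e x y : ℕ) : ℕ := Nat.add (Nat.mul (lo e) x) (Nat.mul (hi e) y)

def mnK (x y f : ℕ) : ℕ → ℕ → ℕ :=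
  Nat.rec (motive := fun _ => ℕ → ℕ → ℕ) (fun _ m => m)
    (fun _ ih e m => Nat.rec m (fun e' _ => ih (tl e') (nmin m (lvN e' x y))) e) f

def minN (e x y : ℕ) : ℕ :=
  Nat.rec (nat_lit 0) (fun e' _ => mnK x y (nat_lit 31) (tl e') (lvN e' x y)) e

lemma mnK_le (x y : ℕ) : ∀ f e m, mnK x y f e m ≤ m ∧ ∀ l ∈ dec f e, mnK x y f e m ≤ l.1 * x + l.2 * y
  | 0, _, m => ⟨le_rfl, by simp [dec]⟩
  | _ + 1, 0, m => ⟨le_rfl, by simp [dec]⟩
  | f + 1, e + 1, m => by
    obtain ⟨h1, h2⟩ := mnK_le x y f (tl e) (nmin m (lvN e x y))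
    have e1 : mnK x y (f + 1) (e + 1) m = mnK x y f (tl e) (nmin m (lvN e x y)) := rfl
    have e2 : nmin m (lvN e x y) = m - (m - (lo e * x + hi e * y)) := rfl
    rw [e1]
    refine ⟨by omega, fun l hl => ?_⟩
    rcases List.mem_cons.1 hl with rfl | hl
    · dsimp only; omega
    · exact h2 l hl

lemma minN_le (e x y : ℕ) : (minN e x y : ℝ) ≤ mE e x y := by
  obtain ⟨l, h, h' | ⟨rfl, rfl⟩⟩ := attain e x y
  · rw [h, lv]
    have : minN e x y ≤ l.1 * x + l.2 * y := by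
      cases e with
      | zero => exact Nat.zero_le _
      | succ e =>
        obtain ⟨h1, h2⟩ := mnK_le x y 31 (tl e) (lvN e x y)
        rcases List.mem_cons.1 h' with rfl | hl
        · exact h1
        · exact h2 l hl
    exact_mod_cast this
  · rw [h]; simp [lv, minN]

def pickS (k : ℕ → ℕ → ℕ) (i : ℕ) : ℕ → ℕ :=
  Nat.rec (motive := fun _ => ℕ → ℕ) (fun e => k (lo e) (hi e))
    (fun _ ih e => Nat.rec (nat_lit 0) (fun e' _ => ih e') (tl e)) i

def pick (e i : ℕ) (k : ℕ → ℕ → ℕ) : ℕ :=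
  Nat.rec (k (nat_lit 0) (nat_lit 0)) (fun e' _ => pickS k i e') e

lemma pickS_spec (k) : ∀ i f e, i < f → pickS k i e ≠ 0 → ∃ l ∈ dec f (e + 1), pickS k i e = k l.1 l.2
  | _, 0, _, h, _ => by omega
  | 0, f + 1, e, _, _ => ⟨(lo e, hi e), List.mem_cons_self, rfl⟩
  | i + 1, f + 1, e, h, h' => by
    have e1 : pickS k (i + 1) e = Nat.rec (nat_lit 0) (fun e' _ => pickS k i e') (tl e) := rfl
    rw [e1] at h' ⊢
    rw [dec]
    generalize tl e = t at h' ⊢
    cases t with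
    | zero => exact absurd rfl h'
    | succ t =>
      obtain ⟨l, hl, h2⟩ := pickS_spec k i f t (by omega) h'
      exact ⟨l, List.mem_cons_of_mem _ hl, h2⟩

lemma pick_spec {e i k} (hi : i < 32) (h : pick e i k ≠ 0) : ∃ l, Val e l ∧ k l.1 l.2 ≠ 0 := by
  cases e with
  | zero => exact ⟨_, val_zero, h⟩
  | succ e =>
    obtain ⟨l, hl, h2⟩ := pickS_spec k i 32 e hi h
    exact ⟨l, val_mem hl, h2 ▸ h⟩

def stp2 (k : ℕ) (la lb w0 w1 R : ℕ) : ℕ :=
  Bool.rec (nat_lit 0) k (Nat.ble (Nat.add (Nat.mul la w0) (Nat.mul lb w1)) R)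

def stp3 (ih : ℕ → ℕ → ℕ → ℕ) (la lb q s w0 w1 R : ℕ) : ℕ :=
  stp2 (Bool.rec (ih q R s) s (Nat.beq q (nat_lit 4095))) la lb w0 w1 R

def stp4 (ih : ℕ → ℕ → ℕ → ℕ) (rhs : ℕ → ℕ → ℕ) (la lb q s w0 w1 : ℕ) : ℕ :=
  stp3 ih la lb q s w0 w1 (rhs w0 w1)

def stp (ih : ℕ → ℕ → ℕ → ℕ) (rhs : ℕ → ℕ → ℕ) (la lb al be p q R s : ℕ) : ℕ :=
  Bool.rec (nat_lit 0)
    (stp2 (stp4 ih rhs la lb q s (Nat.mul (Nat.sub (nat_lit 4095) q) al) (Nat.mul q be))
      la lb (Nat.mul (Nat.sub (nat_lit 4095) p) al) (Nat.mul p be) R)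
    (Nat.ble (Nat.succ p) q)

def cmb (y a l b m : ℕ) : ℕ :=
  Nat.add (Nat.mul (nat_lit 26493) y) (Nat.mul (nat_lit 10000) (Nat.add (Nat.mul a l) (Nat.mul b m)))

def ivs (rhs : ℕ → ℕ → ℕ) (y0 y1 : ℕ → ℕ) (e0 e1 a0 b0 a1 b1 al be f : ℕ) : ℕ → ℕ → ℕ → ℕ :=
  Nat.rec (motive := fun _ => ℕ → ℕ → ℕ → ℕ) (fun _ _ _ => nat_lit 0) (fun _ ih p R s =>
    force (Nat.mod (Nat.shiftRight s (nat_lit 12)) (nat_lit 64)) fun j =>
    pick e0 (Nat.mod (Nat.shiftRight s (nat_lit 18)) (nat_lit 32)) fun l0 l1 =>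
    pick e1 (Nat.mod (Nat.shiftRight s (nat_lit 23)) (nat_lit 32)) fun m0 m1 =>
    stp ih rhs (cmb (y0 j) a0 l0 a1 m0) (cmb (y1 j) b0 l1 b1 m1) al be p (Nat.mod s (nat_lit 4096)) R
      (Nat.shiftRight s (nat_lit 28))) f

lemma stp_spec {ih rhs la lb al be p q R s} (h : stp ih rhs la lb al be p q R s ≠ 0) :
    p < q ∧ la * ((4095 - p) * al) + lb * (p * be) ≤ R ∧
      la * ((4095 - q) * al) + lb * (q * be) ≤ rhs ((4095 - q) * al) (q * be) ∧
      (q = 4095 ∨ ih q (rhs ((4095 - q) * al) (q * be)) s ≠ 0) := by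
  unfold stp stp4 stp3 stp2 at h
  cases h1 : Nat.ble (Nat.succ p) q
  · rw [h1] at h; exact absurd rfl h
  rw [h1] at h
  cases h2 : Nat.ble (Nat.add (Nat.mul la (Nat.mul (Nat.sub (nat_lit 4095) p) al))
    (Nat.mul lb (Nat.mul p be))) R
  · rw [h2] at h; exact absurd rfl h
  rw [h2] at h
  cases h3 : Nat.ble (Nat.add (Nat.mul la (Nat.mul (Nat.sub (nat_lit 4095) q) al))
    (Nat.mul lb (Nat.mul q be))) (rhs (Nat.mul (Nat.sub (nat_lit 4095) q) al) (Nat.mul q be))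
  · rw [h3] at h; exact absurd rfl h
  rw [h3] at h
  refine ⟨Nat.le_of_ble_eq_true h1, Nat.le_of_ble_eq_true h2, Nat.le_of_ble_eq_true h3, ?_⟩
  cases h4 : Nat.beq q (nat_lit 4095)
  · rw [h4] at h; exact Or.inr h
  · exact Or.inl (Nat.eq_of_beq_eq_true h4)

def Good (F : ℝ → ℝ → ℝ) (y0 y1 : ℕ → ℕ) (e0 e1 a0 b0 a1 b1 : ℕ) (w0 w1 : ℝ) : Prop :=
  ∃ j < 64, 26493 * (y0 j * w0 + y1 j * w1) +
    10000 * (mE e0 (a0 * w0) (b0 * w1) + mE e1 (a1 * w0) (b1 * w1)) ≤ 10000 * F w0 w1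

lemma ivs_sound (F : ℝ → ℝ → ℝ) (hF : ∀ s t x y x' y' : ℝ, 0 ≤ s → 0 ≤ t →
      s * F x y + t * F x' y' ≤ F (s * x + t * x') (s * y + t * y'))
    (rhs : ℕ → ℕ → ℕ) (hr : ∀ x y : ℕ, (rhs x y : ℝ) ≤ 10000 * F x y)
    (y0 y1 : ℕ → ℕ) (e0 e1 a0 b0 a1 b1 al be : ℕ) : ∀ f p R s : ℕ,
    (R : ℝ) ≤ 10000 * F ((4095 - p) * al : ℕ) (p * be : ℕ) →
    ivs rhs y0 y1 e0 e1 a0 b0 a1 b1 al be f p R s ≠ 0 →
    ∀ x y : ℝ, 0 ≤ x → x * p ≤ y * (4095 - p) → Good F y0 y1 e0 e1 a0 b0 a1 b1 (x * al) (y * be)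
  | 0, _, _, _, _, h => absurd rfl h
  | f + 1, p, R, s, hR, h => by
    have e1' : ivs rhs y0 y1 e0 e1 a0 b0 a1 b1 al be (f + 1) p R s =
      force (Nat.mod (Nat.shiftRight s (nat_lit 12)) (nat_lit 64)) fun j =>
      pick e0 (Nat.mod (Nat.shiftRight s (nat_lit 18)) (nat_lit 32)) fun l0 l1 =>
      pick e1 (Nat.mod (Nat.shiftRight s (nat_lit 23)) (nat_lit 32)) fun m0 m1 =>
      stp (ivs rhs y0 y1 e0 e1 a0 b0 a1 b1 al be f) rhs (cmb (y0 j) a0 l0 a1 m0)
        (cmb (y1 j) b0 l1 b1 m1) al be p (Nat.mod s (nat_lit 4096)) R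
        (Nat.shiftRight s (nat_lit 28)) := rfl
    rw [e1', force_eq] at h
    have hj : Nat.mod (Nat.shiftRight s (nat_lit 12)) (nat_lit 64) < 64 := Nat.mod_lt _ (by norm_num)
    have hq : Nat.mod s (nat_lit 4096) < 4096 := Nat.mod_lt _ (by norm_num)
    generalize Nat.mod (Nat.shiftRight s (nat_lit 12)) (nat_lit 64) = j at h hj
    generalize Nat.mod s (nat_lit 4096) = q at h hq
    obtain ⟨l, hl, h1⟩ := pick_spec (Nat.mod_lt _ (by norm_num)) h
    obtain ⟨m, hm, h2⟩ := pick_spec (Nat.mod_lt _ (by norm_num)) h1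
    obtain ⟨hpq, k1, k2, k3⟩ := stp_spec h2
    intro x y hx0 hxy
    by_cases hc : y * (4095 - q) ≤ x * q
    · refine ⟨j, hj, ?_⟩
      have hq' : q ≤ 4095 := by omega
      have hp' : p ≤ 4095 := by omega
      have k1' := (Nat.cast_le (α := ℝ).2 k1).trans hR
      have k2' := (Nat.cast_le (α := ℝ).2 k2).trans (hr _ _)
      have ec : ∀ y a l b m, (cmb y a l b m : ℝ) = 26493 * y + 10000 * (a * l + b * m) := by
        intro y a l b m
        have : cmb y a l b m = 26493 * y + 10000 * (a * l + b * m) := rfl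
        rw [this]; push_cast; ring
      push_cast [ec, hq', hp'] at k1' k2'
      have hd : (0 : ℝ) < 4095 * (q - p) := by
        have : (p : ℝ) < q := by exact_mod_cast hpq
        linarith
      have hd' : (q - p : ℝ) ≠ 0 := by intro h0; rw [h0] at hd; simp at hd
      obtain ⟨s1, hs1⟩ : ∃ s1 : ℝ, s1 = (x * q - y * (4095 - q)) / (4095 * (q - p)) := ⟨_, rfl⟩
      obtain ⟨s2, hs2⟩ : ∃ s2 : ℝ, s2 = (y * (4095 - p) - x * p) / (4095 * (q - p)) := ⟨_, rfl⟩
      have p1 : 0 ≤ s1 := hs1 ▸ div_nonneg (by linarith) hd.le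
      have p2 : 0 ≤ s2 := hs2 ▸ div_nonneg (by linarith) hd.le
      have hx : x = s1 * (4095 - p) + s2 * (4095 - q) := by rw [hs1, hs2]; field_simp; ring
      have hy : y = s1 * p + s2 * q := by rw [hs1, hs2]; field_simp; ring
      have k4 := hF s1 s2 ((4095 - p) * al) (p * be) ((4095 - q) * al) (q * be) p1 p2
      have ex : s1 * ((4095 - p) * al) + s2 * ((4095 - q) * al) = x * al := by rw [hx]; ring
      have ey : s1 * (p * be) + s2 * (q * be) = y * be := by rw [hy]; ring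
      rw [ex, ey] at k4
      have k5 := hl (a0 * (x * al)) (b0 * (y * be))
      have k6 := hm (a1 * (x * al)) (b1 * (y * be))
      have k7 := mul_le_mul_of_nonneg_left k1' p1
      have k8 := mul_le_mul_of_nonneg_left k2' p2
      unfold lv at k5 k6
      have k9 : 26493 * (y0 j * (x * al) + y1 j * (y * be)) + 10000 * ((l.1 * (a0 * (x * al)) +
          l.2 * (b0 * (y * be))) + (m.1 * (a1 * (x * al)) + m.2 * (b1 * (y * be)))) =
          s1 * ((26493 * y0 j + 10000 * (a0 * l.1 + a1 * m.1)) * ((4095 - p) * al) +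
            (26493 * y1 j + 10000 * (b0 * l.2 + b1 * m.2)) * (p * be)) +
          s2 * ((26493 * y0 j + 10000 * (a0 * l.1 + a1 * m.1)) * ((4095 - q) * al) +
            (26493 * y1 j + 10000 * (b0 * l.2 + b1 * m.2)) * (q * be)) := by
        rw [← ex, ← ey]; ring
      linarith
    · rcases k3 with rfl | k3
      · refine absurd ?_ hc
        push_cast; linarith
      · exact ivs_sound F hF rhs hr y0 y1 e0 e1 a0 b0 a1 b1 al be f q _ _ (hr _ _) k3 x y hx0
          (not_le.1 hc).le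

def zm (k x : ℕ) : ℕ := Nat.rec (nat_lit 0) (fun m _ => Nat.mul (Nat.succ m) x) k

lemma zm_eq (k x) : zm k x = k * x := by
  cases k with
  | zero => simp [zm]
  | succ k => rfl

def sum6 (f : ℕ → ℕ) : ℕ :=
  Nat.add (Nat.add (Nat.add (f (nat_lit 0)) (f (nat_lit 1))) (Nat.add (f (nat_lit 2)) (f (nat_lit 3))))
    (Nat.add (f (nat_lit 4)) (f (nat_lit 5)))

lemma sum6_eq (f) : sum6 f = ∑ x ∈ range 6, f x := by
  have : sum6 f = f 0 + f 1 + (f 2 + f 3) + (f 4 + f 5) := rfl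
  simp only [this, sum_range_succ, range_zero, sum_empty]; ring

section chk

variable (co : ℕ → ℕ → ℕ → ℕ → Bool → ℕ) (Ge Vs : ℕ → ℕ → ℕ → ℕ)

def S3f (T3 j x y : ℕ) (v : Bool) : ℕ := sum6 fun z => zm (Dt T3 z) (co j x y z v)
def HH (T2 T3 j x : ℕ) (v : Bool) : ℕ := sum6 fun y => zm (Dt T2 y) (S3f co T3 j x y v)
def YY (T2 T3 a b c : ℕ) (v : Bool) (j : ℕ) : ℕ :=
  Nat.add (Nat.add (zm (adT a b c (nat_lit 2)) (HH co T2 T3 j (nat_lit 2) v))
    (zm (adT a b c (nat_lit 3)) (HH co T2 T3 j (nat_lit 3) v)))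
    (Nat.add (zm (adT a b c (nat_lit 4)) (HH co T2 T3 j (nat_lit 4) v))
    (zm (adT a b c (nat_lit 5)) (HH co T2 T3 j (nat_lit 5) v)))

def lin (a x b y : ℕ) : ℕ := Nat.add (Nat.mul a x) (Nat.mul b y)

def rhsN (g v u00 u01 u10 u11 c0 c1 w0 w1 : ℕ) : ℕ :=
  Nat.mul (nat_lit 10000) (Nat.add (minN g (lin u00 w0 u01 w1) (lin u10 w0 u11 w1))
    (minN v (Nat.mul c0 w0) (Nat.mul c1 w1)))

def act3 (rhs : ℕ → ℕ → ℕ) (y0 y1 : ℕ → ℕ) (e0 e1 a0 b0 a1 b1 al be s : ℕ) : ℕ :=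
  ivs rhs y0 y1 e0 e1 a0 b0 a1 b1 al be (nat_lit 32) (nat_lit 0)
    (rhs (Nat.mul (nat_lit 4095) al) (nat_lit 0)) s

def act2 (g v : ℕ) (y0 y1 : ℕ → ℕ) (e0 e1 a0 b0 a1 b1 u00 u01 u10 u11 c0 c1 s : ℕ) : ℕ :=
  act3 (rhsN g v u00 u01 u10 u11 c0 c1) y0 y1 e0 e1 a0 b0 a1 b1 (Nat.succ c1) (Nat.succ c0) s

def act1 (g v : ℕ) (y0 y1 : ℕ → ℕ) (e0 e1 a0 b0 a1 b1 u00 u01 u10 u11 s : ℕ) : ℕ :=
  act2 g v y0 y1 e0 e1 a0 b0 a1 b1 u00 u01 u10 u11 (Nat.add u00 u10) (Nat.add u01 u11) s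

def chkAct (T2 T3 m0 m1 mb a b c s : ℕ) : ℕ :=
  act1 (Ge a b c) (Vs (ty2 a b c) T2 T3) (YY co T2 T3 a b c false) (YY co T2 T3 a b c true)
    (Vs (ty2 (nx a false) b c) T2 T3) (Vs (ty2 (nx a true) b c) T2 T3)
    (lin (LY (nx a false) b c false) mb (LY (nx a false) b c true) m0)
    (lin (LY (nx a false) b c false) m1 (LY (nx a false) b c true) mb)
    (lin (LY (nx a true) b c false) mb (LY (nx a true) b c true) m0)
    (lin (LY (nx a true) b c false) m1 (LY (nx a true) b c true) mb)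
    (Nat.mul (LY a b c false) mb) (Nat.mul (LY a b c false) m1)
    (Nat.mul (LY a b c true) m0) (Nat.mul (LY a b c true) mb) s

def chkActs (T2 T3 m0 m1 mb : ℕ) (L : List (ℕ × ℕ × ℕ)) : ℕ → Bool :=
  List.rec (motive := fun _ => ℕ → Bool) (fun _ => true) (fun t _ ih s =>
    Prod.rec (fun a u => Prod.rec (fun b c =>
      Nat.rec false (fun s' _ => ih (Nat.succ s')) (chkAct co Ge Vs T2 T3 m0 m1 mb a b c s)) u) t) L

def chkPair (T2 T3 s : ℕ) : Bool :=
  chkActs co Ge Vs T2 T3 (Nat.mul (nat_lit 2) (Nat.mul (l2t T2 false) (l2t T3 false)))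
    (Nat.mul (nat_lit 2) (Nat.mul (l2t T2 true) (l2t T3 true)))
    (Nat.mul (nat_lit 2) (lin (l2t T2 false) (l2t T3 true) (l2t T2 true) (l2t T3 false))) acts s

def chkL (T3 b : ℕ) (L : List ℕ) : ℕ → Bool :=
  List.rec (motive := fun _ => ℕ → Bool) (fun a => Nat.ble b a) (fun s _ ih a =>
    Bool.rec false (ih (Nat.succ a)) (chkPair co Ge Vs a T3 s)) L

def CoOK : Prop := ∀ j < 64, ∀ x < 6, ∀ y < 6, ∀ z < 6, ∃ l, Val (Ge x y z) l ∧ ∀ v,
  sel v l * LY x y z v ≤ if x < 2 then 0 else co j x y z v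

def Rng (T3 a b : ℕ) : Prop :=
  ∀ T2, a ≤ T2 → T2 < b → ∀ x y z, (x, y, z) ∈ acts → PP Ge Vs x y z T2 T3

variable {co Ge Vs}

lemma Rng.trans {T3 a b c} (h1 : Rng Ge Vs T3 a b) (h2 : Rng Ge Vs T3 b c) : Rng Ge Vs T3 a c :=
  fun T ha hc => if h : T < b then h1 T ha h else h2 T (not_lt.1 h) hc

lemma chkAct_sound (hco : CoOK co Ge) {T2 T3 a b c s : ℕ}
    (h : chkAct co Ge Vs T2 T3 (2 * (l2t T2 false * l2t T3 false)) (2 * (l2t T2 true * l2t T3 true))
      (2 * (l2t T2 false * l2t T3 true + l2t T2 true * l2t T3 false)) a b c s ≠ 0) :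
    PP Ge Vs a b c T2 T3 := by
  have hL0 : ∀ a, lin (LY a b c false) (2 * (l2t T2 false * l2t T3 true + l2t T2 true * l2t T3 false))
      (LY a b c true) (2 * (l2t T2 false * l2t T3 false)) = L3 a b c T2 T3 false := fun a => by
    simp only [lin, L3, upN, Nat.add_eq, Nat.mul_eq, Bool.not_false]; ring
  have hL1 : ∀ a, lin (LY a b c false) (2 * (l2t T2 true * l2t T3 true)) (LY a b c true)
      (2 * (l2t T2 false * l2t T3 true + l2t T2 true * l2t T3 false)) = L3 a b c T2 T3 true := fun a => by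
    simp only [lin, L3, upN, Nat.add_eq, Nat.mul_eq, Bool.not_true]; ring
  have h00 : Nat.mul (LY a b c false) (2 * (l2t T2 false * l2t T3 true + l2t T2 true * l2t T3 false)) =
      ux a b c T2 T3 false false := by simp [ux, upN]; ring
  have h01 : Nat.mul (LY a b c false) (2 * (l2t T2 true * l2t T3 true)) =
      ux a b c T2 T3 false true := by simp [ux, upN]; ring
  have h10 : Nat.mul (LY a b c true) (2 * (l2t T2 false * l2t T3 false)) =
      ux a b c T2 T3 true false := by simp [ux, upN]; ring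
  have h11 : Nat.mul (LY a b c true) (2 * (l2t T2 false * l2t T3 true + l2t T2 true * l2t T3 false)) =
      ux a b c T2 T3 true true := by simp [ux, upN]; ring
  have hc0 : Nat.add (ux a b c T2 T3 false false) (ux a b c T2 T3 true false) = L3 a b c T2 T3 false := by
    simp [ux, L3, upN]; ring
  have hc1 : Nat.add (ux a b c T2 T3 false true) (ux a b c T2 T3 true true) = L3 a b c T2 T3 true := by
    simp [ux, L3, upN]; ring
  unfold chkAct act1 act2 act3 at h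
  rw [hL0, hL0, hL1, hL1, h00, h01, h10, h11, hc0, hc1] at h
  intro w0 w1 h0 h1
  have hr : ∀ x y : ℕ, (rhsN (Ge a b c) (Vs (ty2 a b c) T2 T3) (ux a b c T2 T3 false false)
      (ux a b c T2 T3 false true) (ux a b c T2 T3 true false) (ux a b c T2 T3 true true)
      (L3 a b c T2 T3 false) (L3 a b c T2 T3 true) x y : ℝ) ≤ 10000 * (fun w0 w1 : ℝ =>
      mE (Ge a b c) (ux a b c T2 T3 false false * w0 + ux a b c T2 T3 false true * w1)
      (ux a b c T2 T3 true false * w0 + ux a b c T2 T3 true true * w1) + VV Vs a b c T2 T3 w0 w1) x y := by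
    intro x y
    have k1 := minN_le (Ge a b c) (lin (ux a b c T2 T3 false false) x (ux a b c T2 T3 false true) y)
      (lin (ux a b c T2 T3 true false) x (ux a b c T2 T3 true true) y)
    have k2 := minN_le (Vs (ty2 a b c) T2 T3) (Nat.mul (L3 a b c T2 T3 false) x)
      (Nat.mul (L3 a b c T2 T3 true) y)
    simp only [rhsN, VV, lin, Nat.add_eq, Nat.mul_eq] at k1 k2 ⊢
    push_cast at k1 k2 ⊢
    linarith
  have hal : (0 : ℝ) < (Nat.succ (L3 a b c T2 T3 true) : ℕ) := by exact_mod_cast Nat.succ_pos _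
  have hbe : (0 : ℝ) < (Nat.succ (L3 a b c T2 T3 false) : ℕ) := by exact_mod_cast Nat.succ_pos _
  have := ivs_sound (fun w0 w1 : ℝ =>
      mE (Ge a b c) (ux a b c T2 T3 false false * w0 + ux a b c T2 T3 false true * w1)
      (ux a b c T2 T3 true false * w0 + ux a b c T2 T3 true true * w1) + VV Vs a b c T2 T3 w0 w1)
      (fun s t x y x' y' hs ht => by
      have k1 := mE_cone (Ge a b c) hs ht
        (ux a b c T2 T3 false false * x + ux a b c T2 T3 false true * y)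
        (ux a b c T2 T3 true false * x + ux a b c T2 T3 true true * y)
        (ux a b c T2 T3 false false * x' + ux a b c T2 T3 false true * y')
        (ux a b c T2 T3 true false * x' + ux a b c T2 T3 true true * y')
      have k2 := mE_cone (Vs (ty2 a b c) T2 T3) hs ht (L3 a b c T2 T3 false * x)
        (L3 a b c T2 T3 true * y) (L3 a b c T2 T3 false * x') (L3 a b c T2 T3 true * y')
      have e1 : ∀ u v : ℝ, s * (u * x + v * y) + t * (u * x' + v * y') =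
        u * (s * x + t * x') + v * (s * y + t * y') := fun u v => by ring
      have e2 : ∀ u x x' : ℝ, s * (u * x) + t * (u * x') = u * (s * x + t * x') := fun u x x' => by ring
      simp only [e1, e2] at k1 k2
      simp only [VV]; linarith) _ hr _ _ _ _ _ _ _ _ _ _ _ 0 _ _
      (by rw [Nat.zero_mul]; exact hr _ _) h (w0 / _) (w1 / (Nat.succ (L3 a b c T2 T3 false) : ℕ))
      (div_nonneg h0 hal.le)
      (by have := div_nonneg h1 hbe.le; push_cast at this ⊢; linarith)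
  rw [div_mul_cancel₀ _ hal.ne', div_mul_cancel₀ _ hbe.ne'] at this
  obtain ⟨j, hj, hI⟩ := this
  have hv : ∀ x y z, ∃ l, x < 6 → y < 6 → z < 6 → Val (Ge x y z) l ∧ ∀ v,
      sel v l * LY x y z v ≤ if x < 2 then 0 else co j x y z v := by
    intro x y z
    by_cases hh : x < 6 ∧ y < 6 ∧ z < 6
    · obtain ⟨l, hl⟩ := hco j hj x hh.1 y hh.2.1 z hh.2.2
      exact ⟨l, fun _ _ _ => hl⟩
    · exact ⟨(0, 0), fun h1 h2 h3 => absurd ⟨h1, h2, h3⟩ hh⟩
  choose ℓ hl using hv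
  refine ⟨ℓ, fun x hx y hy z hz => (hl x y z hx hy hz).1, ?_⟩
  have hY : ∀ v, YS ℓ a b c T2 T3 v ≤ YY co T2 T3 a b c v j := by
    intro v
    have e1 : YY co T2 T3 a b c v j = ∑ x ∈ range 6, ∑ y ∈ range 6, ∑ z ∈ range 6,
        adT a b c x * (Dt T2 y * (Dt T3 z * if x < 2 then 0 else co j x y z v)) := by
      have : YY co T2 T3 a b c v j = zm (adT a b c 2) (HH co T2 T3 j 2 v) +
        zm (adT a b c 3) (HH co T2 T3 j 3 v) + (zm (adT a b c 4) (HH co T2 T3 j 4 v) +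
        zm (adT a b c 5) (HH co T2 T3 j 5 v)) := rfl
      rw [this, sum_range_succ, sum_range_succ, sum_range_succ, sum_range_succ, sum_range_succ,
        sum_range_succ]
      simp only [zm_eq, HH, S3f, sum6_eq, mul_sum]
      simp
      ring
    rw [e1]
    refine sum_le_sum fun x hx => sum_le_sum fun y hy => sum_le_sum fun z hz => ?_
    have := (hl x y z (mem_range.1 hx) (mem_range.1 hy) (mem_range.1 hz)).2 v
    gcongr
  have y0 : (YS ℓ a b c T2 T3 false : ℝ) * w0 ≤ YY co T2 T3 a b c false j * w0 :=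
    mul_le_mul_of_nonneg_right (by exact_mod_cast hY false) h0
  have y1 : (YS ℓ a b c T2 T3 true : ℝ) * w1 ≤ YY co T2 T3 a b c true j * w1 :=
    mul_le_mul_of_nonneg_right (by exact_mod_cast hY true) h1
  simp only [VV] at hI ⊢
  linarith

lemma chkActs_sound (hco : CoOK co Ge) {T2 T3 : ℕ} : ∀ (L : List (ℕ × ℕ × ℕ)) (s : ℕ),
    chkActs co Ge Vs T2 T3 (2 * (l2t T2 false * l2t T3 false)) (2 * (l2t T2 true * l2t T3 true))
      (2 * (l2t T2 false * l2t T3 true + l2t T2 true * l2t T3 false)) L s = true →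
    ∀ x y z, (x, y, z) ∈ L → PP Ge Vs x y z T2 T3
  | [], _, _, _, _, _, h => by simp at h
  | (a, b, c) :: L, s, h, x, y, z, hm => by
    have e1 : ∀ m0 m1 mb, chkActs co Ge Vs T2 T3 m0 m1 mb ((a, b, c) :: L) s = Nat.rec false
      (fun s' _ => chkActs co Ge Vs T2 T3 m0 m1 mb L (Nat.succ s'))
      (chkAct co Ge Vs T2 T3 m0 m1 mb a b c s) := fun _ _ _ => rfl
    rw [e1] at h
    have h1 := chkAct_sound (Vs := Vs) (T2 := T2) (T3 := T3) (a := a) (b := b) (c := c) (s := s) hco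
    generalize chkAct co Ge Vs T2 T3 _ _ _ a b c s = n at h h1
    cases n with
    | zero => exact absurd h (by simp)
    | succ n =>
      rcases List.mem_cons.1 hm with hm | hm
      · obtain ⟨rfl, rfl, rfl⟩ : x = a ∧ y = b ∧ z = c := by simpa using hm
        exact h1 (Nat.succ_ne_zero n)
      · exact chkActs_sound hco L _ h x y z hm

lemma chkL_sound (hco : CoOK co Ge) (T3 b : ℕ) : ∀ (L : List ℕ) (a : ℕ),
    chkL co Ge Vs T3 b L a = true → Rng Ge Vs T3 a b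
  | [], a, h => fun T h1 h2 => by
    have : b ≤ a := Nat.le_of_ble_eq_true h
    omega
  | s :: L, a, h => by
    have e1 : chkL co Ge Vs T3 b (s :: L) a =
      Bool.rec false (chkL co Ge Vs T3 b L (Nat.succ a)) (chkPair co Ge Vs a T3 s) := rfl
    rw [e1] at h
    cases h1 : chkPair co Ge Vs a T3 s
    · rw [h1] at h; exact absurd h (by simp)
    · rw [h1] at h
      intro T h2 h3
      rcases h2.eq_or_lt with rfl | h2
      · exact chkActs_sound hco acts s h1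
      · exact chkL_sound hco T3 b L _ h T h2 h3

end chk

end

end Pool.Agent.Lib.MP_099303_lc
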