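import Mathlib

namespace Pool.Agent.Lib.MP_099303_lc

open scoped ENNReal

/-- majority of three bits -/
def maj (a b c : Bool) : Bool := (a && b) || (a && c) || (b && c)

/-- coordinate `i` of the `j`-th of three consecutive blocks of length `3 ^ k` -/
def blk (k : ℕ) (j : Fin 3) (i : Fin (3 ^ k)) : Fin (3 ^ (k + 1)) :=
  ⟨3 ^ k * j + i, by
    have h1 := i.2
    have h2 : 3 ^ k * (j : ℕ) ≤ 3 ^ k * 2 := Nat.mul_le_mul_left _ (by omega)
    rw [pow_succ]; omega⟩

/-- iterated 3-majority of depth `k` -/
def iterMaj : (k : ℕ) → (Fin (3 ^ k) → Bool) → Bool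
  | 0, x => x 0
  | k + 1, x => maj (iterMaj k fun i => x (blk k 0 i)) (iterMaj k fun i => x (blk k 1 i))
      (iterMaj k fun i => x (blk k 2 i))

/-- deterministic query algorithms (decision trees): halt, or query a bit and branch on it -/
inductive DT (ι : Type)
  | halt : DT ι
  | query : ι → DT ι → DT ι → DT ι

/-- the list of queries made on input `x` -/
def DT.queried {ι : Type} : DT ι → (ι → Bool) → List ι
  | .halt, _ => []
  | .query i t0 t1, x => i :: bif x i then t1.queried x else t0.queried x

/-- on every input, the queried bits determine the value of `f` -/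
def DT.Computes {ι : Type} (T : DT ι) (f : (ι → Bool) → Bool) : Prop :=
  ∀ x y : ι → Bool, (∀ i ∈ T.queried x, y i = x i) → f y = f x

/-- zero-error randomized query complexity: least worst-case expected number of queries over
probability distributions on deterministic algorithms for `f` -/
noncomputable def R {ι : Type} (f : (ι → Bool) → Bool) : ℝ≥0∞ :=
  ⨅ (A : PMF (DT ι)) (_ : ∀ T ∈ A.support, T.Computes f),
    ⨆ x : ι → Bool, ∑' T, A T * ((T.queried x).length : ℝ≥0∞)

/-- the growth rate `c*` -/
noncomputable def cStar : ℝ :=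
  sInf {c : ℝ | 0 < c ∧ ∀ᶠ k in Filter.atTop, R (iterMaj k) ≤ ENNReal.ofReal (c ^ k)}

end Pool.Agent.Lib.MP_099303_lc
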