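import Pool.Agent.Lib.MP_099303_lc.Step

namespace Pool.Agent.Lib.MP_099303_lc

open Function Finset
open scoped ENNReal

def B : ℕ → Type
  | 0 => Unit
  | k + 1 => B k × Fin 3

instance instFintypeB : ∀ k, Fintype (B k)
  | 0 => inferInstanceAs (Fintype Unit)
  | k + 1 => letI := instFintypeB k; inferInstanceAs (Fintype (B k × Fin 3))

instance instDecEqB : ∀ k, DecidableEq (B k)
  | 0 => inferInstanceAs (DecidableEq Unit)
  | k + 1 => letI := instDecEqB k; inferInstanceAs (DecidableEq (B k × Fin 3))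

def F : ∀ k, (B k → Bool) → Bool
  | 0, x => x ()
  | k + 1, z => F k (majs (I := B k) z)

def mu : ∀ k, (B k → Bool) → ℝ
  | 0, _ => 1
  | k + 1, z => lift (I := B k) (mu k) z

lemma mu_nonneg : ∀ k z, 0 ≤ mu k z
  | 0, _ => zero_le_one
  | k + 1, z => lift_nonneg (mu_nonneg k) z

def N (k : ℕ) : ℝ := M (mu k) fun _ => l2 fun _ _ => none

lemma N_succ (k : ℕ) : N (k + 1) = ∑ _r : (B k × Fin 3) × Fin 3 → Rn, N k := by
  have h := M_sum (mu k) (fun _ (r : Rb) b => cnb r (fun _ _ _ => none) *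
    l2 (resb r (fun _ _ _ => none)) b)
  simp only [sum_cn3] at h
  rw [← curryR.sum_comp]
  refine (M_lift (I := B k) (mu k) _).trans (h.symm.trans (sum_congr rfl fun r _ => ?_))
  unfold N
  congr 1
  funext i b
  simp [cnb, cn]
  rfl

lemma N_pos : ∀ k, 0 < N k
  | 0 => by
    have : N 0 = ∑ z : Unit → Bool, 1 * ∏ i : Unit, l2 (fun _ _ => none) (z i) := rfl
    rw [this]
    exact sum_pos (fun z _ => by simp [l2, l1, up]; norm_num) univ_nonempty
  | k + 1 => by
    rw [N_succ]
    exact sum_pos (fun _ _ => N_pos k) univ_nonempty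

lemma M_cut {ι : Type} [Fintype ι] [DecidableEq ι] (μ : (ι → Bool) → ℝ) (φ : ι → Bool → ℝ) (i) :
    M μ (update φ i (cut false (φ i))) + M μ (update φ i (cut true (φ i))) = M μ φ := by
  have := M_update μ φ i (φ i)
  rw [update_eq_self] at this
  simp [M_update, cut, this]

lemma M_cut_nonneg {ι : Type} [Fintype ι] [DecidableEq ι] {μ : (ι → Bool) → ℝ}
    (hμ : ∀ z, 0 ≤ μ z) {φ : ι → Bool → ℝ} (hφ : ∀ i b, 0 ≤ φ i b) (i a) :
    0 ≤ M μ (update φ i (cut a (φ i))) :=
  M_nonneg hμ (update_nonneg hφ i (cut_nonneg (hφ i) a))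

variable {lam : ℝ} (C : Cert lam)

lemma lower (hlam : 0 ≤ lam) : ∀ (k : ℕ) (T : DT ((B k × Fin 3) × Fin 3)),
    T.Computes (F (k + 2)) → C.g0 * lam ^ k * N k ≤ Cst (gam C (mu k)) T (fun _ => none)
  | 0, .halt, h => by
    have := h (fun _ => false) (fun _ => true) (by simp [DT.queried])
    exact absurd this (by decide)
  | 0, .query q t0 t1, _ => by
    rw [Cst_none _ rfl]
    have hg : ∀ ρ q, 0 ≤ gam C (mu 0) ρ q := fun ρ q => C.G_nonneg _ _ _ _ _
      (M_cut_nonneg (mu_nonneg 0) (fun _ _ => l2_nonneg _ _) _ _)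
      (M_cut_nonneg (mu_nonneg 0) (fun _ _ => l2_nonneg _ _) _ _)
    have h1 := Cst_nonneg _ hg t0 (update (fun _ => none) q (some false))
    have h2 := Cst_nonneg _ hg t1 (update (fun _ => none) q (some true))
    have h3 := C.G_ge q.1.2 q.2 _ _
      (M_cut_nonneg (mu_nonneg 0) (φ := fun _ => l2 fun _ _ => none)
        (fun _ _ => l2_nonneg _ _) q.1.1 false)
      (M_cut_nonneg (mu_nonneg 0) (φ := fun _ => l2 fun _ _ => none)
        (fun _ _ => l2_nonneg _ _) q.1.1 true)
    rw [M_cut] at h3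
    have h4 : C.g0 * N 0 ≤ gam C (mu 0) (fun _ => none) q := h3
    simp only [pow_zero, mul_one]
    linarith
  | k + 1, T, h => by
    refine le_trans ?_ (step C hlam (mu_nonneg k) T)
    rw [N_succ, pow_succ, show C.g0 * (lam ^ k * lam) = lam * (C.g0 * lam ^ k) by ring, mul_assoc,
      mul_sum]
    exact mul_le_mul_of_nonneg_left (sum_le_sum fun r _ =>
      lower hlam k _ (sim_computes r (F := F (k + 2)) h)) hlam

lemma g1_pos : 0 < C.g1 := by
  have h1 := C.G_ge 0 0 1 0 zero_le_one le_rfl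
  have h2 := C.G_le (fun _ _ => none) 0 0 1 0 zero_le_one le_rfl
  have := C.g0_pos
  linarith

lemma mass_eq (k : ℕ) (ρ : St ((B k × Fin 3) × Fin 3)) :
    M (mu (k + 2)) (fun i b => l0 b (ρ i)) = M (mu k) fun i => l2 (b2 ρ i) :=
  (M_lift (I := B k × Fin 3) (mu (k + 1)) _).trans (M_lift (I := B k) (mu k) _)

lemma lower_count (hlam : 0 ≤ lam) (k : ℕ) (T : DT (B (k + 2))) (h : T.Computes (F (k + 2))) :
    C.g0 / C.g1 * lam ^ k * N k ≤ ∑ x, mu (k + 2) x * (T.queried x).length := by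
  have h1 := lower C hlam k T h
  have hg := g1_pos C
  have h2 := potential (fun ρ _ => M (mu (k + 2)) fun i b => l0 b (ρ i)) (gam C (mu k))
    (fun _ => 0) (1 / C.g1) (by simp) (fun ρ q _ => by
      have := C.G_le (b2 ρ q.1.1) q.1.2 q.2 _ _
        (M_cut_nonneg (mu_nonneg k) (φ := fun i => l2 (b2 ρ i))
          (fun _ _ => l2_nonneg _ _) q.1.1 false)
        (M_cut_nonneg (mu_nonneg k) (φ := fun i => l2 (b2 ρ i))
          (fun _ _ => l2_nonneg _ _) q.1.1 true)
      rw [M_cut, ← mass_eq] at this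
      simp only [add_zero]
      rw [one_div, inv_mul_le_iff₀ hg]
      exact this) T (fun _ => none)
  have h3 := count (mu (k + 2)) (mu_nonneg _) T (fun _ => none)
  simp only [l0_none, prod_const_one, mul_one, add_zero] at h2 h3
  refine le_trans ?_ (h2.trans h3)
  rw [show C.g0 / C.g1 * lam ^ k * N k = 1 / C.g1 * (C.g0 * lam ^ k * N k) by ring]
  exact mul_le_mul_of_nonneg_left h1 (by positivity)

lemma sum_mu (k : ℕ) : ∑ x, mu (k + 2) x = N k := by
  have := mass_eq k (fun _ => none)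
  simp only [l0_none] at this
  rw [M] at this
  simp only [prod_const_one, mul_one] at this
  exact this

def DT.map {ι κ : Type} (g : ι → κ) : DT ι → DT κ
  | .halt => .halt
  | .query i t0 t1 => .query (g i) (t0.map g) (t1.map g)

lemma queried_map {ι κ : Type} (g : ι → κ) (T : DT ι) (x : κ → Bool) :
    (T.map g).queried x = (T.queried (x ∘ g)).map g := by
  induction T with
  | halt => rfl
  | query i t0 t1 ih0 ih1 => cases h : x (g i) <;> simp [DT.map, DT.queried, h, ih0, ih1]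

def bt (k : ℕ) : Fin (3 ^ k) × Fin 3 ≃ Fin (3 ^ (k + 1)) := finProdFinEquiv

lemma bt_val (k p c) : (bt k (p, c) : ℕ) = c + 3 * p := rfl

lemma iterMaj_bot : ∀ (k : ℕ) (x : Fin (3 ^ (k + 1)) → Bool), iterMaj (k + 1) x =
    iterMaj k fun p => maj (x (bt k (p, 0))) (x (bt k (p, 1))) (x (bt k (p, 2)))
  | 0, x => rfl
  | k + 1, x => by
    have e : ∀ j p c, blk (k + 1) j (bt k (p, c)) = bt (k + 1) (blk k j p, c) := by
      intro j p c
      apply Fin.ext
      rw [bt_val]
      simp only [blk, bt_val]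
      ring
    rw [iterMaj, iterMaj_bot k, iterMaj_bot k, iterMaj_bot k]
    simp only [e]
    rfl

def eB : ∀ k, B k ≃ Fin (3 ^ k)
  | 0 => Equiv.ofUnique Unit (Fin 1)
  | k + 1 => ((eB k).prodCongr (Equiv.refl (Fin 3))).trans (bt k)

lemma iterMaj_eq : ∀ (k : ℕ) (x : Fin (3 ^ k) → Bool), iterMaj k x = F k (x ∘ eB k)
  | 0, _ => rfl
  | k + 1, x => by rw [iterMaj_bot, iterMaj_eq k]; rfl

lemma R_ge {ι : Type} [Fintype ι] [DecidableEq ι] (f : (ι → Bool) → Bool) (ν : (ι → Bool) → ℝ)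
    (hν : ∀ x, 0 ≤ ν x) (hN : 0 < ∑ x, ν x) (β : ℝ) (hβ : 0 ≤ β)
    (h : ∀ T : DT ι, T.Computes f → β * ∑ x, ν x ≤ ∑ x, ν x * (T.queried x).length) :
    ENNReal.ofReal β ≤ R f := by
  refine le_iInf₂ fun A hA => ?_
  set s := ⨆ x : ι → Bool, ∑' T, A T * ((T.queried x).length : ℝ≥0∞)
  have h1 : ∑ x, ENNReal.ofReal (ν x) * ∑' T, A T * ((T.queried x).length : ℝ≥0∞) ≤
      ENNReal.ofReal (∑ x, ν x) * s := by
    rw [ENNReal.ofReal_sum_of_nonneg (fun x _ => hν x), sum_mul]
    exact sum_le_sum fun x _ => mul_le_mul_right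
      (le_iSup (fun x => ∑' T, A T * ((T.queried x).length : ℝ≥0∞)) x) _
  have h2 : ENNReal.ofReal (∑ x, ν x) * ENNReal.ofReal β ≤
      ∑ x, ENNReal.ofReal (ν x) * ∑' T, A T * ((T.queried x).length : ℝ≥0∞) := by
    simp only [← ENNReal.tsum_mul_left]
    rw [← Summable.tsum_finsetSum (fun _ _ => ENNReal.summable), ← one_mul (_ * _),
      ← A.tsum_coe, ← ENNReal.tsum_mul_right]
    refine ENNReal.tsum_le_tsum fun T => ?_
    by_cases hT : T ∈ A.support
    · have := ENNReal.ofReal_le_ofReal (h T (hA T hT))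
      rw [ENNReal.ofReal_mul hβ, ENNReal.ofReal_sum_of_nonneg (s := univ)
        (f := fun x => ν x * (T.queried x).length) (fun x _ => mul_nonneg (hν x) (by positivity))]
        at this
      rw [mul_comm _ (ENNReal.ofReal β)]
      refine (mul_le_mul_right this _).trans (le_of_eq ?_)
      rw [mul_sum]
      refine sum_congr rfl fun x _ => ?_
      rw [ENNReal.ofReal_mul (hν x), ENNReal.ofReal_natCast]
      ring
    · rw [PMF.mem_support_iff, not_not] at hT
      simp [hT]
  exact (ENNReal.mul_le_mul_iff_right (by simpa using hN) ENNReal.ofReal_ne_top).mp (h2.trans h1)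

theorem R_iterMaj_ge (hlam : 0 ≤ lam) (k : ℕ) :
    ENNReal.ofReal (C.g0 / C.g1 * lam ^ k) ≤ R (iterMaj (k + 2)) := by
  let e : (Fin (3 ^ (k + 2)) → Bool) ≃ (B (k + 2) → Bool) := (eB (k + 2)).symm.arrowCongr
    (Equiv.refl Bool)
  have he : ∀ x, e x = x ∘ eB (k + 2) := fun x => rfl
  have hs : ∑ x, mu (k + 2) (e x) = N k := by rw [e.sum_comp, sum_mu]
  have hg := g1_pos C
  have hg0 := C.g0_pos
  refine R_ge _ (fun x => mu (k + 2) (e x)) (fun x => mu_nonneg _ _) (hs ▸ N_pos k) _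
    (by positivity) fun T hT => ?_
  have h1 : (T.map (eB (k + 2)).symm).Computes (F (k + 2)) := by
    intro x y hxy
    have := hT (x ∘ (eB (k + 2)).symm) (y ∘ (eB (k + 2)).symm) fun i hi =>
      hxy _ (by rw [queried_map]; exact List.mem_map_of_mem hi)
    simpa [iterMaj_eq, Function.comp_assoc] using this
  have h2 := lower_count C hlam k _ h1
  rw [hs]
  refine h2.trans (le_of_eq ?_)
  rw [← e.sum_comp]
  refine sum_congr rfl fun x _ => ?_
  rw [queried_map, List.length_map, he]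
  simp [Function.comp_assoc]

def full {ι : Type} : List ι → DT ι
  | [] => .halt
  | i :: l => .query i (full l) (full l)

lemma queried_full {ι : Type} (l : List ι) (x : ι → Bool) : (full l).queried x = l := by
  induction l with
  | nil => rfl
  | cons i l ih => simp [full, DT.queried, ih]

lemma R_le (k : ℕ) : R (iterMaj k) ≤ ENNReal.ofReal (3 ^ k) := by
  refine (iInf₂_le (PMF.pure (full (List.finRange (3 ^ k)))) ?_).trans (iSup_le fun x => ?_)
  · intro T hT x y h
    rw [PMF.support_pure, Set.mem_singleton_iff] at hT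
    subst hT
    rw [queried_full] at h
    rw [show y = x from funext fun i => h i (List.mem_finRange i)]
  · rw [tsum_eq_single (full (List.finRange (3 ^ k)))]
    · simp [queried_full, ENNReal.ofReal_pow]
    · intro T hT; simp [PMF.pure_apply, hT]

include C in
theorem le_cStar (hlam : 0 ≤ lam) : lam ≤ cStar := by
  refine le_csInf ⟨3, by norm_num, Filter.Eventually.of_forall R_le⟩ ?_
  rintro c ⟨hc, h⟩
  by_contra hlt
  rw [not_le] at hlt
  have hg := g1_pos C
  have hg0 := C.g0_pos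
  have h1 : Filter.Tendsto (fun k : ℕ => (lam / c) ^ k) Filter.atTop Filter.atTop :=
    tendsto_pow_atTop_atTop_of_one_lt ((one_lt_div hc).mpr hlt)
  obtain ⟨K, hK⟩ := Filter.eventually_atTop.mp h
  obtain ⟨k, hk1, hk2⟩ := ((h1.eventually_gt_atTop (c ^ 2 / (C.g0 / C.g1))).and
    (Filter.eventually_ge_atTop K)).exists
  have h2 := (R_iterMaj_ge C hlam k).trans (hK (k + 2) (by omega))
  rw [ENNReal.ofReal_le_ofReal_iff (by positivity)] at h2
  rw [div_pow, div_lt_div_iff₀ (by positivity) (by positivity)] at hk1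
  rw [pow_add] at h2
  linarith

end Pool.Agent.Lib.MP_099303_lc
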