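import Pool.Agent.Lib.MP_099303_lc.Defs

namespace Pool.Agent.Lib.MP_099303_lc

open Function Finset

abbrev St (ι : Type) := ι → Option Bool

def l0 (b : Bool) (o : Option Bool) : ℝ := if o = some (!b) then 0 else 1

lemma l0_nonneg (b o) : 0 ≤ l0 b o := by unfold l0; split_ifs <;> norm_num

@[simp] lemma l0_none (b) : l0 b none = 1 := by simp [l0]

lemma l0_some (b y) : l0 b (some y) = if b = y then 1 else 0 := by
  cases b <;> cases y <;> simp [l0]

section cst

variable {ι : Type} [DecidableEq ι]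

def Cst (γ : St ι → ι → ℝ) : DT ι → St ι → ℝ
  | .halt, _ => 0
  | .query i t0 t1, ρ => match ρ i with
      | some false => Cst γ t0 ρ
      | some true => Cst γ t1 ρ
      | none => γ ρ i + Cst γ t0 (update ρ i (some false)) + Cst γ t1 (update ρ i (some true))

lemma Cst_none (γ : St ι → ι → ℝ) {i t0 t1} {ρ : St ι} (h : ρ i = none) :
    Cst γ (.query i t0 t1) ρ =
      γ ρ i + Cst γ t0 (update ρ i (some false)) + Cst γ t1 (update ρ i (some true)) := by
  simp [Cst, h]

lemma Cst_false (γ : St ι → ι → ℝ) {i t0 t1} {ρ : St ι} (h : ρ i = some false) :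
    Cst γ (.query i t0 t1) ρ = Cst γ t0 ρ := by simp [Cst, h]

lemma Cst_true (γ : St ι → ι → ℝ) {i t0 t1} {ρ : St ι} (h : ρ i = some true) :
    Cst γ (.query i t0 t1) ρ = Cst γ t1 ρ := by simp [Cst, h]

lemma potential (γ γ' : St ι → ι → ℝ) (Ψ : St ι → ℝ) (lam : ℝ) (h0 : ∀ ρ, 0 ≤ Ψ ρ)
    (h : ∀ ρ i, ρ i = none → lam * γ' ρ i + Ψ (update ρ i (some false)) +
      Ψ (update ρ i (some true)) ≤ γ ρ i + Ψ ρ) (T : DT ι) :
    ∀ ρ, lam * Cst γ' T ρ ≤ Cst γ T ρ + Ψ ρ := by
  induction T with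
  | halt => intro ρ; simpa [Cst] using h0 ρ
  | query i t0 t1 ih0 ih1 =>
    intro ρ
    rcases hi : ρ i with _ | _ | _
    · rw [Cst_none _ hi, Cst_none _ hi]
      have := h ρ i hi
      have := ih0 (update ρ i (some false))
      have := ih1 (update ρ i (some true))
      linarith
    · rw [Cst_false _ hi, Cst_false _ hi]; exact ih0 ρ
    · rw [Cst_true _ hi, Cst_true _ hi]; exact ih1 ρ

lemma Cst_nonneg (γ : St ι → ι → ℝ) (h : ∀ ρ i, 0 ≤ γ ρ i) (T : DT ι) (ρ) : 0 ≤ Cst γ T ρ := by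
  have := potential γ γ (fun _ => 0) 0 (by simp) (by simpa using fun ρ i _ => h ρ i) T ρ
  simpa using this

variable [Fintype ι]

lemma prod_update_none {f : ι → Option Bool → ℝ} {ρ : St ι} {i : ι} (h : ρ i = none)
    (h1 : f i none = 1) (o) :
    ∏ j, f j (update ρ i o j) = f i o * ∏ j, f j (ρ j) := by
  rw [← mul_prod_erase _ _ (mem_univ i), ← mul_prod_erase _ (fun j => f j (ρ j)) (mem_univ i),
    h, h1, update_self, one_mul]
  congr 1
  exact prod_congr rfl fun j hj => by rw [update_of_ne (ne_of_mem_erase hj)]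

def M (μ : (ι → Bool) → ℝ) (φ : ι → Bool → ℝ) : ℝ := ∑ z, μ z * ∏ i, φ i (z i)

lemma count (ν : (ι → Bool) → ℝ) (hν : ∀ x, 0 ≤ ν x) (T : DT ι) : ∀ ρ : St ι,
    Cst (fun ρ _ => M ν fun i b => l0 b (ρ i)) T ρ ≤
      ∑ x, ν x * (∏ i, l0 (x i) (ρ i)) * (T.queried x).length := by
  have hp : ∀ (x : ι → Bool) (ρ : St ι), 0 ≤ ν x * ∏ i, l0 (x i) (ρ i) := fun x ρ =>
    mul_nonneg (hν x) (prod_nonneg fun i _ => l0_nonneg _ _)
  induction T with
  | halt => intro ρ; simp [Cst, DT.queried]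
  | query i t0 t1 ih0 ih1 =>
    intro ρ
    have hz : ∀ (x : ι → Bool) y, ρ i = some y → x i ≠ y → ∏ i, l0 (x i) (ρ i) = 0 :=
      fun x y h1 h2 => prod_eq_zero (mem_univ i) (by rw [h1, l0_some, if_neg h2])
    rcases hi : ρ i with _ | _ | _
    · rw [Cst_none _ hi]
      refine (add_le_add (add_le_add le_rfl (ih0 _)) (ih1 _)).trans (le_of_eq ?_)
      rw [M, ← sum_add_distrib, ← sum_add_distrib]
      refine sum_congr rfl fun x _ => ?_
      rw [prod_update_none (f := fun j o => l0 (x j) o) hi (by simp),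
        prod_update_none (f := fun j o => l0 (x j) o) hi (by simp)]
      cases hx : x i <;> simp [DT.queried, hx, l0_some] <;> ring
    · rw [Cst_false _ hi]
      refine (ih0 ρ).trans (sum_le_sum fun x _ => ?_)
      cases hx : x i
      · exact mul_le_mul_of_nonneg_left (by simp [DT.queried, hx]) (hp x ρ)
      · simp [hz x _ hi (by simp [hx])]
    · rw [Cst_true _ hi]
      refine (ih1 ρ).trans (sum_le_sum fun x _ => ?_)
      cases hx : x i
      · simp [hz x _ hi (by simp [hx])]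
      · exact mul_le_mul_of_nonneg_left (by simp [DT.queried, hx]) (hp x ρ)

def cut (b : Bool) (ψ : Bool → ℝ) : Bool → ℝ := fun b' => if b' = b then ψ b' else 0

def Wt (μ : (ι → Bool) → ℝ) (φ : ι → Bool → ℝ) (i : ι) (a : Bool) : ℝ :=
  M μ (update φ i (cut a fun _ => 1))

lemma prod_update_eq (φ : ι → Bool → ℝ) (i : ι) (ψ : Bool → ℝ) (z : ι → Bool) :
    ∏ j, update φ i ψ j (z j) = ψ (z i) * ∏ j ∈ univ.erase i, φ j (z j) := by
  rw [← mul_prod_erase _ _ (mem_univ i), update_self]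
  congr 1
  exact prod_congr rfl fun j hj => by rw [update_of_ne (ne_of_mem_erase hj)]

lemma M_update (μ : (ι → Bool) → ℝ) (φ : ι → Bool → ℝ) (i : ι) (ψ : Bool → ℝ) :
    M μ (update φ i ψ) = ψ false * Wt μ φ i false + ψ true * Wt μ φ i true := by
  simp only [Wt, M, prod_update_eq, mul_sum, ← sum_add_distrib]
  refine sum_congr rfl fun z _ => ?_
  cases z i <;> simp [cut] <;> ring

lemma Wt_update_self (μ : (ι → Bool) → ℝ) (φ : ι → Bool → ℝ) (i : ι) (ψ : Bool → ℝ) (a) :
    Wt μ (update φ i ψ) i a = Wt μ φ i a := by simp [Wt]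

lemma Wt_add (μ : (ι → Bool) → ℝ) (φ : ι → Bool → ℝ) {i j : ι} (h : j ≠ i) (ψ ψ' : Bool → ℝ)
    (hψ : ∀ b, φ i b = ψ b + ψ' b) (a) :
    Wt μ φ j a = Wt μ (update φ i ψ) j a + Wt μ (update φ i ψ') j a := by
  have e : φ = update φ i (φ i) := by simp
  conv_lhs => rw [e]
  unfold Wt
  rw [update_comm h.symm, update_comm h.symm, update_comm h.symm, M_update, M_update, M_update,
    hψ, hψ]
  ring

lemma M_nonneg {μ : (ι → Bool) → ℝ} (hμ : ∀ z, 0 ≤ μ z) {φ : ι → Bool → ℝ}
    (hφ : ∀ i b, 0 ≤ φ i b) : 0 ≤ M μ φ :=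
  sum_nonneg fun z _ => mul_nonneg (hμ z) (prod_nonneg fun i _ => hφ i _)

omit [Fintype ι] in
lemma update_nonneg {φ : ι → Bool → ℝ} (hφ : ∀ i b, 0 ≤ φ i b) (i : ι) {ψ : Bool → ℝ}
    (hψ : ∀ b, 0 ≤ ψ b) (j b) : 0 ≤ update φ i ψ j b := by
  by_cases h : j = i
  · subst h; simpa using hψ b
  · rw [update_of_ne h]; exact hφ j b

lemma cut_nonneg {ψ : Bool → ℝ} (hψ : ∀ b, 0 ≤ ψ b) (a b) : 0 ≤ cut a ψ b := by
  unfold cut; split_ifs; exacts [hψ b, le_rfl]

lemma Wt_nonneg {μ : (ι → Bool) → ℝ} (hμ : ∀ z, 0 ≤ μ z) {φ : ι → Bool → ℝ}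
    (hφ : ∀ i b, 0 ≤ φ i b) (i a) : 0 ≤ Wt μ φ i a :=
  M_nonneg hμ (update_nonneg hφ i (cut_nonneg (fun _ => zero_le_one) a))

lemma M_sum {ρ : Type} [Fintype ρ] (μ : (ι → Bool) → ℝ) (ψ : ι → ρ → Bool → ℝ) :
    ∑ r : ι → ρ, M μ (fun i => ψ i (r i)) = M μ (fun i b => ∑ r, ψ i r b) := by
  simp only [M]
  rw [sum_comm]
  refine sum_congr rfl fun z _ => ?_
  rw [← mul_sum, prod_univ_sum, Fintype.piFinset_univ]

lemma M_smul (μ : (ι → Bool) → ℝ) (φ : ι → Bool → ℝ) (s : ι → ℝ) :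
    (∏ i, s i) * M μ φ = M μ (fun i b => s i * φ i b) := by
  simp only [M, mul_sum, prod_mul_distrib]
  exact sum_congr rfl fun z _ => by ring

end cst

lemma sum_fin3 {α : Type} [Fintype α] (F : (Fin 3 → α) → ℝ) :
    ∑ t, F t = ∑ a, ∑ b, ∑ c, F ![a, b, c] := by
  let e : α × α × α ≃ (Fin 3 → α) :=
    { toFun := fun p => ![p.1, p.2.1, p.2.2]
      invFun := fun t => (t 0, t 1, t 2)
      left_inv := fun p => rfl
      right_inv := fun t => by funext i; fin_cases i <;> rfl }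
  rw [← e.sum_comp, Fintype.sum_prod_type]
  simp only [Fintype.sum_prod_type]
  rfl

def up (φ : Fin 3 → Bool → ℝ) (a : Bool) : ℝ :=
  2 * (φ 0 (!a) * φ 1 a * φ 2 a + φ 0 a * φ 1 (!a) * φ 2 a + φ 0 a * φ 1 a * φ 2 (!a))

lemma up_nonneg {φ : Fin 3 → Bool → ℝ} (h : ∀ c b, 0 ≤ φ c b) (a) : 0 ≤ up φ a := by
  unfold up
  have := h 0; have := h 1; have := h 2
  have h3 : ∀ x y z, 0 ≤ φ 0 x * φ 1 y * φ 2 z := fun x y z =>
    mul_nonneg (mul_nonneg (h _ _) (h _ _)) (h _ _)
  have := h3 (!a) a a; have := h3 a (!a) a; have := h3 a a (!a)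
  linarith

lemma sum3_mul {α : Type} [Fintype α] (f g h : α → ℝ) :
    ∑ a, ∑ b, ∑ c, f a * g b * h c = (∑ a, f a) * (∑ a, g a) * ∑ a, h a := by
  simp only [← mul_sum, ← sum_mul]

lemma up_sum {α : Type} [Fintype α] (h : Fin 3 → α → ℝ) (φ : Fin 3 → α → Bool → ℝ) (a) :
    ∑ r : Fin 3 → α, (∏ c, h c (r c)) * up (fun c => φ c (r c)) a =
      up (fun c b => ∑ r, h c r * φ c r b) a := by
  rw [sum_fin3]
  simp only [up, ← sum3_mul]
  simp only [mul_sum, ← sum_add_distrib, Fin.prod_univ_three]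
  refine sum_congr rfl fun x _ => sum_congr rfl fun y _ => sum_congr rfl fun z _ => ?_
  simp only [Matrix.cons_val_zero, Matrix.cons_val_one, Matrix.cons_val]
  ring

section lift

variable {I : Type} [Fintype I] [DecidableEq I]

def majs (z : I × Fin 3 → Bool) : I → Bool := fun i => maj (z (i, 0)) (z (i, 1)) (z (i, 2))

def lift (μ : (I → Bool) → ℝ) (z : I × Fin 3 → Bool) : ℝ :=
  μ (majs z) * ∏ i, if z (i, 0) = z (i, 1) ∧ z (i, 1) = z (i, 2) then 0 else 2

omit [DecidableEq I] in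
lemma lift_nonneg {μ : (I → Bool) → ℝ} (hμ : ∀ z, 0 ≤ μ z) (z) : 0 ≤ lift μ z :=
  mul_nonneg (hμ _) (prod_nonneg fun i _ => by split_ifs <;> norm_num)

lemma M_lift (μ : (I → Bool) → ℝ) (φ : I × Fin 3 → Bool → ℝ) :
    M (lift μ) φ = M μ (fun i => up fun c => φ (i, c)) := by
  have h1 : ∀ i a, up (fun c => φ (i, c)) a = ∑ t : Fin 3 → Bool,
      (if a = maj (t 0) (t 1) (t 2) then 1 else 0) *
      ((if t 0 = t 1 ∧ t 1 = t 2 then 0 else 2) * ∏ c, φ (i, c) (t c)) := by
    intro i a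
    rw [sum_fin3]
    cases a <;> simp [up, maj, Fin.prod_univ_three] <;> ring
  have h2 := M_sum μ (fun i (t : Fin 3 → Bool) a => (if a = maj (t 0) (t 1) (t 2) then 1 else 0) *
      ((if t 0 = t 1 ∧ t 1 = t 2 then 0 else 2) * ∏ c, φ (i, c) (t c)))
  simp only [← h1] at h2
  rw [← h2, M, ← (Equiv.curry I (Fin 3) Bool).symm.sum_comp]
  refine sum_congr rfl fun t _ => ?_
  rw [M, sum_eq_single (fun i => maj (t i 0) (t i 1) (t i 2))]
  · simp only [lift, Fintype.prod_prod_type, prod_mul_distrib, if_true, one_mul]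
    rw [mul_assoc]; rfl
  · intro z _ hz
    obtain ⟨i, hi⟩ := Function.ne_iff.mp hz
    rw [prod_eq_zero (mem_univ i) (by rw [if_neg hi, zero_mul]), mul_zero]
  · simp

end lift

abbrev Rn := Fin 3 × Bool

def val (r : Rn) (e : Fin 3) : Bool := if e = r.1 + 1 then r.2 else !r.2

def cn (r : Rn) (τ : Fin 3 → Option Bool) : ℝ :=
  ∏ e, if e = r.1 then 1 else l0 (val r e) (τ e)

lemma cn_nonneg (r τ) : 0 ≤ cn r τ :=
  prod_nonneg fun e _ => by split_ifs; exacts [zero_le_one, l0_nonneg _ _]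

def l1 (τ : Fin 3 → Option Bool) : Bool → ℝ := up fun e b => l0 b (τ e)
def l2 (σ : Fin 3 → Fin 3 → Option Bool) : Bool → ℝ := up fun d => l1 (σ d)
def l3 (σ : Fin 3 → Fin 3 → Fin 3 → Option Bool) : Bool → ℝ := up fun c => l2 (σ c)

lemma l1_nonneg (τ b) : 0 ≤ l1 τ b := up_nonneg (fun _ _ => l0_nonneg _ _) b
lemma l2_nonneg (τ b) : 0 ≤ l2 τ b := up_nonneg (fun _ _ => l1_nonneg _ _) b
lemma l3_nonneg (τ b) : 0 ≤ l3 τ b := up_nonneg (fun _ _ => l2_nonneg _ _) b

lemma sum_cn (τ : Fin 3 → Option Bool) (b) : ∑ r, cn r τ * l0 b (τ r.1) = l1 τ b := by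
  simp only [Fintype.sum_prod_type, Fin.sum_univ_three, cn, Fin.prod_univ_three, l1, up, val,
    Fintype.sum_bool]
  cases b <;> simp <;> ring

section sim

variable {J : Type} [DecidableEq J]

def sim (r : J → Rn) : DT (J × Fin 3) → DT J
  | .halt => .halt
  | .query q t0 t1 => if q.2 = (r q.1).1 then .query q.1 (sim r t0) (sim r t1)
      else bif val (r q.1) q.2 then sim r t1 else sim r t0

def enc (r : J → Rn) (x : J → Bool) : J × Fin 3 → Bool :=
  fun q => if q.2 = (r q.1).1 then x q.1 else val (r q.1) q.2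

omit [DecidableEq J] in
lemma majs_enc (r : J → Rn) (x : J → Bool) : majs (enc r x) = x := by
  funext g
  simp only [majs, enc, val]
  generalize r g = s
  generalize x g = b
  revert s b
  decide

omit [DecidableEq J] in
lemma sim_queried (r : J → Rn) (x : J → Bool) (T : DT (J × Fin 3)) :
    ∀ q ∈ T.queried (enc r x), q.2 = (r q.1).1 → q.1 ∈ (sim r T).queried x := by
  induction T with
  | halt => simp [DT.queried]
  | query q t0 t1 ih0 ih1 =>
    intro p hp h
    simp only [DT.queried, List.mem_cons] at hp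
    by_cases hq : q.2 = (r q.1).1
    · simp only [sim, if_pos hq, DT.queried, List.mem_cons]
      rcases hp with rfl | hp
      · exact Or.inl rfl
      · right
        rw [show enc r x q = x q.1 by simp [enc, hq]] at hp
        cases hx : x q.1 <;> simp only [hx, cond_true, cond_false] at hp ⊢
        exacts [ih0 p hp h, ih1 p hp h]
    · simp only [sim, if_neg hq]
      rcases hp with rfl | hp
      · exact absurd h hq
      · rw [show enc r x q = val (r q.1) q.2 by simp [enc, hq]] at hp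
        cases hx : val (r q.1) q.2 <;> simp only [hx, cond_true, cond_false] at hp ⊢
        exacts [ih0 p hp h, ih1 p hp h]

omit [DecidableEq J] in
lemma sim_computes (r : J → Rn) {F : (J → Bool) → Bool} {T : DT (J × Fin 3)}
    (h : T.Computes fun z => F (majs z)) : (sim r T).Computes F := by
  intro x y hxy
  have := h (enc r x) (enc r y) fun q hq => by
    unfold enc
    split_ifs with h1
    · exact hxy _ (sim_queried r x T q hq h1)
    · rfl
  simpa [majs_enc] using this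

variable [Fintype J]

def res (r : J → Rn) (ρ : St (J × Fin 3)) : St J := fun g => ρ (g, (r g).1)

def cnA (r : J → Rn) (ρ : St (J × Fin 3)) : ℝ :=
  ∏ q : J × Fin 3, if q.2 = (r q.1).1 then 1 else l0 (val (r q.1) q.2) (ρ q)

def γS (γ : St J → J → ℝ) (ρ : St (J × Fin 3)) (q : J × Fin 3) : ℝ :=
  ∑ r : J → Rn, if q.2 = (r q.1).1 then cnA r ρ * γ (res r ρ) q.1 else 0

lemma cnA_update (r : J → Rn) {ρ : St (J × Fin 3)} {q} (h : ρ q = none) (y : Bool) :
    cnA r (update ρ q (some y)) =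
      (if q.2 = (r q.1).1 then 1 else l0 (val (r q.1) q.2) (some y)) * cnA r ρ :=
  prod_update_none (f := fun (q : J × Fin 3) o => if q.2 = (r q.1).1 then 1 else l0 (val (r q.1) q.2) o) h
    (by simp) _

omit [Fintype J] in
lemma res_update_pos (r : J → Rn) (ρ : St (J × Fin 3)) {q : J × Fin 3} (h : q.2 = (r q.1).1) (o) :
    res r (update ρ q o) = update (res r ρ) q.1 o := by
  funext g
  by_cases hg : g = q.1
  · subst hg; simp [res, ← h]
  · rw [update_of_ne hg, res, update_of_ne (fun h' => hg (by rw [← h']))]; rfl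

omit [Fintype J] in
lemma res_update_neg (r : J → Rn) (ρ : St (J × Fin 3)) {q : J × Fin 3} (h : q.2 ≠ (r q.1).1) (o) :
    res r (update ρ q o) = res r ρ := by
  funext g
  rw [res, update_of_ne (fun h' => h (by rw [← h']))]; rfl

lemma sim_cst (γ : St J → J → ℝ) (T : DT (J × Fin 3)) : ∀ ρ,
    ∑ r : J → Rn, cnA r ρ * Cst γ (sim r T) (res r ρ) = Cst (γS γ) T ρ := by
  induction T with
  | halt => intro ρ; simp [sim, Cst]
  | query q t0 t1 ih0 ih1 =>
    intro ρ
    have hz : ∀ (r : J → Rn) y, ρ q = some y → q.2 ≠ (r q.1).1 → val (r q.1) q.2 ≠ y →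
        cnA r ρ = 0 := fun r y h1 h2 h3 =>
      prod_eq_zero (mem_univ q) (by rw [if_neg h2, h1, l0_some, if_neg h3])
    rcases hi : ρ q with _ | _ | _
    · rw [Cst_none _ hi, ← ih0, ← ih1, γS, ← sum_add_distrib, ← sum_add_distrib]
      refine sum_congr rfl fun r _ => ?_
      rw [cnA_update r hi, cnA_update r hi]
      by_cases hq : q.2 = (r q.1).1
      · have : res r ρ q.1 = none := by rw [res, ← hq]; exact hi
        simp only [sim, if_pos hq, Cst_none _ this, res_update_pos r ρ hq]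
        ring
      · simp only [sim, if_neg hq, res_update_neg r ρ hq, l0_some]
        cases val (r q.1) q.2 <;> simp
    · rw [Cst_false _ hi, ← ih0]
      refine sum_congr rfl fun r _ => ?_
      by_cases hq : q.2 = (r q.1).1
      · have : res r ρ q.1 = some false := by rw [res, ← hq]; exact hi
        simp only [sim, if_pos hq, Cst_false _ this]
      · cases hv : val (r q.1) q.2
        · simp only [sim, if_neg hq, hv, cond_false]
        · simp [hz r _ hi hq (by simp [hv])]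
    · rw [Cst_true _ hi, ← ih1]
      refine sum_congr rfl fun r _ => ?_
      by_cases hq : q.2 = (r q.1).1
      · have : res r ρ q.1 = some true := by rw [res, ← hq]; exact hi
        simp only [sim, if_pos hq, Cst_true _ this]
      · cases hv : val (r q.1) q.2
        · simp [hz r _ hi hq (by simp [hv])]
        · simp only [sim, if_neg hq, hv, cond_true]

end sim

end Pool.Agent.Lib.MP_099303_lc
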