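import Pool.Agent.Lib.MP_099303_lc.Tab
import Pool.Agent.Lib.MP_099303_lc.Final

namespace Pool.Agent.Lib.MP_099303_lc

open Function Finset

def lo (e : ℕ) : ℕ := Nat.mod e (nat_lit 268435456)
def hi (e : ℕ) : ℕ := Nat.mod (Nat.shiftRight e (nat_lit 28)) (nat_lit 268435456)
def tl (e : ℕ) : ℕ := Nat.shiftRight e (nat_lit 56)

/-- decoding of a packed list of lines -/
def dec : ℕ → ℕ → List (ℕ × ℕ)
  | 0, _ => []
  | _ + 1, 0 => []
  | f + 1, e + 1 => (lo e, hi e) :: dec f (tl e)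

def lv (l : ℕ × ℕ) (x y : ℝ) : ℝ := l.1 * x + l.2 * y

def mn (x y : ℝ) : List (ℕ × ℕ) → ℝ → ℝ
  | [], m => m
  | l :: t, m => mn x y t (min m (lv l x y))

def minL (x y : ℝ) : List (ℕ × ℕ) → ℝ
  | [] => 0
  | l :: t => mn x y t (lv l x y)

/-- minimum of the packed lines -/
def mE (e : ℕ) (x y : ℝ) : ℝ := minL x y (dec 32 e)

def Val (e : ℕ) (l : ℕ × ℕ) : Prop := ∀ x y, mE e x y ≤ lv l x y

lemma mn_spec (x y) (t : List (ℕ × ℕ)) : ∀ m, mn x y t m ≤ m ∧ (∀ l ∈ t, mn x y t m ≤ lv l x y) ∧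
    (mn x y t m = m ∨ ∃ l ∈ t, mn x y t m = lv l x y) := by
  induction t with
  | nil => intro m; simp [mn]
  | cons a t ih =>
    intro m
    obtain ⟨h1, h2, h3⟩ := ih (min m (lv a x y))
    refine ⟨h1.trans (min_le_left _ _), ?_, ?_⟩
    · intro l hl
      rcases List.mem_cons.1 hl with rfl | hl
      · exact h1.trans (min_le_right _ _)
      · exact h2 l hl
    · rcases h3 with h3 | ⟨l, hl, h3⟩
      · rcases min_choice m (lv a x y) with h | h
        · left; rw [mn, h3, h]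
        · right; exact ⟨a, by simp, by rw [mn, h3, h]⟩
      · right; exact ⟨l, by simp [hl], h3⟩

lemma val_mem {e l} (h : l ∈ dec 32 e) : Val e l := by
  intro x y
  unfold mE
  generalize dec 32 e = L at h
  cases L with
  | nil => simp at h
  | cons a t =>
    rcases List.mem_cons.1 h with rfl | hl
    · exact (mn_spec x y t _).1
    · exact (mn_spec x y t _).2.1 l hl

lemma val_zero : Val 0 (0, 0) := by intro x y; simp [mE, dec, minL, lv]

lemma attain (e x y) : ∃ l, mE e x y = lv l x y ∧ (l ∈ dec 32 e ∨ (e = 0 ∧ l = (0, 0))) := by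
  cases e with
  | zero => exact ⟨(0, 0), by simp [mE, dec, minL, lv], Or.inr ⟨rfl, rfl⟩⟩
  | succ e =>
    rcases (mn_spec x y (dec 31 (tl e)) (lv (lo e, hi e) x y)).2.2 with h | ⟨l, hl, h⟩
    · exact ⟨_, h, Or.inl List.mem_cons_self⟩
    · exact ⟨l, h, Or.inl (List.mem_cons_of_mem _ hl)⟩

lemma attain' (e x y) : ∃ l, mE e x y = lv l x y ∧ Val e l := by
  obtain ⟨l, h, h' | ⟨rfl, rfl⟩⟩ := attain e x y
  exacts [⟨l, h, val_mem h'⟩, ⟨_, h, val_zero⟩]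

lemma dec_lt : ∀ f e, ∀ l ∈ dec f e, l.1 ≤ 268435456 ∧ l.2 ≤ 268435456
  | 0, _, l, h => by simp [dec] at h
  | _ + 1, 0, l, h => by simp [dec] at h
  | f + 1, e + 1, l, h => by
    rcases List.mem_cons.1 h with rfl | hl
    · exact ⟨(Nat.mod_lt _ (by norm_num)).le, (Nat.mod_lt _ (by norm_num)).le⟩
    · exact dec_lt f _ l hl

lemma mE_nonneg (e) {x y : ℝ} (hx : 0 ≤ x) (hy : 0 ≤ y) : 0 ≤ mE e x y := by
  obtain ⟨l, h, -⟩ := attain e x y
  rw [h, lv]; positivity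

lemma mE_le (e) {x y : ℝ} (hx : 0 ≤ x) (hy : 0 ≤ y) : mE e x y ≤ 268435456 * (x + y) := by
  obtain ⟨l, h, h' | ⟨rfl, rfl⟩⟩ := attain e x y
  · obtain ⟨h1, h2⟩ := dec_lt _ _ l h'
    have h1' : (l.1 : ℝ) ≤ 268435456 := by exact_mod_cast h1
    have h2' : (l.2 : ℝ) ≤ 268435456 := by exact_mod_cast h2
    rw [h, lv]; nlinarith
  · rw [h, lv]; simp; positivity

lemma mE_cone (e) {s t : ℝ} (hs : 0 ≤ s) (ht : 0 ≤ t) (x y x' y' : ℝ) :
    s * mE e x y + t * mE e x' y' ≤ mE e (s * x + t * x') (s * y + t * y') := by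
  obtain ⟨l, h, h'⟩ := attain' e (s * x + t * x') (s * y + t * y')
  have h1 := mul_le_mul_of_nonneg_left (h' x y) hs
  have h2 := mul_le_mul_of_nonneg_left (h' x' y') ht
  rw [h]; unfold lv at *; linarith

def sel (v : Bool) (l : ℕ × ℕ) : ℕ := cond v l.2 l.1

def L3 (a b c T2 T3 : ℕ) : Bool → ℕ := upN (LY a b c) (l2t T2) (l2t T3)
def ux (a b c T2 T3 : ℕ) (u : Bool) : Bool → ℕ :=
  upN (fun v => if v = u then LY a b c v else 0) (l2t T2) (l2t T3)
def YS (ℓ : ℕ → ℕ → ℕ → ℕ × ℕ) (a b c T2 T3 : ℕ) (v : Bool) : ℕ :=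
  ∑ x ∈ range 6, ∑ y ∈ range 6, ∑ z ∈ range 6,
    adT a b c x * (Dt T2 y * (Dt T3 z * (sel v (ℓ x y z) * LY x y z v)))

section red

variable (Ge Vs : ℕ → ℕ → ℕ → ℕ)

def VV (a b c T2 T3 : ℕ) (w0 w1 : ℝ) : ℝ :=
  mE (Vs (ty2 a b c) T2 T3) (L3 a b c T2 T3 false * w0) (L3 a b c T2 T3 true * w1)

def PP (a b c T2 T3 : ℕ) : Prop :=
  ∀ w0 w1 : ℝ, 0 ≤ w0 → 0 ≤ w1 → ∃ ℓ : ℕ → ℕ → ℕ → ℕ × ℕ,
    (∀ x < 6, ∀ y < 6, ∀ z < 6, Val (Ge x y z) (ℓ x y z)) ∧
    2.6493 * (YS ℓ a b c T2 T3 false * w0 + YS ℓ a b c T2 T3 true * w1) +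
      VV Vs (nx a false) b c T2 T3 w0 w1 + VV Vs (nx a true) b c T2 T3 w0 w1 ≤
    mE (Ge a b c) (ux a b c T2 T3 false false * w0 + ux a b c T2 T3 false true * w1)
      (ux a b c T2 T3 true false * w0 + ux a b c T2 T3 true true * w1) + VV Vs a b c T2 T3 w0 w1

lemma upN_swap (f g h) : upN f h g = upN f g h := by funext a; unfold upN; ring

lemma LY_swap (a b c) : LY a c b = LY a b c := upN_swap _ _ _

variable {Ge Vs}

lemma PP_swap1 (hG : ∀ a b c, Ge a c b = Ge a b c) {a b c T2 T3} (ha : a < 6) (hb : b < 6)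
    (hc : c < 6) (h : PP Ge Vs a b c T2 T3) : PP Ge Vs a c b T2 T3 := by
  intro w0 w1 h0 h1
  obtain ⟨ℓ, hl, h⟩ := h w0 w1 h0 h1
  refine ⟨ℓ, hl, ?_⟩
  have hV : ∀ a < 6, VV Vs a c b T2 T3 w0 w1 = VV Vs a b c T2 T3 w0 w1 := fun a ha => by
    simp only [VV, L3, LY_swap a b c, (tab_sym a ha b hb c hc).2.2.1]
  have hY : ∀ v, YS ℓ a c b T2 T3 v = YS ℓ a b c T2 T3 v := fun v =>
    sum_congr rfl fun x hx => by rw [(tab_sym a ha b hb c hc).2.2.2.2.1 x (mem_range.1 hx)]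
  have hn := (tab_sym a ha b hb c hc).2.2.2.2.2.1
  rw [hV a ha, hV _ (hn _), hV _ (hn _), hY, hY, hG]
  simpa only [ux, LY_swap a b c] using h

lemma PP_swap2 (hG : ∀ a b c, Ge a c b = Ge a b c) (hV : ∀ a b c, Vs a c b = Vs a b c)
    {a b c T2 T3} (h : PP Ge Vs a b c T2 T3) : PP Ge Vs a b c T3 T2 := by
  intro w0 w1 h0 h1
  obtain ⟨ℓ, hl, h⟩ := h w0 w1 h0 h1
  refine ⟨fun x y z => ℓ x z y, fun x hx y hy z hz => by rw [hG]; exact hl x hx z hz y hy, ?_⟩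
  have hY : ∀ v, YS (fun x y z => ℓ x z y) a b c T3 T2 v = YS ℓ a b c T2 T3 v := fun v =>
    sum_congr rfl fun x _ => by
      rw [sum_comm]
      refine sum_congr rfl fun y _ => sum_congr rfl fun z _ => ?_
      rw [LY_swap x y z]; ring
  rw [hY, hY]
  simpa only [VV, L3, ux, upN_swap _ (l2t T2) (l2t T3), hV _ T2 T3] using h

def sS (σ : S3) (c d : Fin 3) : ℝ :=
  sc1 (σ c (d + 1)) * sc1 (σ c (d + 2)) * (s2 (σ (c + 1)) * s2 (σ (c + 2)))

lemma l3_eq (σ : S3) (c d : Fin 3) (v) : l3 σ v = sc1 (σ c d) * sS σ c d *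
    L3 (ty1 (σ c d)) (ty1 (σ c (d + 1))) (ty1 (σ c (d + 2))) (ty2n (σ (c + 1))) (ty2n (σ (c + 2))) v := by
  unfold l3
  rw [up_rot c]
  simp only [l2_LY (σ c) d, l2_s2 (σ (c + 1)), l2_s2 (σ (c + 2)), L3, upN, sS]
  push_cast; ring

lemma ne1 (d : Fin 3) : d + 1 ≠ d := by revert d; decide
lemma ne2 (d : Fin 3) : d + 2 ≠ d := by revert d; decide

lemma uX_eq (σ : S3) (c d : Fin 3) (u v) : uX σ c u v = sc1 (σ c d) * sS σ c d *
    ux (ty1 (σ c d)) (ty1 (σ c (d + 1))) (ty1 (σ c (d + 2))) (ty2n (σ (c + 1))) (ty2n (σ (c + 2))) u v := by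
  unfold uX
  rw [up_rot c]
  simp only [update_self, update_of_ne (ne1 c), update_of_ne (ne2 c), cut,
    l2_LY (σ c) d, l2_s2 (σ (c + 1)), l2_s2 (σ (c + 2)), ux, upN, sS]
  split_ifs <;> push_cast <;> ring

lemma Y_eq (σ : S3) (c d e : Fin 3) (h : σ c d e = none) (ℓ : ℕ → ℕ → ℕ → ℕ × ℕ) (v) :
    (∑ r : Rb, if e = (r c d).1 then cnb r σ * ((sel v (ℓ (ty1 (resb r σ c)) (ty1 (resb r σ (c + 1)))
      (ty1 (resb r σ (c + 2)))) : ℝ) * l2 (resb r σ) v) else 0) = sS σ c d *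
      YS ℓ (ty1 (σ c d)) (ty1 (σ c (d + 1))) (ty1 (σ c (d + 2))) (ty2n (σ (c + 1))) (ty2n (σ (c + 2))) v := by
  have h1 := triple (range 6) _ _ _ _ _ _ _ _ _ (node_act (σ c) d e h) (node_rep (σ (c + 1)))
    (node_rep (σ (c + 2))) fun x y z => (sel v (ℓ x y z) * LY x y z v : ℝ)
  rw [← sum_rot c] at h1
  simp only [YS, Nat.cast_sum, mul_sum]
  refine Eq.trans (sum_congr rfl fun r _ => ?_) (h1.trans (sum_congr rfl fun x _ =>
    sum_congr rfl fun y _ => sum_congr rfl fun z _ => ?_))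
  · rw [cnb, prod_rot c, l2_LY _ c]
    have e1 : ∀ c, resb r σ c = sub1 (σ c) (r c) := fun c => rfl
    simp only [e1]
    split_ifs <;> ring
  · simp only [sS]; push_cast; ring

set_option maxHeartbeats 400000 in
/-- the certificate built from tables -/
noncomputable def mkCert (hG : ∀ a b c, Ge a c b = Ge a b c)
    (hG0 : ∀ a < 2, ∀ b < 6, ∀ c < 6, Ge a b c = 0)
    (hG5 : Ge 5 5 5 ≠ 0 ∧ ∀ l ∈ dec 32 (Ge 5 5 5), 1 ≤ l.1 ∧ 1 ≤ l.2)
    (hVr : ∀ a b c, Vs b c a = Vs a b c) (hV : ∀ a b c, Vs a c b = Vs a b c)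
    (hV0 : Vs 45 45 45 = 0)
    (hP : ∀ T3 < 46, ∀ T2 ≤ T3, ∀ a b c, (a, b, c) ∈ acts → PP Ge Vs a b c T2 T3) : Cert 2.6493 where
  G σ c _ := mE (Ge (ty1 (σ c)) (ty1 (σ (c + 1))) (ty1 (σ (c + 2))))
  V σ w0 w1 := mE (Vs (ty2n (σ 0)) (ty2n (σ 1)) (ty2n (σ 2))) (l3 σ false * w0) (l3 σ true * w1)
  g0 := 1
  g1 := 268435456
  g0_pos := one_pos
  G_nonneg _ _ _ _ _ h0 h1 := mE_nonneg _ h0 h1
  G_le _ _ _ _ _ h0 h1 := mE_le _ h0 h1
  G_ge c d u0 u1 h0 h1 := by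
    show _ ≤ mE (Ge 5 5 5) u0 u1
    obtain ⟨l, h, h' | ⟨h', -⟩⟩ := attain (Ge 5 5 5) u0 u1
    · obtain ⟨h2, h3⟩ := hG5.2 l h'
      have h2' : (1 : ℝ) ≤ l.1 := by exact_mod_cast h2
      have h3' : (1 : ℝ) ≤ l.2 := by exact_mod_cast h3
      rw [h, lv]; nlinarith
    · exact absurd h' hG5.1
  V_nonneg σ _ _ h0 h1 := mE_nonneg _ (mul_nonneg (l3_nonneg _ _) h0) (mul_nonneg (l3_nonneg _ _) h1)
  V_add σ w0 w1 w0' w1' := by
    have := mE_cone (Vs (ty2n (σ 0)) (ty2n (σ 1)) (ty2n (σ 2))) zero_le_one zero_le_one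
      (l3 σ false * w0) (l3 σ true * w1) (l3 σ false * w0') (l3 σ true * w1')
    simpa only [one_mul, mul_add] using this
  V_empty w0 w1 := by
    have : ty2n (fun _ _ => none) = 45 := by decide +kernel
    simp only [this, hV0]; simp [mE, dec, minL]
  loc σ c d e h w0 w1 h0 h1 := by
    have hrot : ∀ σ : S3, Vs (ty2n (σ 0)) (ty2n (σ 1)) (ty2n (σ 2)) =
        Vs (ty2 (ty1 (σ c d)) (ty1 (σ c (d + 1))) (ty1 (σ c (d + 2)))) (ty2n (σ (c + 1)))
          (ty2n (σ (c + 2))) := fun σ => by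
      rw [ty2n_rot]
      fin_cases c
      · rfl
      · exact (hVr _ _ _).symm
      · exact hVr _ _ _
    have u0 : ∀ v, upd3 σ c d e v c d = update (σ c d) e (some v) := fun v => by simp [upd3]
    have u1 : ∀ v, upd3 σ c d e v c (d + 1) = σ c (d + 1) := fun v => by simp [upd3]
    have u2 : ∀ v, upd3 σ c d e v c (d + 2) = σ c (d + 2) := fun v => by simp [upd3]
    have u3 : ∀ v, upd3 σ c d e v (c + 1) = σ (c + 1) := fun v => by simp [upd3]
    have u4 : ∀ v, upd3 σ c d e v (c + 2) = σ (c + 2) := fun v => by simp [upd3]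
    have g := gate_upd (σ c d) e h
    have hs : 0 ≤ sS σ c d := by unfold sS; positivity
    have ha := ty1_lt (σ c d)
    have hb := ty1_lt (σ c (d + 1))
    have hc := ty1_lt (σ c (d + 2))
    simp only [hrot, u0, u1, u2, u3, u4, (g _).1]
    rcases tab_act _ ha _ hb _ hc with ⟨h2, -, hact⟩ | ⟨hn, hz⟩
    · have hPP : PP Ge Vs (ty1 (σ c d)) (ty1 (σ c (d + 1))) (ty1 (σ c (d + 2))) (ty2n (σ (c + 1)))
          (ty2n (σ (c + 2))) := by
        have H : ∀ x y z, (x, y, z) ∈ acts → PP Ge Vs x y z (ty2n (σ (c + 1))) (ty2n (σ (c + 2))) := by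
          intro x y z ht
          rcases le_total (ty2n (σ (c + 1))) (ty2n (σ (c + 2))) with hle | hle
          · exact hP _ (ty2n_lt _) _ hle x y z ht
          · exact PP_swap2 hG hV (hP _ (ty2n_lt _) _ hle x y z ht)
        rcases hact with hact | hact
        · exact H _ _ _ hact
        · exact PP_swap1 hG ha hc hb (H _ _ _ hact)
      obtain ⟨ℓ, hl, hI⟩ := hPP (sS σ c d * w0) (sS σ c d * w1) (mul_nonneg hs h0) (mul_nonneg hs h1)
      refine ⟨fun r v => sel v (ℓ (ty1 (resb r σ c)) (ty1 (resb r σ (c + 1))) (ty1 (resb r σ (c + 2)))),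
        fun r x y => hl _ (ty1_lt _) _ (ty1_lt _) _ (ty1_lt _) x y, ?_⟩
      have hS : ∀ v, sS (upd3 σ c d e v) c d = sS σ c d := fun v => by simp only [sS, u1, u2, u3, u4]
      simp only [Y_eq σ c d e h, l3_eq _ c d, uX_eq _ c d, u0, u1, u2, u3, u4, hS, (g _).1,
        (g true).2.1, (g _).2.2 h2, Nat.cast_one, one_mul]
      simp only [VV] at hI
      have e1 : ∀ x w : ℝ, sS σ c d * x * w = x * (sS σ c d * w) := fun x w => by ring
      simpa only [e1] using hI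
    · have hv : ∀ x y z, ∃ l, (y < 6 → z < 6 → Val (Ge x y z) l) ∧ (x < 2 → l = (0, 0)) := by
        intro x y z
        by_cases hlt : x < 2
        · exact ⟨(0, 0), fun hy hz => by rw [hG0 _ hlt _ hy _ hz]; exact val_zero, fun _ => rfl⟩
        · obtain ⟨l, -, hl⟩ := attain' (Ge x y z) 0 0
          exact ⟨l, fun _ _ => hl, fun h => absurd h hlt⟩
      choose ℓ hl hl' using hv
      refine ⟨fun r v => sel v (ℓ (ty1 (resb r σ c)) (ty1 (resb r σ (c + 1))) (ty1 (resb r σ (c + 2)))),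
        fun r x y => hl _ _ _ (ty1_lt _) (ty1_lt _) x y, ?_⟩
      · have hY : ∀ v, YS ℓ (ty1 (σ c d))
            (ty1 (σ c (d + 1))) (ty1 (σ c (d + 2))) (ty2n (σ (c + 1))) (ty2n (σ (c + 2))) v = 0 :=
          fun v => sum_eq_zero fun x hx => sum_eq_zero fun y _ => sum_eq_zero fun z _ => by
            by_cases hlt : x < 2
            · cases v <;> simp [hl' x y z hlt, sel]
            · rw [hz x (mem_range.1 hx) (not_lt.1 hlt), zero_mul]
        simp only [Y_eq σ c d e h, hY, hn]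
        rw [l3_split h false, l3_split h true]
        have k1 := mE_cone (Vs (ty2 (ty1 (σ c d)) (ty1 (σ c (d + 1))) (ty1 (σ c (d + 2))))
          (ty2n (σ (c + 1))) (ty2n (σ (c + 2)))) zero_le_one zero_le_one
          (l3 (upd3 σ c d e false) false * w0) (l3 (upd3 σ c d e false) true * w1)
          (l3 (upd3 σ c d e true) false * w0) (l3 (upd3 σ c d e true) true * w1)
        have hu : ∀ u v, 0 ≤ uX σ c u v := fun u v => by rw [uX_eq σ c d]; positivity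
        have k2 := mE_nonneg (Ge (ty1 (σ c d)) (ty1 (σ c (d + 1))) (ty1 (σ c (d + 2))))
          (add_nonneg (mul_nonneg (hu false false) h0) (mul_nonneg (hu false true) h1))
          (add_nonneg (mul_nonneg (hu true false) h0) (mul_nonneg (hu true true) h1))
        simp only [one_mul, ← add_mul] at k1
        simp only [Nat.cast_zero, mul_zero, zero_mul, add_zero, zero_add]
        linarith

end red

end Pool.Agent.Lib.MP_099303_lc
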