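import Pool.Agent.Lib.MP_099303_lc.Gen

namespace Pool.Agent.Lib.MP_099303_lc

open Function Finset

abbrev S1 := Fin 3 → Option Bool
abbrev S2 := Fin 3 → Fin 3 → Option Bool
abbrev S3 := Fin 3 → Fin 3 → Fin 3 → Option Bool
abbrev Rb := Fin 3 → Fin 3 → Rn

def resb (r : Rb) (σ : S3) : S2 := fun c d => σ c d (r c d).1
def cnb (r : Rb) (σ : S3) : ℝ := ∏ c, ∏ d, cn (r c d) (σ c d)
def upd3 (σ : S3) (c d e : Fin 3) (y : Bool) : S3 :=
  update σ c (update (σ c) d (update (σ c d) e (some y)))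
def uX (σ : S3) (c : Fin 3) (b : Bool) (a : Bool) : ℝ :=
  up (update (fun c' => l2 (σ c')) c (cut b (l2 (σ c)))) a

/-- a certificate for the lower bound `lam` -/
structure Cert (lam : ℝ) where
  G : S2 → Fin 3 → Fin 3 → ℝ → ℝ → ℝ
  V : S3 → ℝ → ℝ → ℝ
  g0 : ℝ
  g1 : ℝ
  g0_pos : 0 < g0
  G_nonneg : ∀ σ c d u0 u1, 0 ≤ u0 → 0 ≤ u1 → 0 ≤ G σ c d u0 u1
  G_le : ∀ σ c d u0 u1, 0 ≤ u0 → 0 ≤ u1 → G σ c d u0 u1 ≤ g1 * (u0 + u1)
  G_ge : ∀ c d u0 u1, 0 ≤ u0 → 0 ≤ u1 → g0 * (u0 + u1) ≤ G (fun _ _ => none) c d u0 u1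
  V_nonneg : ∀ σ w0 w1, 0 ≤ w0 → 0 ≤ w1 → 0 ≤ V σ w0 w1
  V_add : ∀ σ w0 w1 w0' w1', V σ w0 w1 + V σ w0' w1' ≤ V σ (w0 + w0') (w1 + w1')
  V_empty : ∀ w0 w1, V (fun _ _ _ => none) w0 w1 = 0
  loc : ∀ (σ : S3) c d e, σ c d e = none → ∀ w0 w1, 0 ≤ w0 → 0 ≤ w1 →
    ∃ L : Rb → Bool → ℝ, (∀ r u0 u1, G (resb r σ) c d u0 u1 ≤ L r false * u0 + L r true * u1) ∧
      lam * ((∑ r : Rb, if e = (r c d).1 then cnb r σ * (L r false * l2 (resb r σ) false) else 0) * w0
        + (∑ r : Rb, if e = (r c d).1 then cnb r σ * (L r true * l2 (resb r σ) true) else 0) * w1)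
        + V (upd3 σ c d e false) w0 w1 + V (upd3 σ c d e true) w0 w1 ≤
      G (σ c) d e (uX σ c false false * w0 + uX σ c false true * w1)
        (uX σ c true false * w0 + uX σ c true true * w1) + V σ w0 w1

lemma sum_cn2 (σ : S2) (b) :
    ∑ r : Fin 3 → Rn, (∏ d, cn (r d) (σ d)) * l1 (fun d => σ d (r d).1) b = l2 σ b := by
  have := up_sum (fun d r => cn r (σ d)) (fun d r b => l0 b (σ d r.1)) b
  simp only [sum_cn] at this
  exact this

lemma sum_cn3 (σ : S3) (b) : ∑ r : Rb, cnb r σ * l2 (resb r σ) b = l3 σ b := by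
  have := up_sum (fun c (r : Fin 3 → Rn) => ∏ d, cn (r d) (σ c d))
    (fun c r => l1 (fun d => σ c d (r d).1)) b
  simp only [sum_cn2] at this
  exact this

lemma up_update (φ : Fin 3 → Bool → ℝ) (c : Fin 3) (ψ ψ' : Bool → ℝ)
    (h : ∀ b, φ c b = ψ b + ψ' b) (a) : up φ a = up (update φ c ψ) a + up (update φ c ψ') a := by
  fin_cases c <;> simp [up] at h ⊢ <;> cases a <;> simp [h] <;> ring

lemma l1_split {τ : S1} {e} (h : τ e = none) (b) :
    l1 τ b = l1 (update τ e (some false)) b + l1 (update τ e (some true)) b := by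
  have e1 : ∀ o, (fun e' b => l0 b (update τ e o e')) =
      update (fun e' b => l0 b (τ e')) e (fun b => l0 b o) := by
    intro o; funext e'
    by_cases he : e' = e
    · subst he; simp
    · simp [update_of_ne he]
  unfold l1
  rw [e1, e1]
  exact up_update _ _ _ _ (fun b => by cases b <;> simp [h, l0]) b

lemma l2_split {σ : S2} {d e} (h : σ d e = none) (b) :
    l2 σ b = l2 (update σ d (update (σ d) e (some false))) b +
      l2 (update σ d (update (σ d) e (some true))) b := by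
  have e1 : ∀ τ, (fun d' => l1 (update σ d τ d')) = update (fun d' => l1 (σ d')) d (l1 τ) := by
    intro τ; funext d'
    by_cases he : d' = d
    · subst he; simp
    · simp [update_of_ne he]
  unfold l2
  rw [e1, e1]
  exact up_update _ _ _ _ (l1_split h) b

lemma l3_split {σ : S3} {c d e} (h : σ c d e = none) (b) :
    l3 σ b = l3 (upd3 σ c d e false) b + l3 (upd3 σ c d e true) b := by
  have e1 : ∀ τ, (fun d' => l2 (update σ c τ d')) = update (fun d' => l2 (σ d')) c (l2 τ) := by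
    intro τ; funext d'
    by_cases he : d' = c
    · subst he; simp
    · simp [update_of_ne he]
  unfold l3 upd3
  rw [e1, e1]
  exact up_update _ _ _ _ (l2_split h) b

section step

variable {lam : ℝ} (C : Cert lam) {I : Type} [Fintype I] [DecidableEq I]

def b2 (ρ : St ((I × Fin 3) × Fin 3)) (i : I) : S2 := fun c d => ρ ((i, c), d)
def b3 (ρ : St (((I × Fin 3) × Fin 3) × Fin 3)) (i : I) : S3 := fun c d e => ρ (((i, c), d), e)

def gam (μ : (I → Bool) → ℝ) (ρ : St ((I × Fin 3) × Fin 3)) (q : (I × Fin 3) × Fin 3) : ℝ :=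
  C.G (b2 ρ q.1.1) q.1.2 q.2
    (M μ (update (fun i => l2 (b2 ρ i)) q.1.1 (cut false (l2 (b2 ρ q.1.1)))))
    (M μ (update (fun i => l2 (b2 ρ i)) q.1.1 (cut true (l2 (b2 ρ q.1.1)))))

def Psi (μ : (I → Bool) → ℝ) (ρ : St (((I × Fin 3) × Fin 3) × Fin 3)) : ℝ :=
  ∑ i, C.V (b3 ρ i) (Wt μ (fun i => l3 (b3 ρ i)) i false) (Wt μ (fun i => l3 (b3 ρ i)) i true)

omit [Fintype I] in
lemma b3_update (ρ : St (((I × Fin 3) × Fin 3) × Fin 3)) (i c d e y) :
    b3 (update ρ (((i, c), d), e) (some y)) = update (b3 ρ) i (upd3 (b3 ρ i) c d e y) := by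
  funext i' c' d' e'
  by_cases hi : i' = i
  · subst hi
    by_cases hc : c' = c
    · subst hc
      by_cases hd : d' = d
      · subst hd
        by_cases he : e' = e
        · subst he; simp [b3, upd3]
        · simp [b3, upd3, he]
      · simp [b3, upd3, hd]
    · simp [b3, upd3, hc]
  · simp [b3, hi]

lemma gam_lift (μ : (I → Bool) → ℝ) (ρ : St (((I × Fin 3) × Fin 3) × Fin 3)) (i c b) :
    M (lift μ) (update (fun j => l2 (b2 ρ j)) (i, c) (cut b (l2 (b2 ρ (i, c))))) =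
      uX (b3 ρ i) c b false * Wt μ (fun i => l3 (b3 ρ i)) i false +
      uX (b3 ρ i) c b true * Wt μ (fun i => l3 (b3 ρ i)) i true := by
  rw [M_lift, ← M_update]
  congr 1
  funext i'
  by_cases hi : i' = i
  · subst hi
    rw [update_self]
    unfold uX
    congr 1
    funext c'
    by_cases hc : c' = c
    · subst hc; simp; rfl
    · simp [hc]; rfl
  · rw [update_of_ne hi]
    unfold l3
    congr 1
    funext c'
    rw [update_of_ne (by simp [hi])]; rfl

def curryR : (I → Rb) ≃ ((I × Fin 3) × Fin 3 → Rn) where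
  toFun r := fun g => r g.1.1 g.1.2 g.2
  invFun r := fun i c d => r ((i, c), d)
  left_inv _ := rfl
  right_inv _ := rfl

omit [DecidableEq I] in
lemma cnA_curry (r : I → Rb) (ρ : St (((I × Fin 3) × Fin 3) × Fin 3)) :
    cnA (curryR r) ρ = ∏ i, cnb (r i) (b3 ρ i) := by
  simp only [cnA, Fintype.prod_prod_type, cnb, cn]
  rfl

lemma γS_le {μ : (I → Bool) → ℝ} (ρ : St (((I × Fin 3) × Fin 3) × Fin 3)) (i c d e)
    (L : Rb → Bool → ℝ)
    (hL : ∀ r u0 u1, C.G (resb r (b3 ρ i)) c d u0 u1 ≤ L r false * u0 + L r true * u1) :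
    γS (gam C μ) ρ (((i, c), d), e) ≤
      (∑ r : Rb, if e = (r c d).1 then cnb r (b3 ρ i) * (L r false * l2 (resb r (b3 ρ i)) false)
        else 0) * Wt μ (fun i => l3 (b3 ρ i)) i false +
      (∑ r : Rb, if e = (r c d).1 then cnb r (b3 ρ i) * (L r true * l2 (resb r (b3 ρ i)) true)
        else 0) * Wt μ (fun i => l3 (b3 ρ i)) i true := by
  let ψ : I → Rb → Bool → ℝ := fun j r b => if j = i then
    (if e = (r c d).1 then cnb r (b3 ρ i) * (L r b * l2 (resb r (b3 ρ i)) b) else 0)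
    else cnb r (b3 ρ j) * l2 (resb r (b3 ρ j)) b
  have h1 := M_sum μ ψ
  have h2 : (fun j b => ∑ r, ψ j r b) = update (fun i => l3 (b3 ρ i)) i (fun b => ∑ r : Rb,
      if e = (r c d).1 then cnb r (b3 ρ i) * (L r b * l2 (resb r (b3 ρ i)) b) else 0) := by
    funext j
    by_cases hj : j = i
    · subst hj; simp [ψ]
    · funext b; simp [ψ, hj, sum_cn3]
  rw [h2, M_update] at h1
  rw [← h1, γS, ← curryR.sum_comp]
  refine sum_le_sum fun r _ => ?_
  have hc : ∀ j, 0 ≤ cnb (r j) (b3 ρ j) := fun j =>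
    prod_nonneg fun _ _ => prod_nonneg fun _ _ => cn_nonneg _ _
  by_cases he : e = (r i c d).1
  · rw [if_pos (show e = (curryR r ((i, c), d)).1 from he), cnA_curry]
    refine (mul_le_mul_of_nonneg_left (hL (r i) _ _) (prod_nonneg fun j _ => hc j)).trans
      (le_of_eq ?_)
    have h3 : M μ (update (fun j => l2 (resb (r j) (b3 ρ j))) i
        (fun b => L (r i) b * l2 (resb (r i) (b3 ρ i)) b)) =
        L (r i) false * M μ (update (fun j => l2 (resb (r j) (b3 ρ j))) i
          (cut false (l2 (resb (r i) (b3 ρ i))))) +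
        L (r i) true * M μ (update (fun j => l2 (resb (r j) (b3 ρ j))) i
          (cut true (l2 (resb (r i) (b3 ρ i))))) := by
      simp [M_update, cut]; ring
    change _ * (L (r i) false * M μ (update (fun j => l2 (resb (r j) (b3 ρ j))) i
          (cut false (l2 (resb (r i) (b3 ρ i))))) +
        L (r i) true * M μ (update (fun j => l2 (resb (r j) (b3 ρ j))) i
          (cut true (l2 (resb (r i) (b3 ρ i)))))) = _
    rw [← h3, M_smul]
    refine congrArg (M μ) ?_
    funext j b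
    by_cases hj : j = i
    · subst hj; simp [ψ, ← he]
    · simp [ψ, hj]
  · rw [if_neg (show ¬ e = (curryR r ((i, c), d)).1 from he)]
    refine le_of_eq (Eq.symm ?_)
    unfold M
    refine sum_eq_zero fun z _ => ?_
    rw [prod_eq_zero (mem_univ i) (by simp [ψ, he]), mul_zero]

lemma step (hlam : 0 ≤ lam) {μ : (I → Bool) → ℝ} (hμ : ∀ z, 0 ≤ μ z)
    (T : DT (((I × Fin 3) × Fin 3) × Fin 3)) :
    lam * ∑ r : (I × Fin 3) × Fin 3 → Rn, Cst (gam C μ) (sim r T) (fun _ => none) ≤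
      Cst (gam C (lift μ)) T (fun _ => none) := by
  have hW : ∀ (ρ : St (((I × Fin 3) × Fin 3) × Fin 3)) i a,
      0 ≤ Wt μ (fun i => l3 (b3 ρ i)) i a := fun ρ i a =>
    Wt_nonneg hμ (fun _ _ => l3_nonneg _ _) i a
  have := potential (gam C (lift μ)) (γS (gam C μ)) (Psi C μ) lam
    (fun ρ => sum_nonneg fun i _ => C.V_nonneg _ _ _ (hW _ _ _) (hW _ _ _)) ?_ T (fun _ => none)
  · rw [← sim_cst] at this
    have e1 : Psi C μ (fun _ => none) = 0 := sum_eq_zero fun i _ => C.V_empty _ _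
    have e2 : ∀ r : (I × Fin 3) × Fin 3 → Rn, cnA r (fun _ => none) = 1 := fun r => by simp [cnA]
    simp only [e1, e2, one_mul, add_zero] at this
    exact this
  · rintro ρ ⟨⟨⟨i, c⟩, d⟩, e⟩ h
    obtain ⟨L, hL, H⟩ := C.loc (b3 ρ i) c d e h _ _ (hW ρ i false) (hW ρ i true)
    have h1 := mul_le_mul_of_nonneg_left (γS_le C (μ := μ) ρ i c d e L hL) hlam
    have h2 : gam C (lift μ) ρ (((i, c), d), e) = C.G (b3 ρ i c) d e
        (uX (b3 ρ i) c false false * Wt μ (fun i => l3 (b3 ρ i)) i false +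
          uX (b3 ρ i) c false true * Wt μ (fun i => l3 (b3 ρ i)) i true)
        (uX (b3 ρ i) c true false * Wt μ (fun i => l3 (b3 ρ i)) i false +
          uX (b3 ρ i) c true true * Wt μ (fun i => l3 (b3 ρ i)) i true) := by
      unfold gam
      simp only [gam_lift]
      rfl
    rw [h2]
    have e3 : ∀ y, (fun j => l3 (update (b3 ρ) i (upd3 (b3 ρ i) c d e y) j)) =
        update (fun j => l3 (b3 ρ j)) i (l3 (upd3 (b3 ρ i) c d e y)) := by
      intro y; funext j
      by_cases hj : j = i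
      · subst hj; simp
      · simp [hj]
    simp only [Psi, b3_update, e3]
    rw [← add_sum_erase _ _ (mem_univ i), ← add_sum_erase _ _ (mem_univ i),
      ← add_sum_erase _ (fun j => C.V (b3 ρ j) _ _) (mem_univ i)]
    simp only [update_self, Wt_update_self]
    have h4 := sum_le_sum (s := univ.erase i) fun j hj => by
      have hj' := ne_of_mem_erase hj
      have := C.V_add (b3 ρ j)
        (Wt μ (update (fun j => l3 (b3 ρ j)) i (l3 (upd3 (b3 ρ i) c d e false))) j false)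
        (Wt μ (update (fun j => l3 (b3 ρ j)) i (l3 (upd3 (b3 ρ i) c d e false))) j true)
        (Wt μ (update (fun j => l3 (b3 ρ j)) i (l3 (upd3 (b3 ρ i) c d e true))) j false)
        (Wt μ (update (fun j => l3 (b3 ρ j)) i (l3 (upd3 (b3 ρ i) c d e true))) j true)
      rw [← Wt_add μ _ hj' _ _ (l3_split h), ← Wt_add μ _ hj' _ _ (l3_split h)] at this
      exact this
    rw [sum_add_distrib] at h4
    have e5 : ∀ y (f : I → ℝ) (g : I → ℝ), ∑ j ∈ univ.erase i,
        C.V (update (b3 ρ) i (upd3 (b3 ρ i) c d e y) j) (f j) (g j) =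
        ∑ j ∈ univ.erase i, C.V (b3 ρ j) (f j) (g j) := fun y f g =>
      sum_congr rfl fun j hj => by rw [update_of_ne (ne_of_mem_erase hj)]
    rw [e5, e5]
    linarith

end step

end Pool.Agent.Lib.MP_099303_lc
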