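import Pool.Agent.Lib.MP_099303_lc.Step

namespace Pool.Agent.Lib.MP_099303_lc

open Function Finset

/-- field `i` of width `w` of the packed number `n` -/
def fld (n w i : ℕ) : ℕ := Nat.mod (Nat.shiftRight n (Nat.mul w i)) (Nat.pow (nat_lit 2) w)

def i3 (a b c : ℕ) : ℕ := Nat.add (Nat.mul (nat_lit 6) (Nat.add (Nat.mul (nat_lit 6) a) b)) c

def c0 (o : Option Bool) : ℕ := if o = some false then 1 else 0
def c1 (o : Option Bool) : ℕ := if o = some true then 1 else 0

def ty3 (a b c : Option Bool) : ℕ :=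
  if 2 ≤ c0 a + c0 b + c0 c then 0 else if 2 ≤ c1 a + c1 b + c1 c then 1 else
  if c0 a + c0 b + c0 c = 1 then (if c1 a + c1 b + c1 c = 1 then 2 else 3) else
  if c1 a + c1 b + c1 c = 1 then 4 else 5

def sc3 (a b c : Option Bool) : ℕ :=
  if c0 a + c0 b + c0 c = 3 ∨ c1 a + c1 b + c1 c = 3 then 0 else 1

def ty1 (τ : S1) : ℕ := ty3 (τ 0) (τ 1) (τ 2)
def sc1 (τ : S1) : ℕ := sc3 (τ 0) (τ 1) (τ 2)

def l1t : ℕ → Bool → ℕ
  | 0, b => if b then 0 else 2
  | 1, b => if b then 2 else 0
  | 2, _ => 2
  | 3, b => if b then 2 else 4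
  | 4, b => if b then 4 else 2
  | _, _ => 6

def nt : ℕ → Option Bool → ℕ
  | 0, o => if o = some false then 2 else 0
  | 1, o => if o = some true then 2 else 0
  | 2, _ => 1
  | 3, o => if o = some true then 0 else 2
  | 4, o => if o = some false then 0 else 2
  | _, o => if o = none then 6 else 0

def nq (t : ℕ) : ℕ := if t < 2 then 0 else if t < 5 then 1 else 2

def nx : ℕ → Bool → ℕ
  | 0, _ => 0
  | 1, _ => 1
  | 2, b => if b then 1 else 0
  | 3, b => if b then 2 else 0
  | 4, b => if b then 1 else 2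
  | _, b => if b then 4 else 3

def ty2 (a b c : ℕ) : ℕ := fld (nat_lit 974065640193429724262701998254642553267959919734041763334814953247253970677135097096422333000856075601775933576649672324812624315539603015365773618028718185825546669306651913223462354689660313974368698280323629980427514601831068457799826394221019894790621002256444545904617980375335802951584755399102878547185353188565940484198706651341171877784297919614607257911989556841424214172154986496) (nat_lit 6) (i3 a b c)
def sc2 (a b c : ℕ) : ℕ := fld (nat_lit 59332456148431748314088279958232419569775367567904439162425636681930669095494188873164997388438512343964076217908490447292945357883541803012552301746395145044087683563773345905816613979114354341725626335494246613524832824199393145309194718938352292668396907909200215992992629703956964539108662916392385708441654571508119880644813807435551682403950362659750580376552409782265374029159083052673621664072039710946258238014000968497038880825746584452460132665124960470281599076267893787693788434927323457649199115898718208)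 (nat_lit 8) (i3 a b c)
def Dt (T y : ℕ) : ℕ := fld (nat_lit 39851457710782913725248597207406357862213149499906340738789036817548039856948444023932467212759274213563766830991626515673175631222428730930662231775107688789772859135921319586756394611358425222440080664862039874335440024928933841218958098265604294632749222293068213430584237709241883820267098326192586712827001542170509405587376373662990191979268568498234132878352008653932259228745061130279448463086762252375253284374215765268474918675432365041896021537830569603193215785114641342558544108857877723732419518544474508156058766456264162872057789850888907591412277460128261168358084626419513704998326664177078869422967630750412732745774272051177272918634449453711361) (nat_lit 8) (Nat.add (Nat.mul (nat_lit 6) T) y)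
def l2t (T : ℕ) (b : Bool) : ℕ := fld (nat_lit 27787068059248081629906433087427787690357898962349871403251574474764594092945977488436545452060297184500444572065688445232622301934786248076130566817132272592885761298281423527097788095446985207600849257667880672244122005223046271133780263101977783336802103628395299363661816451042961487254813472093896706) (nat_lit 11) (Nat.add (Nat.mul (nat_lit 2) T) (cond b (nat_lit 1) (nat_lit 0)))
def adT (a b c y : ℕ) : ℕ := fld (nat_lit 49458756199339287385689172112438427964589694079951077641419987064012760591358421289866172786458975182614740892880152813039025128192786866859451396626345244769725653570474039724186157664075482070391258937444146025840620147445689594521626570575732339744275771513009632451002890966729600053159053475230607117621845829962790590725545507443660761817982719383430028645648416139484538505503120444361239994871155776047596496008401462060410952300980043103363901953623007154625554077001792580701367999942042621433011162202877210070353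87383034549810197000801521212674908940921839062797991572384000119332816781207712888036184335337851655586390152268598102531413083161762715327997159050082788686020571947715149772279507931964410252535635854271429294343225000081210962017578330227319468369426129627433261820115427835417370447795158792459668554655169562731837177192634334329870778803542740192107158373434237329110604561479212787857069574586957779914968733873719097833950565446374998948178819819060515493606186786028467440206986656801792762055777294386528148462967057096896896164776345993967490872054581259545577093118597434472929816830890132017109625362496030070595425086241344505097801275914980273882441977610289946535149905982703898670921498965113250789288798132019715033446425135622361341279095948607042455242069323279519378045680276087615039258673882892943237187116626644414475098236001416936824153221249088642252275518543960164740773523014242529576305779579218033877563008363884721874074748083176683435283166998446050790184714057425269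901211887263256472851232257963946197457535426818860866032621737351037522385891060298113940636369500164477787300230309491460409644787304728118544648431273030216446087989962312074862130260359247356410100439388010113488949530708006794416372923517849423620218382567805668664059807284007133853728002967115275940465443427339509007947975211502565018852182641694538106206483749049554697714454075170020071478725877821138295841088809203454917807248362154973952997960099884362761647447075748002697331720699382674118696888367117476797196681169662558764065158919274921994753949146706870881090882107627604745870747211371527480862980106552285643777657884818180377032679095380976980941486775811299734131779845439207154222572526272173977075325149636832791085281232480969515096279258040445444300361233047281610899705850108187698526247414654721434541607786478326327030322229228885265489079638118849153130868520122369794407517916427396533690509782630863025469420281478657993069521602813712283105721819430398200137199855673095226561925396397863289058326917922600544188380272671120351841583888697486849792318990460864453188099923448207136981727808334422292920748211936168916881143638722023678830841207577845506612809608493793280)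 (nat_lit 7) (Nat.add (Nat.mul (nat_lit 6) (i3 a b c)) y)

def acts : List (ℕ × ℕ × ℕ) := [(2, 0, 1), (2, 0, 2), (2, 0, 3), (2, 0, 4), (2, 0, 5), (2, 1, 2), (2, 1, 3), (2, 1, 4), (2, 1, 5), (2, 2, 2), (2, 2, 3), (2, 2, 4), (2, 2, 5), (2, 3, 3), (2, 3, 4), (2, 3, 5), (2, 4, 4), (2, 4, 5), (2, 5, 5), (3, 0, 1), (3, 0, 2), (3, 0, 3), (3, 0, 4), (3, 0, 5), (3, 1, 2), (3, 1, 3), (3, 1, 4), (3, 1, 5), (3, 2, 2), (3, 2, 3), (3, 2, 4), (3, 2, 5), (3, 3, 3), (3, 3, 4), (3, 3, 5), (3, 4, 4), (3, 4, 5), (3, 5, 5), (4, 0, 1), (4, 0, 2), (4, 0, 3), (4, 0, 4), (4, 0, 5), (4, 1, 2), (4, 1, 3), (4, 1, 4), (4, 1, 5), (4, 2, 2), (4, 2, 3), (4, 2, 4), (4, 2, 5), (4, 3, 3), (4, 3, 4), (4, 3, 5), (4, 4, 4), (4, 4, 5), (4, 5, 5), (5, 0, 1), (5, 0, 2), (5, 0, 3), (5, 0, 4), (5, 0, 5), (5, 1, 2), (5, 1, 3), (5, 1, 4), (5, 1, 5), (5, 2, 2), (5, 2, 3), (5, 2, 4), (5, 2, 5), (5, 3, 3), (5, 3, 4), (5, 3, 5), (5, 4, 4), (5, 4, 5), (5, 5, 5)]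

def upN (f g h : Bool → ℕ) (a : Bool) : ℕ :=
  2 * (f (!a) * g a * h a + f a * g (!a) * h a + f a * g a * h (!a))

def LY (a b c : ℕ) : Bool → ℕ := upN (l1t a) (l1t b) (l1t c)

lemma ty3_lt (a b c) : ty3 a b c < 6 := by unfold ty3; split_ifs <;> omega
lemma ty1_lt (τ) : ty1 τ < 6 := ty3_lt _ _ _

lemma ty1_rot (τ : S1) (d : Fin 3) : ty3 (τ d) (τ (d + 1)) (τ (d + 2)) = ty1 τ := by
  have h : ∀ a b c, ty3 b c a = ty3 a b c := by decide
  fin_cases d
  · rfl
  · exact h _ _ _
  · exact (h _ _ _).symm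

lemma sc1_rot (τ : S1) (d : Fin 3) : sc3 (τ d) (τ (d + 1)) (τ (d + 2)) = sc1 τ := by
  have h : ∀ a b c, sc3 b c a = sc3 a b c := by decide
  fin_cases d
  · rfl
  · exact h _ _ _
  · exact (h _ _ _).symm

lemma tab_D : ∀ a < 6, ∀ b < 6, ∀ c < 6, ∀ y < 6,
    (∑ x : Option Bool, ∑ x' : Option Bool, ∑ x'' : Option Bool,
      if ty3 x x' x'' = y then nt a x * nt b x' * nt c x'' * sc3 x x' x'' else 0) =
      sc2 a b c * Dt (ty2 a b c) y := by decide +kernel

lemma tab_A : ∀ a < 6, ∀ b < 6, ∀ c < 6, ∀ y < 6,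
    (∑ x : Option Bool, ∑ x' : Option Bool, ∑ x'' : Option Bool,
      if ty3 x x' x'' = y then (if x = none then nq a else 0) * nt b x' * nt c x'' * sc3 x x' x''
      else 0) = adT a b c y := by decide +kernel

lemma tab_l2 : ∀ a < 6, ∀ b < 6, ∀ c < 6, ∀ v, LY a b c v = sc2 a b c * l2t (ty2 a b c) v := by
  decide +kernel

set_option synthInstance.maxSize 2000 in
lemma tab_sym : ∀ a < 6, ∀ b < 6, ∀ c < 6, ty2 a b c < 46 ∧ ty2 b c a = ty2 a b c ∧
    ty2 a c b = ty2 a b c ∧ sc2 a c b = sc2 a b c ∧ (∀ y < 6, adT a c b y = adT a b c y) ∧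
    (∀ v, nx a v < 6) ∧ (2 ≤ ty2 a b c → sc2 a b c = 1) := by
  decide +kernel

set_option synthInstance.maxSize 2000 in
lemma tab_act : ∀ a < 6, ∀ b < 6, ∀ c < 6, (2 ≤ a ∧ 2 ≤ ty2 a b c ∧ ((a, b, c) ∈ acts ∨ (a, c, b) ∈ acts)) ∨
    ((∀ v, ty2 (nx a v) b c = ty2 a b c) ∧ ∀ y < 6, 2 ≤ y → adT a b c y = 0) := by
  decide +kernel

lemma tab_acts : ∀ t ∈ acts, t.1 < 6 ∧ t.2.1 < 6 ∧ t.2.2 < 6 := by decide +kernel

lemma gate_l1 (τ : S1) (b) : l1 τ b = sc1 τ * l1t (ty1 τ) b := by
  simp only [l1, up, sc1, ty1]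
  generalize τ 0 = x; generalize τ 1 = y; generalize τ 2 = z
  rcases x with _ | _ | _ <;> rcases y with _ | _ | _ <;> rcases z with _ | _ | _ <;> cases b <;>
    simp [l0, sc3, ty3, c0, c1, l1t] <;> norm_num

lemma gate_rep (τ : S1) (g : Option Bool → ℝ) :
    ∑ r : Rn, cn r τ * g (τ r.1) = ∑ o, (sc1 τ * nt (ty1 τ) o : ℝ) * g o := by
  simp only [Fintype.sum_prod_type, Fin.sum_univ_three, cn, Fin.prod_univ_three, val,
    Fintype.sum_bool, Fintype.sum_option, sc1, ty1]
  simp only [Fin.isValue, Fin.reduceAdd, Fin.reduceEq, if_true, if_false]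
  generalize τ 0 = x; generalize τ 1 = y; generalize τ 2 = z
  rcases x with _ | _ | _ <;> rcases y with _ | _ | _ <;> rcases z with _ | _ | _ <;>
    simp [l0, sc3, ty3, c0, c1, nt] <;> ring

lemma gate_act (τ : S1) (e : Fin 3) (h : τ e = none) (g : Option Bool → ℝ) :
    ∑ r : Rn, (if e = r.1 then cn r τ else 0) * g (τ r.1) =
      ∑ o, ((if o = none then nq (ty1 τ) else 0 : ℕ) : ℝ) * g o := by
  simp only [Fintype.sum_prod_type, Fin.sum_univ_three, cn, Fin.prod_univ_three, val,
    Fintype.sum_bool, Fintype.sum_option, ty1]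
  fin_cases e <;> simp only [Fin.zero_eta, Fin.mk_one, Fin.reduceFinMk, Fin.isValue] at h <;>
  simp only [Fin.zero_eta, Fin.mk_one, Fin.reduceFinMk, Fin.isValue, Fin.reduceAdd, Fin.reduceEq,
    if_true, if_false, h]
  · generalize τ 1 = y; generalize τ 2 = z
    rcases y with _ | _ | _ <;> rcases z with _ | _ | _ <;> simp [l0, ty3, c0, c1, nq] <;> ring
  · generalize τ 0 = y; generalize τ 2 = z
    rcases y with _ | _ | _ <;> rcases z with _ | _ | _ <;> simp [l0, ty3, c0, c1, nq] <;> ring
  · generalize τ 0 = y; generalize τ 1 = z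
    rcases y with _ | _ | _ <;> rcases z with _ | _ | _ <;> simp [l0, ty3, c0, c1, nq] <;> ring

lemma gate_upd (τ : S1) (e : Fin 3) (h : τ e = none) (v : Bool) :
    ty1 (update τ e (some v)) = nx (ty1 τ) v ∧ sc1 τ = 1 ∧
      (2 ≤ ty1 τ → sc1 (update τ e (some v)) = 1) := by
  have H : ∀ (x y z : Option Bool) (e : Fin 3) (v : Bool), ![x, y, z] e = none →
      ty1 (update ![x, y, z] e (some v)) = nx (ty1 ![x, y, z]) v ∧ sc1 ![x, y, z] = 1 ∧
      (2 ≤ ty1 ![x, y, z] → sc1 (update ![x, y, z] e (some v)) = 1) := by decide +kernel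
  have e1 : τ = ![τ 0, τ 1, τ 2] := by funext i; fin_cases i <;> rfl
  rw [e1] at h ⊢
  exact H _ _ _ e v h

lemma triple {α β : Type} [Fintype α] (S : Finset β) (p0 p1 p2 : α → ℝ) (m0 m1 m2 : α → β)
    (n0 n1 n2 : β → ℝ) (h0 : ∀ g : β → ℝ, ∑ r, p0 r * g (m0 r) = ∑ o ∈ S, n0 o * g o)
    (h1 : ∀ g : β → ℝ, ∑ r, p1 r * g (m1 r) = ∑ o ∈ S, n1 o * g o)
    (h2 : ∀ g : β → ℝ, ∑ r, p2 r * g (m2 r) = ∑ o ∈ S, n2 o * g o) (h : β → β → β → ℝ) :
    ∑ a, ∑ b, ∑ c, p0 a * (p1 b * (p2 c * h (m0 a) (m1 b) (m2 c))) =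
      ∑ x ∈ S, ∑ y ∈ S, ∑ z ∈ S, n0 x * (n1 y * (n2 z * h x y z)) := by
  simp only [← mul_sum]
  rw [← h0 fun x => ∑ y ∈ S, n1 y * ∑ z ∈ S, n2 z * h x y z]
  refine sum_congr rfl fun a _ => ?_
  rw [← h1 fun y => ∑ z ∈ S, n2 z * h (m0 a) y z]
  congr 1
  refine sum_congr rfl fun b _ => ?_
  rw [← h2 fun z => h (m0 a) (m1 b) z]

lemma sum_rot {α : Type} [Fintype α] (d : Fin 3) (F : α → α → α → ℝ) :
    ∑ r : Fin 3 → α, F (r d) (r (d + 1)) (r (d + 2)) = ∑ a, ∑ b, ∑ c, F a b c := by
  rw [sum_fin3]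
  fin_cases d
  · exact rfl
  · show ∑ a, ∑ b, ∑ c, F b c a = _
    rw [sum_comm]
    exact sum_congr rfl fun b _ => sum_comm
  · show ∑ a, ∑ b, ∑ c, F c a b = _
    calc ∑ a, ∑ b, ∑ c, F c a b = ∑ a, ∑ c, ∑ b, F c a b := sum_congr rfl fun a _ => sum_comm
      _ = ∑ c, ∑ a, ∑ b, F c a b := sum_comm

lemma prod_rot (d : Fin 3) (f : Fin 3 → ℝ) : ∏ i, f i = f d * (f (d + 1) * f (d + 2)) := by
  rw [Fin.prod_univ_three]
  fin_cases d
  · show _ = f 0 * (f 1 * f 2); ring
  · show _ = f 1 * (f 2 * f 0); ring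
  · show _ = f 2 * (f 0 * f 1); ring

lemma up_rot (d : Fin 3) (φ : Fin 3 → Bool → ℝ) (a) : up φ a =
    2 * (φ d (!a) * φ (d + 1) a * φ (d + 2) a + φ d a * φ (d + 1) (!a) * φ (d + 2) a +
      φ d a * φ (d + 1) a * φ (d + 2) (!a)) := by
  unfold up
  fin_cases d
  · rfl
  · show _ = 2 * (φ 1 (!a) * φ 2 a * φ 0 a + φ 1 a * φ 2 (!a) * φ 0 a + φ 1 a * φ 2 a * φ 0 (!a))
    ring
  · show _ = 2 * (φ 2 (!a) * φ 0 a * φ 1 a + φ 2 a * φ 0 (!a) * φ 1 a + φ 2 a * φ 0 a * φ 1 (!a))
    ring

lemma regroup (N : Option Bool → Option Bool → Option Bool → ℕ) (f : ℕ → ℝ) (K : ℕ → ℕ)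
    (hK : ∀ y < 6, (∑ x, ∑ x', ∑ x'', if ty3 x x' x'' = y then N x x' x'' else 0) = K y) :
    ∑ x, ∑ x', ∑ x'', (N x x' x'' : ℝ) * f (ty3 x x' x'') = ∑ y ∈ range 6, (K y : ℝ) * f y := by
  rw [sum_congr rfl (g := fun y => ((∑ x, ∑ x', ∑ x'', if ty3 x x' x'' = y then N x x' x'' else 0 :
    ℕ) : ℝ) * f y) (s₂ := range 6) fun y hy => by rw [hK y (mem_range.1 hy)]]
  simp only [Nat.cast_sum, sum_mul]
  rw [sum_comm (s := range 6)]
  refine sum_congr rfl fun x _ => ?_
  rw [sum_comm (s := range 6)]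
  refine sum_congr rfl fun x' _ => ?_
  rw [sum_comm (s := range 6)]
  refine sum_congr rfl fun x'' _ => ?_
  simp only [Nat.cast_ite, Nat.cast_zero, ite_mul, zero_mul, sum_ite_eq, mem_range, ty3_lt, if_true]

def ty2n (ν : S2) : ℕ := ty2 (ty1 (ν 0)) (ty1 (ν 1)) (ty1 (ν 2))
def s2 (ν : S2) : ℕ :=
  sc1 (ν 0) * (sc1 (ν 1) * sc1 (ν 2)) * sc2 (ty1 (ν 0)) (ty1 (ν 1)) (ty1 (ν 2))

lemma ty2n_lt (ν) : ty2n ν < 46 := (tab_sym _ (ty1_lt _) _ (ty1_lt _) _ (ty1_lt _)).1

lemma ty2n_rot (ν : S2) (d : Fin 3) :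
    ty2 (ty1 (ν d)) (ty1 (ν (d + 1))) (ty1 (ν (d + 2))) = ty2n ν := by
  fin_cases d
  · rfl
  · exact (tab_sym _ (ty1_lt _) _ (ty1_lt _) _ (ty1_lt _)).2.1
  · exact (tab_sym _ (ty1_lt _) _ (ty1_lt _) _ (ty1_lt _)).2.1.symm

lemma l2_LY (ν : S2) (d : Fin 3) (b) : l2 ν b = sc1 (ν d) * (sc1 (ν (d + 1)) * sc1 (ν (d + 2))) *
    LY (ty1 (ν d)) (ty1 (ν (d + 1))) (ty1 (ν (d + 2))) b := by
  unfold l2
  rw [up_rot d]
  simp only [gate_l1, LY, upN]
  push_cast; ring

lemma l2_s2 (ν : S2) (b) : l2 ν b = s2 ν * l2t (ty2n ν) b := by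
  rw [l2_LY ν 0]
  show (sc1 (ν 0) * (sc1 (ν 1) * sc1 (ν 2)) * LY (ty1 (ν 0)) (ty1 (ν 1)) (ty1 (ν 2)) b : ℝ) = _
  rw [tab_l2 _ (ty1_lt _) _ (ty1_lt _) _ (ty1_lt _), s2, ty2n]
  push_cast; ring

def sub1 (ν : S2) (r : Fin 3 → Rn) : S1 := fun d => ν d (r d).1

lemma node_rep (ν : S2) (f : ℕ → ℝ) :
    ∑ r : Fin 3 → Rn, ((∏ d, cn (r d) (ν d)) * sc1 (sub1 ν r)) * f (ty1 (sub1 ν r)) =
      ∑ y ∈ range 6, (s2 ν * Dt (ty2n ν) y : ℝ) * f y := by
  have h1 := triple univ _ _ _ _ _ _ _ _ _ (gate_rep (ν 0)) (gate_rep (ν 1)) (gate_rep (ν 2))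
    fun x y z => sc3 x y z * f (ty3 x y z)
  rw [← sum_rot 0] at h1
  have h2 := regroup (fun x x' x'' => nt (ty1 (ν 0)) x * nt (ty1 (ν 1)) x' * nt (ty1 (ν 2)) x'' *
    sc3 x x' x'') f _ (tab_D _ (ty1_lt _) _ (ty1_lt _) _ (ty1_lt _))
  have h3 : ∑ y ∈ range 6, (s2 ν * Dt (ty2n ν) y : ℝ) * f y =
      (sc1 (ν 0) * (sc1 (ν 1) * sc1 (ν 2))) * ∑ y ∈ range 6,
        ((sc2 (ty1 (ν 0)) (ty1 (ν 1)) (ty1 (ν 2)) *
          Dt (ty2 (ty1 (ν 0)) (ty1 (ν 1)) (ty1 (ν 2))) y : ℕ) : ℝ) * f y := by
    rw [mul_sum]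
    refine sum_congr rfl fun y _ => ?_
    simp only [s2, ty2n]; push_cast; ring
  rw [h3, ← h2]
  simp only [mul_sum]
  refine Eq.trans (sum_congr rfl fun r _ => ?_) (h1.trans (sum_congr rfl fun x _ =>
    sum_congr rfl fun y _ => sum_congr rfl fun z _ => ?_))
  · rw [prod_rot 0]
    simp only [sc1, ty1, sub1, zero_add, mul_assoc]
  · push_cast; ring

lemma node_act (ν : S2) (d e : Fin 3) (h : ν d e = none) (f : ℕ → ℝ) :
    ∑ r : Fin 3 → Rn, (if e = (r d).1 then (∏ d, cn (r d) (ν d)) * sc1 (sub1 ν r) else 0) *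
      f (ty1 (sub1 ν r)) =
      ∑ y ∈ range 6, (sc1 (ν (d + 1)) * sc1 (ν (d + 2)) *
        adT (ty1 (ν d)) (ty1 (ν (d + 1))) (ty1 (ν (d + 2))) y : ℝ) * f y := by
  have h1 := triple univ _ _ _ _ _ _ _ _ _ (gate_act (ν d) e h) (gate_rep (ν (d + 1)))
    (gate_rep (ν (d + 2))) fun x y z => sc3 x y z * f (ty3 x y z)
  rw [← sum_rot d] at h1
  have h2 := regroup (fun x x' x'' => (if x = none then nq (ty1 (ν d)) else 0) *
    nt (ty1 (ν (d + 1))) x' * nt (ty1 (ν (d + 2))) x'' * sc3 x x' x'') f _
    (tab_A _ (ty1_lt _) _ (ty1_lt _) _ (ty1_lt _))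
  have h3 : ∑ y ∈ range 6, (sc1 (ν (d + 1)) * sc1 (ν (d + 2)) *
        adT (ty1 (ν d)) (ty1 (ν (d + 1))) (ty1 (ν (d + 2))) y : ℝ) * f y =
      (sc1 (ν (d + 1)) * sc1 (ν (d + 2))) * ∑ y ∈ range 6,
        (adT (ty1 (ν d)) (ty1 (ν (d + 1))) (ty1 (ν (d + 2))) y : ℝ) * f y := by
    rw [mul_sum]
    exact sum_congr rfl fun y _ => by ring
  rw [h3, ← h2]
  simp only [mul_sum]
  refine Eq.trans (sum_congr rfl fun r _ => ?_) (h1.trans (sum_congr rfl fun x _ =>
    sum_congr rfl fun y _ => sum_congr rfl fun z _ => ?_))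
  · rw [prod_rot d, ← sc1_rot _ d, ← ty1_rot _ d]
    simp only [sub1]
    split_ifs <;> ring
  · push_cast; ring

end Pool.Agent.Lib.MP_099303_lc
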