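import Pool.Agent.Lib.MP_099303_lc.Gen

/-! Upper bound: a recursive randomised algorithm analysed by a potential table. -/

namespace Pool.Agent.Lib.MP_099303_lc.Up

open scoped ENNReal

/-- randomised labelled decision trees -/
inductive RT (ι : Type)
  | leaf : Bool → RT ι
  | query : ι → RT ι → RT ι → RT ι
  | mix : RT ι → RT ι → RT ι → RT ι

section rt

variable {ι : Type}

def good : RT ι → (ι → Bool) → Bool → Prop
  | .leaf a, _, b => a = b
  | .query i t0 t1, x, b => (x i = false → good t0 x b) ∧ (x i = true → good t1 x b)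
  | .mix t0 t1 t2, x, b => good t0 x b ∧ good t1 x b ∧ good t2 x b

noncomputable def cost : RT ι → (ι → Bool) → ℝ
  | .leaf _, _ => 0
  | .query i t0 t1, x => 1 + bif x i then cost t1 x else cost t0 x
  | .mix t0 t1 t2, x => (cost t0 x + cost t1 x + cost t2 x) / 3

def bind : RT ι → (Bool → RT ι) → RT ι
  | .leaf a, f => f a
  | .query i t0 t1, f => .query i (bind t0 f) (bind t1 f)
  | .mix t0 t1 t2, f => .mix (bind t0 f) (bind t1 f) (bind t2 f)

lemma cost_nonneg (t : RT ι) (x : ι → Bool) : 0 ≤ cost t x := by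
  induction t with
  | leaf a => exact le_rfl
  | query i t0 t1 h0 h1 => cases h : x i <;> simp only [cost, h, cond] <;> positivity
  | mix t0 t1 t2 h0 h1 h2 => simp only [cost]; positivity

lemma bind_spec (f : Bool → RT ι) (x : ι → Bool) (b b' : Bool) (h' : good (f b) x b') (t : RT ι)
    (h : good t x b) : good (bind t f) x b' ∧ cost (bind t f) x = cost t x + cost (f b) x := by
  induction t with
  | leaf a =>
    obtain rfl : a = b := h
    exact ⟨h', (zero_add _).symm⟩
  | query i t0 t1 h0 h1 =>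
    refine ⟨⟨fun e => (h0 (h.1 e)).1, fun e => (h1 (h.2 e)).1⟩, ?_⟩
    cases e : x i
    · simp only [bind, cost, e, cond, (h0 (h.1 e)).2, add_assoc]
    · simp only [bind, cost, e, cond, (h1 (h.2 e)).2, add_assoc]
  | mix t0 t1 t2 h0 h1 h2 =>
    refine ⟨⟨(h0 h.1).1, (h1 h.2.1).1, (h2 h.2.2).1⟩, ?_⟩
    simp only [bind, cost, (h0 h.1).2, (h1 h.2.1).2, (h2 h.2.2).2]
    ring

lemma ex_bind {α β : Type} (p : PMF α) (f : α → PMF β) (g : β → ℝ≥0∞) :
    ∑' b, p.bind f b * g b = ∑' a, p a * ∑' b, f a b * g b := by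
  simp only [PMF.bind_apply, ← ENNReal.tsum_mul_right, ← ENNReal.tsum_mul_left, mul_assoc]
  exact ENNReal.tsum_comm

lemma ex_pure {β : Type} (a : β) (g : β → ℝ≥0∞) : ∑' b, PMF.pure a b * g b = g a := by
  rw [tsum_eq_single a fun b hb => by simp [hb]]
  simp

lemma to_pmf (t : RT ι) : ∃ A : PMF (DT ι), (∀ T ∈ A.support, ∀ x y : ι → Bool,
    (∀ i ∈ T.queried x, y i = x i) → ∀ b b', good t x b → good t y b' → b' = b) ∧
    ∀ x, ∑' T, A T * ((T.queried x).length : ℝ≥0∞) = ENNReal.ofReal (cost t x) := by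
  induction t with
  | leaf a =>
    refine ⟨PMF.pure .halt, fun T _ x y _ b b' h h' => h'.symm.trans h, fun x => ?_⟩
    rw [ex_pure]
    simp [DT.queried, cost]
  | query i t0 t1 h0 h1 =>
    obtain ⟨A0, p0, q0⟩ := h0
    obtain ⟨A1, p1, q1⟩ := h1
    refine ⟨A0.bind fun T0 => A1.bind fun T1 => PMF.pure (.query i T0 T1), ?_, fun x => ?_⟩
    · intro T hT x y hxy b b' h h'
      simp only [PMF.mem_support_bind_iff, PMF.mem_support_pure_iff] at hT
      obtain ⟨T0, m0, T1, m1, rfl⟩ := hT
      have e := hxy i (by simp [DT.queried])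
      cases ex : x i
      · exact p0 T0 m0 x y (fun j hj => hxy j (by simp [DT.queried, ex, hj])) b b' (h.1 ex)
          (h'.1 (e.trans ex))
      · exact p1 T1 m1 x y (fun j hj => hxy j (by simp [DT.queried, ex, hj])) b b' (h.2 ex)
          (h'.2 (e.trans ex))
    · simp only [ex_bind, ex_pure]
      cases ex : x i
      · simp only [DT.queried, ex, cond, cost, List.length_cons, Nat.cast_succ,
          ENNReal.tsum_mul_right, PMF.tsum_coe, one_mul, mul_add, ENNReal.tsum_add, q0, mul_one]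
        rw [ENNReal.ofReal_add zero_le_one (cost_nonneg _ _), ENNReal.ofReal_one, add_comm]
      · simp only [DT.queried, ex, cond, cost, List.length_cons, Nat.cast_succ,
          ENNReal.tsum_mul_right, PMF.tsum_coe, one_mul, mul_add, ENNReal.tsum_add, q1, mul_one]
        rw [ENNReal.ofReal_add zero_le_one (cost_nonneg _ _), ENNReal.ofReal_one, add_comm]
  | mix t0 t1 t2 h0 h1 h2 =>
    obtain ⟨A0, p0, q0⟩ := h0
    obtain ⟨A1, p1, q1⟩ := h1
    obtain ⟨A2, p2, q2⟩ := h2
    refine ⟨(PMF.uniformOfFintype (Fin 3)).bind ![A0, A1, A2], ?_, fun x => ?_⟩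
    · intro T hT x y hxy b b' h h'
      obtain ⟨r, -, m⟩ := (PMF.mem_support_bind_iff _ _ _).1 hT
      fin_cases r
      exacts [p0 T m x y hxy b b' h.1 h'.1, p1 T m x y hxy b b' h.2.1 h'.2.1,
        p2 T m x y hxy b b' h.2.2 h'.2.2]
    · rw [ex_bind, tsum_fintype, Fin.sum_univ_three]
      simp only [PMF.uniformOfFintype_apply, Fintype.card_fin, Matrix.cons_val_zero,
        Matrix.cons_val_one, Matrix.cons_val, q0, q1, q2, cost]
      have c0 := cost_nonneg t0 x
      have c1 := cost_nonneg t1 x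
      rw [ENNReal.ofReal_div_of_pos (by norm_num), ENNReal.ofReal_add (add_nonneg c0 c1)
        (cost_nonneg _ _), ENNReal.ofReal_add c0 c1, div_eq_mul_inv, ENNReal.ofReal_ofNat]
      push_cast
      ring

/-- `g` can be computed with expected cost at most `c`. -/
def Ach (g : (ι → Bool) → Bool) (c : (ι → Bool) → ℝ) : Prop :=
  ∃ t : RT ι, ∀ x, good t x (g x) ∧ cost t x ≤ c x

variable {g g' : (ι → Bool) → Bool} {c c' : (ι → Bool) → ℝ}

lemma Ach.R_le {C : ℝ} (h : Ach g fun _ => C) : R g ≤ ENNReal.ofReal C := by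
  obtain ⟨t, ht⟩ := h
  obtain ⟨A, p, q⟩ := to_pmf t
  refine iInf₂_le_of_le A (fun T hT x y hxy => p T hT x y hxy _ _ (ht x).1 (ht y).1)
    (iSup_le fun x => ?_)
  rw [q]
  exact ENNReal.ofReal_le_ofReal (ht x).2

lemma Ach.mono (h : Ach g c) (h1 : ∀ x, g x = g' x) (h2 : ∀ x, c x ≤ c' x) : Ach g' c' :=
  h.imp fun _ ht x => ⟨h1 x ▸ (ht x).1, (ht x).2.trans (h2 x)⟩

lemma ach_const (b : Bool) : Ach (fun _ : ι → Bool => b) fun _ => 0 :=
  ⟨.leaf b, fun _ => ⟨rfl, le_rfl⟩⟩

lemma Ach.seq {G : Bool → (ι → Bool) → Bool} {C : Bool → (ι → Bool) → ℝ} (h : Ach g c)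
    (H : ∀ b, Ach (G b) (C b)) : Ach (fun x => G (g x) x) fun x => c x + C (g x) x := by
  obtain ⟨t, ht⟩ := h
  choose f hf using H
  refine ⟨bind t f, fun x => ?_⟩
  obtain ⟨h1, h2⟩ := bind_spec f x _ _ (hf (g x) x).1 t (ht x).1
  exact ⟨h1, h2 ▸ add_le_add (ht x).2 (hf _ x).2⟩

lemma Ach.mix {c'' : (ι → Bool) → ℝ} (h : Ach g c) (h' : Ach g c') (h'' : Ach g c'') :
    Ach g fun x => (c x + c' x + c'' x) / 3 := by
  obtain ⟨t, ht⟩ := h
  obtain ⟨t', ht'⟩ := h'
  obtain ⟨t'', ht''⟩ := h''
  refine ⟨.mix t t' t'', fun x => ⟨⟨(ht x).1, (ht' x).1, (ht'' x).1⟩, ?_⟩⟩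
  simp only [cost]
  linarith [(ht x).2, (ht' x).2, (ht'' x).2]

lemma Ach.maj3 {g'' : (ι → Bool) → Bool} {C : ℝ} (h : Ach g fun _ => C) (h' : Ach g' fun _ => C)
    (h'' : Ach g'' fun _ => C) : Ach (fun x => maj (g x) (g' x) (g'' x)) fun _ => C * 3 :=
  (h.seq (G := fun a x => maj a (g' x) (g'' x)) fun a =>
    h'.seq (G := fun b x => maj a b (g'' x)) fun b =>
      h''.seq (G := fun d _ => maj a b d) fun _ => ach_const _).mono (fun _ => rfl)
    fun _ => by linarith

lemma ach_iter : ∀ (h : ℕ) (e : Fin (3 ^ h) → ι),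
    Ach (fun x => iterMaj h fun j => x (e j)) fun _ => 3 ^ h
  | 0, e => ⟨.query (e 0) (.leaf false) (.leaf true), fun x =>
      ⟨⟨fun h => h.symm, fun h => h.symm⟩, by cases h : x (e 0) <;> simp [cost, h]⟩⟩
  | h + 1, e => ((ach_iter h fun i => e (blk h 0 i)).maj3 (ach_iter h fun i => e (blk h 1 i))
      (ach_iter h fun i => e (blk h 2 i))).mono (fun _ => rfl) fun _ => (pow_succ _ _).ge

end rt

/-- partially evaluated trees: untouched subtree, known value, gate -/
inductive S (α : Type)
  | U : α → S α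
  | K : Bool → S α
  | N : S α → S α → S α → S α
  deriving DecidableEq

section st

variable {α β : Type}

def S.map (f : α → β) : S α → S β
  | .U i => .U (f i)
  | .K b => .K b
  | .N a b c => .N (a.map f) (b.map f) (c.map f)

def val (g : α → Bool) : S α → Bool
  | .U i => g i
  | .K b => b
  | .N a b c => maj (val g a) (val g b) (val g c)

def Ht (H : α → ℕ) : S α → ℕ → Prop
  | .U i, h => H i = h
  | .K _, _ => True
  | .N a b c, h => ∃ h', h = h' + 1 ∧ Ht H a h' ∧ Ht H b h' ∧ Ht H c h'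

def key : S α → ℕ
  | .U _ => 0
  | .K b => bif b then 2 else 1
  | .N a b c => 3 + Nat.pair (key a) (Nat.pair (key b) (key c))

def srt (a b c : S α) : S α :=
  if key a ≤ key b then (if key b ≤ key c then .N a b c else if key a ≤ key c then .N a c b
    else .N c a b)
  else if key a ≤ key c then .N b a c else if key b ≤ key c then .N b c a else .N c b a

def isK (v : Bool) : S α → Bool
  | .K b => b == v
  | _ => false

def mk (a b c : S α) : S α :=
  if maj (isK false a) (isK false b) (isK false c) then .K false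
  else if maj (isK true a) (isK true b) (isK true c) then .K true else srt a b c

def norm : S α → S α
  | .N a b c => mk (norm a) (norm b) (norm c)
  | s => s

def sub : List ℕ → S α → S α
  | i :: p, .N a b c => if i = 0 then sub p a else if i = 1 then sub p b else sub p c
  | _, s => s

def put : List ℕ → S α → S α → S α
  | i :: p, .N a b c, y => if i = 0 then .N (put p a y) b c else if i = 1 then .N a (put p b y) c
      else .N a b (put p c y)
  | _, _, y => y

def okp : List ℕ → S α → Bool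
  | [], _ => true
  | i :: p, .N a b c => if i = 0 then okp p a else if i = 1 then okp p b else okp p c
  | _, _ => false

variable {g : α → Bool} {H : α → ℕ}

lemma val_map (f : β → α) (s : S β) : val g (s.map f) = val (fun i => g (f i)) s := by
  induction s with
  | U i => rfl
  | K b => rfl
  | N a b c ha hb hc => simp only [S.map, val, ha, hb, hc]

lemma ht_map (f : β → α) (s : S β) : ∀ h, Ht H (s.map f) h ↔ Ht (fun i => H (f i)) s h := by
  induction s with
  | U i => exact fun _ => Iff.rfl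
  | K b => exact fun _ => Iff.rfl
  | N a b c ha hb hc => intro h; simp only [S.map, Ht, ha, hb, hc]

lemma val_isK {v : Bool} {s : S α} (h : isK v s = true) : val g s = v := by
  cases s <;> simp_all [isK, val]

lemma val_mk (a b c : S α) : val g (mk a b c) = maj (val g a) (val g b) (val g c) := by
  have h : ∀ v, maj (isK v a) (isK v b) (isK v c) = true →
      v = maj (val g a) (val g b) (val g c) := fun v h => by
    simp only [maj, Bool.or_eq_true, Bool.and_eq_true] at h
    rcases h with (⟨h1, h2⟩ | ⟨h1, h2⟩) | ⟨h1, h2⟩ <;> rw [val_isK h1, val_isK h2] <;>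
      cases v <;> simp [maj]
  unfold mk srt
  split_ifs with h1 h2
  · exact h _ h1
  · exact h _ h2
  all_goals
    simp only [val]
  all_goals
    generalize val g a = x
    generalize val g b = y
    generalize val g c = z
    revert x y z
    decide

lemma val_norm (s : S α) : val g (norm s) = val g s := by
  induction s with
  | U i => rfl
  | K b => rfl
  | N a b c ha hb hc => simp only [norm, val_mk, val, ha, hb, hc]

lemma ht_norm (s : S α) : ∀ h, Ht H s h → Ht H (norm s) h := by
  induction s with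
  | U i => exact fun _ h => h
  | K b => exact fun _ h => h
  | N a b c ha hb hc =>
    rintro _ ⟨h, rfl, h1, h2, h3⟩
    have := ha _ h1
    have := hb _ h2
    have := hc _ h3
    simp only [norm, mk, srt]
    split_ifs <;> first | trivial | exact ⟨h, rfl, by tauto⟩

lemma val_put {y : S α} : ∀ (p : List ℕ) (s : S α), val g y = val g (sub p s) →
    val g (put p s y) = val g s
  | [], _, h => by simpa only [put, sub] using h
  | _ :: _, .U _, h => h
  | _ :: _, .K _, h => h
  | i :: p, .N a b c, h => by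
    simp only [sub, put] at h ⊢
    split_ifs at h ⊢ <;> simp only [val, val_put p _ h]

lemma ht_sub {y : S α} : ∀ (p : List ℕ) (s : S α) (h : ℕ), okp p s = true → Ht H s h →
    ∃ h', h = h' + p.length ∧ Ht H (sub p s) h' ∧ (Ht H y h' → Ht H (put p s y) h)
  | [], s, h, _, h1 => ⟨h, rfl, by simpa only [sub] using h1, by simp only [put, imp_self]⟩
  | _ :: _, .U _, _, h, _ => by simp [okp] at h
  | _ :: _, .K _, _, h, _ => by simp [okp] at h
  | i :: p, .N a b c, _, h0, ⟨h, rfl, h1, h2, h3⟩ => by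
    simp only [okp, sub, put] at h0 ⊢
    split_ifs at h0 ⊢
    · obtain ⟨h', rfl, e1, e2⟩ := ht_sub (y := y) p a h h0 h1
      exact ⟨h', rfl, e1, fun e => ⟨_, rfl, e2 e, h2, h3⟩⟩
    · obtain ⟨h', rfl, e1, e2⟩ := ht_sub (y := y) p b h h0 h2
      exact ⟨h', rfl, e1, fun e => ⟨_, rfl, h1, e2 e, h3⟩⟩
    · obtain ⟨h', rfl, e1, e2⟩ := ht_sub (y := y) p c h h0 h3
      exact ⟨h', rfl, e1, fun e => ⟨_, rfl, h1, h2, e2 e⟩⟩

end st

end Pool.Agent.Lib.MP_099303_lc.Up
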