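import Pool.Agent.Lib.MP_099303_lc.UpB

/-! Upper bound with typed leaves: the potential of a node may depend on which gates below its
untouched subtrees are unanimous. -/

namespace Pool.Agent.Lib.MP_099303_lc.Up.T

open scoped ENNReal

noncomputable section

/-- type of a gate from the types of its inputs: value, unanimous or not, and whether the
minority input is unanimous -/
def comb (a b c : ℕ) : ℕ :=
  bif Nat.beq (a % 2) (b % 2) then
    (bif Nat.beq (a % 2) (c % 2) then 4 + a % 2 else a % 2 + 2 * (c / 4))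
  else bif Nat.beq (a % 2) (c % 2) then a % 2 + 2 * (b / 4) else b % 2 + 2 * (a / 4)

def vb (n : ℕ) : Bool := Nat.beq (Nat.mod n 2) 1

def dig (r t : ℕ) : ℕ :=
  bif Nat.beq r 1 then Nat.mod t 2 else bif Nat.beq r 2 then
    Nat.add (Nat.mod t 2) (Nat.mul 2 (Nat.div t 4)) else t

def rad (r : ℕ) : ℕ := bif Nat.beq r 1 then 2 else bif Nat.beq r 2 then 4 else 6

def pr (r t : ℕ) : ℕ :=
  if r = 0 then 0 else if r = 1 then t % 2 else if r = 2 then t % 2 + 4 * (t / 4) else t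

def reps (r : ℕ) : List ℕ :=
  bif Nat.beq r 0 then [0] else bif Nat.beq r 1 then [0, 1] else
    bif Nat.beq r 2 then [0, 1, 4, 5] else [0, 1, 2, 3, 4, 5]

lemma comb_spec : ∀ a < 6, ∀ b < 6, ∀ c < 6, comb a b c < 6 ∧
    vb (comb a b c) = maj (vb a) (vb b) (vb c) ∧ comb a b c = comb b c a := by decide +kernel

lemma dig_pr : ∀ s < 4, ∀ r ≤ s, 1 ≤ r → ∀ t < 6, dig r (pr s t) = dig r t := by decide +kernel

lemma vb_pr : ∀ s < 4, 1 ≤ s → ∀ t < 6, vb (pr s t) = vb t := by decide +kernel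

set_option synthInstance.maxSize 2048 in
lemma dig_comb : ∀ s < 4, 1 ≤ s → ∀ r ≤ s + 1, 1 ≤ r → ∀ a < 6, ∀ b < 6, ∀ c < 6,
    dig r (comb (pr s a) (pr s b) (pr s c)) = dig r (comb a b c) := by decide +kernel

lemma pr_mem : ∀ s < 4, ∀ t < 6, pr s t ∈ reps s ∧ pr s t < 8 := by decide +kernel

def ix (g : ℕ → ℕ) (P : List (ℕ × ℕ)) : ℕ :=
  List.rec 0 (fun q _ ih => Nat.add (dig q.1 (g q.2)) (Nat.mul (rad q.1) ih)) P

lemma ix_map (g f : ℕ → ℕ) (P : List (ℕ × ℕ)) :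
    ix g (P.map fun q => (q.1, f q.2)) = ix (fun i => g (f i)) P := by
  induction P with
  | nil => rfl
  | cons q P ih => exact congrArg (fun z => Nat.add (dig q.1 (g (f q.2))) (Nat.mul (rad q.1) z)) ih

lemma ix_congr {g g' : ℕ → ℕ} {P : List (ℕ × ℕ)}
    (h : ∀ q ∈ P, dig q.1 (g q.2) = dig q.1 (g' q.2)) : ix g P = ix g' P := by
  induction P with
  | nil => rfl
  | cons q P ih =>
    exact congrArg₂ (fun y z => Nat.add y (Nat.mul (rad q.1) z)) (h q List.mem_cons_self)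
      (ih fun q' hq => h q' (List.mem_cons_of_mem _ hq))

def dg (a i : ℕ) : ℕ := Nat.mod (Nat.shiftRight a (Nat.mul 3 i)) 8

def rt (a : ℕ) : ℕ :=
  Nat.add (Nat.add (Nat.mod (Nat.div a 8) 64) (Nat.mul 64 (Nat.mod a 8)))
    (Nat.mul 512 (Nat.div a 512))

def rot (i : ℕ) : ℕ := if i = 0 then 1 else if i = 1 then 2 else if i = 2 then 0 else i

lemma dg_eq (a i : ℕ) : dg a i = a / 8 ^ i % 8 := by
  show (a >>> (3 * i)) % 8 = _
  rw [Nat.shiftRight_eq_div_pow, pow_mul]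
  rfl

lemma dg_rt (a i : ℕ) : dg (rt a) i = dg a (rot i) := by
  obtain ⟨x, y, z, q, hx, hy, hz, rfl⟩ : ∃ x y z q, x < 8 ∧ y < 8 ∧ z < 8 ∧
      a = x + 8 * y + 64 * z + 512 * q :=
    ⟨a % 8, a / 8 % 8, a / 64 % 8, a / 512, by omega, by omega, by omega, by omega⟩
  have e : rt (x + 8 * y + 64 * z + 512 * q) = y + 8 * z + 64 * x + 512 * q := by
    have h1 : (x + 8 * y + 64 * z + 512 * q) / 8 = y + 8 * z + 64 * q := by omega
    have h2 : (x + 8 * y + 64 * z + 512 * q) % 8 = x := by omega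
    have h3 : (x + 8 * y + 64 * z + 512 * q) / 512 = q := by omega
    show (x + 8 * y + 64 * z + 512 * q) / 8 % 64 + 64 * ((x + 8 * y + 64 * z + 512 * q) % 8) +
      512 * ((x + 8 * y + 64 * z + 512 * q) / 512) = _
    rw [h1, h2, h3]
    omega
  have d : ∀ x y z q : ℕ, x < 8 → y < 8 → z < 8 → (x + 8 * y + 64 * z + 512 * q) / 8 ^ 0 % 8 = x ∧
      (x + 8 * y + 64 * z + 512 * q) / 8 ^ 1 % 8 = y ∧
      (x + 8 * y + 64 * z + 512 * q) / 8 ^ 2 % 8 = z ∧
      (x + 8 * y + 64 * z + 512 * q) / 512 = q := fun x y z q _ _ _ =>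
    ⟨by omega, by omega, by omega, by omega⟩
  obtain ⟨a0, a1, a2, a3⟩ := d x y z q hx hy hz
  obtain ⟨b0, b1, b2, b3⟩ := d y z x q hy hz hx
  rw [dg_eq, dg_eq, e]
  rcases i with _ | _ | _ | i
  · exact b0.trans a1.symm
  · exact b1.trans a2.symm
  · exact b2.trans a0.symm
  · have h : rot (i + 1 + 1 + 1) = i + 1 + 1 + 1 := by simp [rot]
    have h2 : (8 : ℕ) ^ (i + 1 + 1 + 1) = 512 * 8 ^ i := by ring
    rw [h, h2, ← Nat.div_div_eq_div_mul, ← Nat.div_div_eq_div_mul, a3, b3]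

def pack : List ℕ → (ℕ → ℕ) → ℕ
  | [], _ => 0
  | r :: t, g => pr r (g 0) + 8 * pack t fun i => g (i + 1)

def allA (cr : List ℕ) : (ℕ → Bool) → Bool :=
  List.rec (fun P => P 0)
    (fun r _ ih P => ih fun a => (reps r).all fun d => P (Nat.add d (Nat.mul 8 a))) cr

lemma allA_spec : ∀ (cr : List ℕ) (P : ℕ → Bool) (g : ℕ → ℕ), (∀ r ∈ cr, r < 4) →
    (∀ i, g i < 6) → allA cr P = true → P (pack cr g) = true
  | [], _, _, _, _, h => h
  | r :: t, P, g, h1, h2, h =>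
    List.all_eq_true.1 (allA_spec t (fun a => (reps r).all fun d => P (Nat.add d (Nat.mul 8 a)))
      (fun i => g (i + 1)) (fun r' hr => h1 r' (List.mem_cons_of_mem _ hr)) (fun _ => h2 _) h) _
      (pr_mem r (h1 r List.mem_cons_self) _ (h2 0)).1

lemma dg_pack : ∀ (cr : List ℕ) (g : ℕ → ℕ), (∀ r ∈ cr, r < 4) → (∀ i, g i < 6) →
    ∀ i, dg (pack cr g) i = pr (cr.getD i 0) (g i)
  | [], _, _, _, i => by simp [dg_eq, pack, pr]
  | r :: t, g, h1, h2, 0 => by
    have := (pr_mem r (h1 r List.mem_cons_self) _ (h2 0)).2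
    simp only [dg_eq, pack, List.getD_cons_zero]
    omega
  | r :: t, g, h1, h2, i + 1 => by
    have := (pr_mem r (h1 r List.mem_cons_self) _ (h2 0)).2
    have ih := dg_pack t (fun i => g (i + 1)) (fun r' hr => h1 r' (List.mem_cons_of_mem _ hr))
      (fun i => h2 _) i
    rw [List.getD_cons_succ, ← ih, dg_eq, dg_eq, pow_succ', ← Nat.div_div_eq_div_mul, pack]
    congr 2
    omega

def okv (f : ℕ → Bool) : S ℕ → Bool
  | .U i => f i
  | .K _ => true
  | .N a b c => okv f a && okv f b && okv f c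

lemma val_congr {f : ℕ → Bool} {g g' : ℕ → Bool} (h : ∀ i, f i = true → g i = g' i) (s : S ℕ)
    (hs : okv f s = true) : val g s = val g' s := by
  induction s with
  | U i => exact h i hs
  | K b => rfl
  | N a b c ha hb hc =>
    simp only [okv, Bool.and_eq_true] at hs
    simp only [val, ha hs.1.1, hb hs.1.2, hc hs.2]

def vr (g : ℕ → Bool) (s : S ℕ) : Bool :=
  S.rec (fun i => g i) (fun b => b) (fun _ _ _ x y z => maj x y z) s

lemma vr_eq (g : ℕ → Bool) (s : S ℕ) : vr g s = val g s := by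
  induction s with
  | U i => rfl
  | K b => rfl
  | N a b c ha hb hc =>
    simp only [val, ← ha, ← hb, ← hc]
    rfl

/-- a reference to a node, with the resolution and the source of each of its leaves -/
structure Ref where
  k : ℕ
  P : List (ℕ × ℕ)

inductive Act
  | go : Ref → Act
  | cp : List ℕ → ℕ → S ℕ → Ref → Ref → Ref → Act

/-- tables of numbers -/
inductive Tr
  | lf : ℕ → Tr
  | br : Tr → Tr → Tr

structure Nd where
  s : S ℕ
  op : Option (List ℕ × ℕ)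
  act : Act
  own : List (ℕ × ℕ)
  cr : List ℕ
  w : Tr

def ent (w : Tr) : ℕ → ℕ :=
  Tr.rec (fun x i => Nat.succ (Nat.mod (Nat.shiftRight x (Nat.mul 40 i)) 1099511627776))
    (fun _ _ l r i => bif Nat.beq (Nat.mod i 2) 0 then l (Nat.div i 2) else r (Nat.div i 2)) w

lemma ent_bd (w : Tr) : ∀ i, 1 ≤ ent w i ∧ ent w i ≤ 1099511627776 := by
  induction w with
  | lf x => exact fun i => ⟨Nat.succ_pos _, Nat.mod_lt _ (by norm_num)⟩
  | br l r hl hr =>
    intro i
    show 1 ≤ (bif _ then ent l _ else ent r _) ∧ (bif _ then ent l _ else ent r _) ≤ _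
    cases Nat.beq (Nat.mod i 2) 0
    exacts [hr _, hl _]

def lb (r : Ref) (i : ℕ) : ℕ := (r.P.getD i (0, 0)).2

def up (i : ℕ) : ℕ := i + 3

section tab

variable (nd : ℕ → Nd) (n : ℕ)

def W (k : ℕ) (g : ℕ → ℕ) : ℕ := ent (nd k).w (ix g (nd k).own)

def WR (g : ℕ → ℕ) (r : Ref) : ℕ := ent (nd r.k).w (ix g r.P)

def okR (cr : List ℕ) (r : Ref) : Prop :=
  r.P = (nd r.k).own.map (fun q => (q.1, lb r q.2)) ∧ ∀ q ∈ r.P, 1 ≤ q.1 ∧ q.1 ≤ cr.getD q.2 0

def okA (k : ℕ) (cr : List ℕ) (s : S ℕ) : Act → Prop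
  | .go r => r.k < k ∧ okR nd cr r ∧ norm s = (nd r.k).s.map (lb r)
  | .cp p c sh t r0 r1 => p.length ≤ 3 ∧ 1 ≤ p.length ∧ okp p s = true ∧ r0.k < k ∧ r1.k < k ∧
      t.k < n ∧ okR nd cr t ∧ okR nd cr r0 ∧ okR nd cr r1 ∧ sub p s = sh ∧
      sh = (nd t.k).s.map (lb t) ∧ norm (put p s (.K false)) = (nd r0.k).s.map (lb r0) ∧
      norm (put p s (.K true)) = (nd r1.k).s.map (lb r1) ∧
      c = 10000000 ^ p.length * 26494381 ^ (3 - p.length) ∧
      okv (fun i => decide (1 ≤ cr.getD i 0)) sh = true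

def ev (g : ℕ → ℕ) : Act → ℕ
  | .go r => Nat.mul 18597789681638889908341 (WR nd g r)
  | .cp _ c sh t r0 r1 => Nat.add (Nat.mul c (WR nd g t)) (Nat.mul 18597789681638889908341
      (bif vr (fun i => vb (g i)) sh then WR nd g r1 else WR nd g r0))

def row (d : Nd) : Option (List ℕ × ℕ) → ℕ → Bool
  | none => fun a => Nat.ble (ev nd (dg a) d.act)
      (Nat.mul 18597789681638889908341 (ent d.w (ix (fun i => dg a (Nat.add i 3)) d.own)))
  | some q => fun a => Nat.ble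
      (Nat.add (Nat.add (ev nd (dg a) d.act) (ev nd (dg (rt a)) d.act))
        (ev nd (dg (rt (rt a))) d.act))
      (Nat.mul 55793369044916669725023 (ent d.w (ix (fun i => bif Nat.beq i q.2 then
        comb (dg a 0) (dg a 1) (dg a 2) else dg a (Nat.add i 3)) d.own)))

def okS (k : ℕ) (d : Nd) : Option (List ℕ × ℕ) → Prop
  | none => (∀ r ∈ d.cr, r < 4) ∧ (∀ q ∈ d.own, 1 ≤ q.1 ∧ q.1 ≤ d.cr.getD (up q.2) 0) ∧
      okA nd n k d.cr (d.s.map up) d.act
  | some q => (∀ r ∈ d.cr, r < 4) ∧ 1 ≤ d.cr.getD 0 0 ∧ d.cr.getD 1 0 = d.cr.getD 0 0 ∧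
      d.cr.getD 2 0 = d.cr.getD 0 0 ∧ (∀ z ∈ d.own, 1 ≤ z.1 ∧
        z.1 ≤ if z.2 = q.2 then d.cr.getD 0 0 + 1 else d.cr.getD (up z.2) 0) ∧
      q.1.length ≤ 2 ∧ okp q.1 (d.s.map up) = true ∧ sub q.1 (d.s.map up) = .U (up q.2) ∧
      okA nd n k d.cr (put q.1 (d.s.map up) (.N (.U 0) (.U 1) (.U 2))) d.act

instance (cr r) : Decidable (okR nd cr r) := by unfold okR; infer_instance
instance (k cr s a) : Decidable (okA nd n k cr s a) := by cases a <;> unfold okA <;> infer_instance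
instance (k d o) : Decidable (okS nd n k d o) := by cases o <;> unfold okS <;> infer_instance

/-- the rows of node `k` whose code is `j` modulo `m` -/
def chk (k m j : ℕ) : Bool :=
  allA (nd k).cr fun a => bif Nat.beq (Nat.mod a m) j then row nd (nd k) (nd k).op a else true

variable {nd n}

lemma WR_eq {cr : List ℕ} {r : Ref} (h : okR nd cr r) (g : ℕ → ℕ) :
    WR nd g r = W nd r.k fun i => g (lb r i) := by
  rw [WR, W, ← ix_map g (lb r), ← h.1]

lemma getD_lt {cr : List ℕ} (h : ∀ r ∈ cr, r < 4) (i : ℕ) : cr.getD i 0 < 4 := by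
  rw [List.getD_eq_getElem?_getD]
  rcases e : cr[i]? with _ | r
  · exact Nat.succ_pos _
  · exact h r (List.mem_of_getElem? e)

lemma WR_pr {cr : List ℕ} (hc : ∀ r ∈ cr, r < 4) {r : Ref} (h : okR nd cr r) {g g' : ℕ → ℕ}
    (hg : ∀ i, g i < 6) (e : ∀ i, g' i = pr (cr.getD i 0) (g i)) : WR nd g' r = WR nd g r := by
  rw [WR, WR, ix_congr fun q hq => ?_]
  rw [e]
  exact dig_pr _ (getD_lt hc _) _ (h.2 q hq).2 (h.2 q hq).1 _ (hg _)

lemma ev_pr {k : ℕ} {cr : List ℕ} (hc : ∀ r ∈ cr, r < 4) {s : S ℕ} {a : Act}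
    (h : okA nd n k cr s a) {g g' : ℕ → ℕ} (hg : ∀ i, g i < 6)
    (e : ∀ i, g' i = pr (cr.getD i 0) (g i)) : ev nd g' a = ev nd g a := by
  cases a with
  | go r => simp only [ev, WR_pr hc h.2.1 hg e]
  | cp p c sh t r0 r1 =>
    obtain ⟨-, -, -, -, -, -, o1, o2, o3, -, -, -, -, -, o4⟩ := h
    simp only [ev, WR_pr hc o1 hg e, WR_pr hc o2 hg e, WR_pr hc o3 hg e, vr_eq]
    rw [val_congr (g := fun i => vb (g' i)) (g' := fun i => vb (g i)) (fun i hi => ?_) sh o4]
    rw [e]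
    exact vb_pr _ (getD_lt hc _) (of_decide_eq_true hi) _ (hg _)

lemma row_none {k : ℕ} (h : okS nd n k (nd k) none)
    (hr : ∀ g : ℕ → ℕ, (∀ i, g i < 6) → row nd (nd k) none (pack (nd k).cr g) = true)
    (g : ℕ → ℕ) (hg : ∀ i, g i < 6) :
    ev nd g (nd k).act ≤ 26494381 ^ 3 * W nd k fun i => g (up i) := by
  have e := dg_pack _ g h.1 hg
  have h1 := Nat.le_of_ble_eq_true (hr g hg)
  rw [ev_pr h.1 h.2.2 hg e, ix_congr (g' := fun i => g (up i)) fun q hq => ?_] at h1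
  · exact h1
  · exact (congrArg _ (e _)).trans
      (dig_pr _ (getD_lt h.1 _) _ (h.2.1 q hq).2 (h.2.1 q hq).1 _ (hg _))

lemma row_some {k : ℕ} {q : List ℕ × ℕ} (h : okS nd n k (nd k) (some q))
    (hr : ∀ g : ℕ → ℕ, (∀ i, g i < 6) → row nd (nd k) (some q) (pack (nd k).cr g) = true)
    (g : ℕ → ℕ) (hg : ∀ i, g i < 6) (hq : g (up q.2) = comb (g 0) (g 1) (g 2)) :
    ev nd g (nd k).act + ev nd (fun i => g (rot i)) (nd k).act +
      ev nd (fun i => g (rot (rot i))) (nd k).act ≤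
      3 * (26494381 ^ 3 * W nd k fun i => g (up i)) := by
  obtain ⟨o1, o2, o3, o4, o5, -, -, -, o6⟩ := h
  have e := dg_pack _ g o1 hg
  have er : ∀ i, (nd k).cr.getD (rot i) 0 = (nd k).cr.getD i 0 := fun i => by
    unfold rot
    split_ifs with a b c
    · rw [a, o3]
    · rw [b, o3, o4]
    · rw [c, o4]
    · rfl
  have h1 := Nat.le_of_ble_eq_true (hr g hg)
  have r1 := ev_pr (g := fun i => g (rot i)) (g' := dg (rt (pack (nd k).cr g))) o1 o6
    (fun _ => hg _) fun i => by rw [dg_rt, e, er]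
  have r2 := ev_pr (g := fun i => g (rot (rot i))) (g' := dg (rt (rt (pack (nd k).cr g)))) o1 o6
    (fun _ => hg _) fun i => by rw [dg_rt, dg_rt, e, er, er]
  rw [ev_pr o1 o6 hg e, r1, r2, ix_congr (g' := fun i => g (up i)) fun z hz => ?_] at h1
  · rw [← mul_assoc]
    exact h1
  · obtain ⟨z1, z2⟩ := o5 z hz
    by_cases c : z.2 = q.2
    · rw [if_pos c] at z2
      rw [c, Nat.beq_refl, cond_true, hq, e, e, e, o3, o4]
      exact dig_comb _ (getD_lt o1 _) o2 _ z2 z1 _ (hg _) _ (hg _) _ (hg _)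
    · rw [if_neg c] at z2
      rw [Bool.eq_false_iff.2 fun h => c (Nat.eq_of_beq_eq_true h), cond_false]
      exact (congrArg _ (e _)).trans (dig_pr _ (getD_lt o1 _) _ z2 z1 _ (hg _))

lemma chk_row {k m : ℕ} (hm : 0 < m) (hc : ∀ r ∈ (nd k).cr, r < 4)
    (h : ∀ j < m, chk nd k m j = true) (g : ℕ → ℕ) (hg : ∀ i, g i < 6) :
    row nd (nd k) (nd k).op (pack (nd k).cr g) = true := by
  have := allA_spec _ _ g hc hg (h _ (Nat.mod_lt (pack (nd k).cr g) hm))
  rwa [show Nat.beq (Nat.mod (pack (nd k).cr g) m) (pack (nd k).cr g % m) = true from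
    Nat.beq_refl _, cond_true] at this

variable {ι : Type}

def tyF (x : ι → Bool) : (h : ℕ) → (Fin (3 ^ h) → ι) → ℕ
  | 0, e => (x (e 0)).toNat
  | h + 1, e => comb (tyF x h fun i => e (blk h 0 i)) (tyF x h fun i => e (blk h 1 i))
      (tyF x h fun i => e (blk h 2 i))

lemma tyF_spec (x : ι → Bool) : ∀ (h : ℕ) (e : Fin (3 ^ h) → ι),
    tyF x h e < 6 ∧ vb (tyF x h e) = iterMaj h fun j => x (e j)
  | 0, e => by
    show (x (e 0)).toNat < 6 ∧ vb (x (e 0)).toNat = x (e 0)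
    cases x (e 0) <;> decide
  | h + 1, e => by
    have a := tyF_spec x h fun i => e (blk h 0 i)
    have b := tyF_spec x h fun i => e (blk h 1 i)
    have c := tyF_spec x h fun i => e (blk h 2 i)
    have d := comb_spec _ a.1 _ b.1 _ c.1
    exact ⟨d.1, by rw [tyF, d.2.1, a.2, b.2, c.2]; rfl⟩

def ty (T : Sub ι) (x : ι → Bool) : ℕ := tyF x T.h T.e

lemma ty_lt (T : Sub ι) (x) : ty T x < 6 := (tyF_spec x _ _).1

lemma vb_ty (T : Sub ι) (x) : vb (ty T x) = T.vl x := (tyF_spec x _ _).2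

lemma ty_ch {T : Sub ι} {h : ℕ} (hT : T.h = h + 1) (x) :
    ty T x = comb (ty (T.ch 0) x) (ty (T.ch 1) x) (ty (T.ch 2) x) := by
  obtain ⟨_, e⟩ := T
  obtain rfl : _ = h + 1 := hT
  rfl

variable (nd ι) in
/-- the claim for one node at one height -/
def Cl (h k : ℕ) : Prop := ∀ t : ℕ → Sub ι, Ht (fun i => (t i).h) (nd k).s h →
  Ach (fun x => val (fun i => (t i).vl x) (nd k).s)
    fun x => 9 * 2.6494381 ^ h * W nd k fun i => ty (t i) x

lemma Cl.jump {h : ℕ} {cr : List ℕ} {r : Ref} (H : Cl nd ι h r.k) (o : okR nd cr r) {s : S ℕ}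
    (e : norm s = (nd r.k).s.map (lb r)) (t : ℕ → Sub ι) (ht : Ht (fun i => (t i).h) s h) :
    Ach (fun x => val (fun i => (t i).vl x) s)
      fun x => 9 * 2.6494381 ^ h * WR nd (fun i => ty (t i) x) r :=
  (H (fun i => t (lb r i))
    ((ht_map (H := fun i => (t i).h) (lb r) _ _).1 (e ▸ ht_norm s h ht))).mono
    (fun x => by rw [← val_norm s, e, val_map]) fun _ => by rw [WR_eq o]

lemma act_ach {h k : ℕ} (H1 : ∀ h' < h, ∀ k' < n, Cl nd ι h' k') (H2 : ∀ k' < k, Cl nd ι h k')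
    {cr : List ℕ} {s : S ℕ} {a : Act} (ok : okA nd n k cr s a) (t : ℕ → Sub ι)
    (ht : Ht (fun i => (t i).h) s h) : Ach (fun x => val (fun i => (t i).vl x) s)
      fun x => 9 * 2.6494381 ^ h * (ev nd (fun i => ty (t i) x) a / 26494381 ^ 3) := by
  cases a with
  | go r =>
    refine ((H2 _ ok.1).jump ok.2.1 ok.2.2 t ht).mono (fun _ => rfl) fun x => le_of_eq ?_
    simp only [ev, Nat.mul_eq]
    push_cast
    ring
  | cp p c sh u r0 r1 =>
    obtain ⟨o0, o1, o2, o3, o4, o5, p1, p2, p3, o6, o6', o7, o8, rfl, -⟩ := ok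
    obtain ⟨h', rfl, e1, -⟩ := ht_sub (y := s) p s h o2 ht
    have e2 : ∀ b, Ht (fun i => (t i).h) (put p s (.K b)) (h' + p.length) := fun b => by
      obtain ⟨_, -, -, e⟩ := ht_sub (y := .K b) p s _ o2 ht
      exact e trivial
    have a1 := H1 h' (by omega) u.k o5 (fun i => t (lb u i))
      ((ht_map (H := fun i => (t i).h) (lb u) _ _).1 (o6' ▸ o6 ▸ e1))
    refine (a1.seq (G := fun b x => val (fun i => (t i).vl x) (put p s (.K b)))
      (C := fun b x => 9 * 2.6494381 ^ (h' + p.length) * ((bif b then WR nd (fun i => ty (t i) x) r1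
        else WR nd (fun i => ty (t i) x) r0 : ℕ) : ℝ)) fun b => ?_).mono
      (fun x => val_put p s (by rw [o6, o6', val_map]; rfl)) fun x => le_of_eq ?_
    · cases b
      exacts [(H2 _ o3).jump p2 o7 t (e2 _), (H2 _ o4).jump p3 o8 t (e2 _)]
    · simp only [ev, Nat.mul_eq, Nat.add_eq, vr_eq, vb_ty, WR_eq p1, o6', val_map]
      obtain e | e | e : p.length = 1 ∨ p.length = 2 ∨ p.length = 3 := by omega
      all_goals
        rw [e]
        push_cast
        ring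

lemma cl_step {h k : ℕ} (h0 : ∀ k < 2, ∃ b, (nd k).s = .K b)
    (oS : 2 ≤ k → okS nd n k (nd k) (nd k).op)
    (oW : 2 ≤ k → ∃ m, 0 < m ∧ ∀ j < m, chk nd k m j = true)
    (H1 : ∀ h' < h, ∀ k' < n, Cl nd ι h' k') (H2 : ∀ k' < k, Cl nd ι h k') : Cl nd ι h k := by
  intro t ht
  by_cases h2 : k < 2
  · obtain ⟨b, e⟩ := h0 k h2
    rw [e]
    exact (ach_const _).mono (fun _ => rfl) fun _ => by positivity
  by_cases h3 : h ≤ 2
  · refine (ach_triv t _ h ht).mono (fun _ => rfl) fun x => ?_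
    have h5 : (1 : ℝ) ≤ (W nd k fun i => ty (t i) x : ℕ) := by exact_mod_cast (ent_bd _ _).1
    interval_cases h <;> norm_num <;> linarith
  replace oS := oS (not_lt.1 h2)
  obtain ⟨m, hm, oW⟩ := oW (not_lt.1 h2)
  have oR := fun hc => chk_row hm hc oW
  generalize (nd k).op = o at oS oR
  rcases o with _ | ⟨p, j⟩
  · refine (act_ach H1 H2 oS.2.2 (fun i => t (i - 3)) ((ht_map _ _ _).2 ht)).mono
      (fun x => val_map _ _) fun x => mul_le_mul_of_nonneg_left ?_ (by positivity)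
    have h4 := row_none oS (oR oS.1) (fun i => ty (t (i - 3)) x) fun _ => ty_lt _ _
    rw [div_le_iff₀' (by positivity)]
    exact_mod_cast h4
  · have h6 := row_some oS (oR oS.1)
    obtain ⟨-, -, -, -, -, o1, o2, o3, o4⟩ := oS
    dsimp only at o1 o2 o3 o4 h6
    obtain ⟨h', e0, e1, -⟩ := ht_sub (y := .K true) p _ h o2
      ((ht_map (H := fun i => (t (i - 3)).h) _ _ _).2 ht)
    rw [o3] at e1
    obtain ⟨d, rfl⟩ : ∃ d, h' = d + 1 := ⟨h' - 1, by omega⟩
    obtain ⟨c1, c2⟩ := Sub.ch_spec (T := t j) (h := d) e1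
    have key : ∀ T : ℕ → Sub ι, (∀ i, T (up i) = t i) → (T 0).h = d → (T 1).h = d →
        (T 2).h = d → (∀ x, (t j).vl x = maj ((T 0).vl x) ((T 1).vl x) ((T 2).vl x)) →
        Ach (fun x => val (fun i => (t i).vl x) (nd k).s) fun x => 9 * 2.6494381 ^ h *
          (ev nd (fun i => ty (T i) x) (nd k).act / 26494381 ^ 3) := by
      intro T f0 f5 f6 f7 fv
      obtain ⟨h'', f1, -, f2⟩ := ht_sub (y := .N (.U 0) (.U 1) (.U 2)) p _ h o2
        ((ht_map (H := fun i => (T i).h) _ _ _).2 (by simpa only [f0] using ht))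
      refine (act_ach H1 H2 o4 T (f2 ⟨d, by omega, f5, f6, f7⟩)).mono (fun x => ?_) fun _ => le_rfl
      rw [val_put p _ (by rw [o3]; simp only [val, f0, fv]), val_map]
      simp only [f0]
    let T : ℕ → Sub ι := fun i => if i = 0 then (t j).ch 0 else if i = 1 then (t j).ch 1
      else if i = 2 then (t j).ch 2 else t (i - 3)
    have f0 : ∀ i, T (up i) = t i := fun i => by simp [T, up]
    have f1 : ∀ i, rot (up i) = up i := fun i => by simp [rot, up]
    have m1 : ∀ a b c, maj a b c = maj b c a := by decide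
    refine ((key T f0 (c1 0) (c1 1) (c1 2) c2).mix
      (key (fun i => T (rot i)) (fun i => by rw [f1, f0]) (c1 1) (c1 2) (c1 0)
        fun x => (c2 x).trans (m1 _ _ _))
      (key (fun i => T (rot (rot i))) (fun i => by rw [f1, f1, f0]) (c1 2) (c1 0) (c1 1)
        fun x => (c2 x).trans (m1 _ _ _).symm)).mono (fun _ => rfl) fun x => ?_
    have h4 := h6 (fun i => ty (T i) x) (fun _ => ty_lt _ _) (by rw [f0]; exact ty_ch e1 x)
    simp only [f0] at h4
    have h5 : ((ev nd (fun i => ty (T i) x) (nd k).act : ℝ) +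
        ev nd (fun i => ty (T (rot i)) x) (nd k).act +
        ev nd (fun i => ty (T (rot (rot i))) x) (nd k).act) / 26494381 ^ 3 / 3 ≤
        (W nd k fun i => ty (t i) x : ℕ) := by
      rw [div_le_iff₀' (by positivity), div_le_iff₀' (by positivity), mul_left_comm]
      exact_mod_cast h4
    refine le_of_eq_of_le ?_ (mul_le_mul_of_nonneg_left h5 (by positivity))
    ring

theorem cStar_le_of (h0 : ∀ k < 2, ∃ b, (nd k).s = .K b)
    (oS : ∀ k < n, 2 ≤ k → okS nd n k (nd k) (nd k).op)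
    (oW : ∀ k < n, 2 ≤ k → ∃ m, 0 < m ∧ ∀ j < m, chk nd k m j = true)
    {r : ℕ} (hr : r < n) (er : (nd r).s = .U 0) : cStar ≤ 2.6494381 := by
  have all : ∀ (ι : Type) (h : ℕ), ∀ k < n, Cl nd ι h k := fun ι h => by
    induction h using Nat.strong_induction_on with
    | _ h H1 =>
      intro k
      induction k using Nat.strong_induction_on with
      | _ k H2 =>
        exact fun hk => cl_step h0 (oS k hk) (oW k hk) H1 fun k' hk' => H2 k' hk' (hk'.trans hk)
  have R_le : ∀ k, R (iterMaj k) ≤ ENNReal.ofReal (9 * 2.6494381 ^ k * 1099511627776) := fun k => by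
    refine Ach.R_le ((all _ k r hr (fun _ => ⟨k, id⟩) (by rw [er]; rfl)).mono
      (fun _ => by rw [er]; rfl) fun x => mul_le_mul_of_nonneg_left ?_ (by positivity))
    exact_mod_cast (ent_bd _ _).2
  refine le_of_forall_gt_imp_ge_of_dense fun c hc => csInf_le ⟨0, fun _ h => h.1.le⟩
    ⟨by linarith, ?_⟩
  have h1 : (1 : ℝ) < c / 2.6494381 := by rw [lt_div_iff₀ (by norm_num)]; linarith
  filter_upwards [(tendsto_pow_atTop_atTop_of_one_lt h1).eventually_ge_atTop
    (9 * 1099511627776)] with k hk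
  refine (R_le k).trans (ENNReal.ofReal_le_ofReal ?_)
  rw [div_pow, le_div_iff₀ (by positivity)] at hk
  linarith

end tab

end

end Pool.Agent.Lib.MP_099303_lc.Up.T
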