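import Pool.Agent.Lib.MP_099303_lc.UpD

namespace Pool.Agent.Lib.MP_099303_lc.Up.T

lemma r185 : ∀ k < 202, 185 ≤ k → chk nd k 1 0 = true := by decide +kernel

lemma r244 : ∀ k < 247, 244 ≤ k → chk nd k 1 0 = true := by decide +kernel

lemma b207_0 : chk nd 207 5 0 = true := by decide +kernel

lemma b207_4 : chk nd 207 5 4 = true := by decide +kernel

lemma b242_3 : chk nd 242 5 3 = true := by decide +kernel

lemma r241 : ∀ k < 242, 241 ≤ k → chk nd k 1 0 = true := by decide +kernel

lemma b208_2 : chk nd 208 3 2 = true := by decide +kernel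

lemma r288 : ∀ k < 317, 288 ≤ k → chk nd k 1 0 = true := by decide +kernel

end Pool.Agent.Lib.MP_099303_lc.Up.T
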