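import Pool.Agent.Lib.MP_099303_lc.UpD

namespace Pool.Agent.Lib.MP_099303_lc.Up.T

lemma r139 : ∀ k < 185, 139 ≤ k → chk nd k 1 0 = true := by decide +kernel

lemma r248 : ∀ k < 288, 248 ≤ k → chk nd k 1 0 = true := by decide +kernel

lemma b207_1 : chk nd 207 5 1 = true := by decide +kernel

lemma b242_0 : chk nd 242 5 0 = true := by decide +kernel

lemma b242_4 : chk nd 242 5 4 = true := by decide +kernel

lemma b208_0 : chk nd 208 3 0 = true := by decide +kernel

lemma b208_1 : chk nd 208 3 1 = true := by decide +kernel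

lemma b243_2 : chk nd 243 3 2 = true := by decide +kernel

end Pool.Agent.Lib.MP_099303_lc.Up.T
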