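import Pool.Agent.Lib.MP_099303_lc.UpD

namespace Pool.Agent.Lib.MP_099303_lc.Up.T

lemma r85 : ∀ k < 102, 85 ≤ k → chk nd k 1 0 = true := by decide +kernel

lemma r102 : ∀ k < 139, 102 ≤ k → chk nd k 1 0 = true := by decide +kernel

lemma b207_2 : chk nd 207 5 2 = true := by decide +kernel

lemma b242_1 : chk nd 242 5 1 = true := by decide +kernel

lemma r218 : ∀ k < 220, 218 ≤ k → chk nd k 1 0 = true := by decide +kernel

lemma r238 : ∀ k < 241, 238 ≤ k → chk nd k 1 0 = true := by decide +kernel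

lemma b243_0 : chk nd 243 3 0 = true := by decide +kernel

lemma r202 : ∀ k < 207, 202 ≤ k → chk nd k 1 0 = true := by decide +kernel

lemma r233 : ∀ k < 238, 233 ≤ k → chk nd k 1 0 = true := by decide +kernel

end Pool.Agent.Lib.MP_099303_lc.Up.T
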