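import Pool.Agent.Lib.MP_099303_lc.UpD

namespace Pool.Agent.Lib.MP_099303_lc.Up.T

lemma r2 : ∀ k < 85, 2 ≤ k → chk nd k 1 0 = true := by decide +kernel

lemma r210 : ∀ k < 218, 210 ≤ k → chk nd k 1 0 = true := by decide +kernel

lemma b207_3 : chk nd 207 5 3 = true := by decide +kernel

lemma b242_2 : chk nd 242 5 2 = true := by decide +kernel

lemma r228 : ∀ k < 233, 228 ≤ k → chk nd k 1 0 = true := by decide +kernel

lemma r247 : ∀ k < 248, 247 ≤ k → chk nd k 1 0 = true := by decide +kernel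

lemma b243_1 : chk nd 243 3 1 = true := by decide +kernel

lemma r209 : ∀ k < 210, 209 ≤ k → chk nd k 1 0 = true := by decide +kernel

lemma r220 : ∀ k < 228, 220 ≤ k → chk nd k 1 0 = true := by decide +kernel

end Pool.Agent.Lib.MP_099303_lc.Up.T
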