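import Pool.Agent.Lib.MP_099303_lc.UpE0
import Pool.Agent.Lib.MP_099303_lc.UpE1
import Pool.Agent.Lib.MP_099303_lc.UpE2
import Pool.Agent.Lib.MP_099303_lc.UpE3

namespace Pool.Agent.Lib.MP_099303_lc.Up.T

lemma chkS : ∀ k < 317, 2 ≤ k → okS nd 317 k (nd k) (nd k).op := by decide +kernel

lemma chkW (k : ℕ) (h : k < 317) (h2 : 2 ≤ k) : ∃ m, 0 < m ∧ ∀ j < m, chk nd k m j = true := by
  have one : chk nd k 1 0 = true → ∃ m, 0 < m ∧ ∀ j < m, chk nd k m j = true := fun e =>
    ⟨1, Nat.one_pos, fun j hj => by rwa [Nat.lt_one_iff.1 hj]⟩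
  rcases lt_or_ge k 85 with h | h2
  · exact one (r2 k h h2)
  rcases lt_or_ge k 102 with h | h2
  · exact one (r85 k h h2)
  rcases lt_or_ge k 139 with h | h2
  · exact one (r102 k h h2)
  rcases lt_or_ge k 185 with h | h2
  · exact one (r139 k h h2)
  rcases lt_or_ge k 202 with h | h2
  · exact one (r185 k h h2)
  rcases lt_or_ge k 207 with h | h2
  · exact one (r202 k h h2)
  rcases lt_or_ge k 208 with h | h2
  · obtain rfl : k = 207 := by omega
    refine ⟨5, by omega, fun j hj => ?_⟩
    interval_cases j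
    exacts [b207_0, b207_1, b207_2, b207_3, b207_4]
  rcases lt_or_ge k 209 with h | h2
  · obtain rfl : k = 208 := by omega
    refine ⟨3, by omega, fun j hj => ?_⟩
    interval_cases j
    exacts [b208_0, b208_1, b208_2]
  rcases lt_or_ge k 210 with h | h2
  · exact one (r209 k h h2)
  rcases lt_or_ge k 218 with h | h2
  · exact one (r210 k h h2)
  rcases lt_or_ge k 220 with h | h2
  · exact one (r218 k h h2)
  rcases lt_or_ge k 228 with h | h2
  · exact one (r220 k h h2)
  rcases lt_or_ge k 233 with h | h2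
  · exact one (r228 k h h2)
  rcases lt_or_ge k 238 with h | h2
  · exact one (r233 k h h2)
  rcases lt_or_ge k 241 with h | h2
  · exact one (r238 k h h2)
  rcases lt_or_ge k 242 with h | h2
  · exact one (r241 k h h2)
  rcases lt_or_ge k 243 with h | h2
  · obtain rfl : k = 242 := by omega
    refine ⟨5, by omega, fun j hj => ?_⟩
    interval_cases j
    exacts [b242_0, b242_1, b242_2, b242_3, b242_4]
  rcases lt_or_ge k 244 with h | h2
  · obtain rfl : k = 243 := by omega
    refine ⟨3, by omega, fun j hj => ?_⟩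
    interval_cases j
    exacts [b243_0, b243_1, b243_2]
  rcases lt_or_ge k 247 with h | h2
  · exact one (r244 k h h2)
  rcases lt_or_ge k 248 with h | h2
  · exact one (r247 k h h2)
  rcases lt_or_ge k 288 with h | h2
  · exact one (r248 k h h2)
  exact one (r288 k h (by omega))

theorem cStar_le : cStar ≤ 2.6494381 :=
  cStar_le_of (fun k hk => by interval_cases k <;> exact ⟨_, rfl⟩) chkS chkW
    (r := 21) (by norm_num) rfl

end Pool.Agent.Lib.MP_099303_lc.Up.T
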